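import Pool.Agent.F3.FX.Wr

/-!
# F3, worlds G and R: assembly of the fractional decomposition
-/

set_option autoImplicit false
set_option linter.unusedSectionVars false

namespace F3.FX

open Finset Classical NW F1 F3.FT

section

variable {V : Type} [Fintype V] [DecidableEq V] {E De H R : Finset (Sym2 V)} {sd : V → Bool}
  {At : Finset V} {B : Finset (Tri V)} {ε θ κ c : ℝ}

theorem z_of {f : V → V → V → ℝ} {Q : V → V → V → Prop}
    (h : ∀ a b c, f a b c ≠ 0 → Q a b c) {a b c : V} (hn : ¬ Q a b c) : f a b c = 0 :=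
  by_contra fun hc => hn (h a b c hc)

/-- edges inside `At` -/
def Q1 (At : Finset V) (G : Finset (Sym2 V)) (u v : V) : Prop := u ∈ At ∧ v ∈ At ∧ s(u, v) ∈ G

/-- designated edges with an atypical end -/
def Q2 (At : Finset V) (De : Finset (Sym2 V)) (u v : V) : Prop := s(u, v) ∈ De ∧ (u ∈ At ∨ v ∈ At)

/-- designated edges between typical vertices -/
def Q3 (At : Finset V) (De : Finset (Sym2 V)) (u v : V) : Prop := s(u, v) ∈ De ∧ u ∉ At ∧ v ∉ At

theorem card_Q2 (hW : WX E De H sd At ε θ c) (u : V) :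
    ((univ.filter (fun w => Q2 At De u w)).card : ℝ) ≤ NW.deg De u := by
  have : univ.filter (fun w => Q2 At De u w) ⊆ nbr De u := fun w hw =>
    mem_nbr.2 (mem_filter.1 hw).2.1
  unfold NW.deg
  exact_mod_cast card_le_card this

theorem card_Q3 (u : V) :
    ((univ.filter (fun w => Q3 At De u w)).card : ℝ) ≤ NW.deg De u := by
  have : univ.filter (fun w => Q3 At De u w) ⊆ nbr De u := fun w hw =>
    mem_nbr.2 (mem_filter.1 hw).2.1
  unfold NW.deg
  exact_mod_cast card_le_card this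

theorem card_Q2_eq (a : V) (ha : a ∈ At) :
    ((univ.filter (fun w => Q2 At De a w)).card : ℝ) = NW.deg De a := by
  have : univ.filter (fun w => Q2 At De a w) = nbr De a := by
    ext w
    simp only [Q2, mem_filter, mem_univ, true_and, mem_nbr, ha, true_or, and_true]
  unfold NW.deg
  rw [this]

theorem asm {ε₀ δ₀ K C : ℝ} (hF : TwoSt (θ / 2) ε₀ C) (hL : LinkXSt δ₀ K) (hK : 0 < K)
    (hC : 0 < C) (hθ : 0 < θ) (hc : 0 < c)
    (hW : WX E De H sd At ε θ c) (hRE : R ⊆ E \ De) (hRs : Sm κ R)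
    (hRt : ∑ e ∈ R, gam sd e = 0) (hB : SmT κ B) (hn : 0 < nn V)
    (hε0 : 0 ≤ ε) (hκ0 : 0 ≤ κ)
    (hε : ε ≤ 1 / 100000) (hκ : κ ≤ 1 / 100000) (hκc : κ ≤ c / 6) (hκθ : κ ≤ θ / 10)
    (hδ : 3 * ε + 2 * κ + 16 * ε ≤ δ₀)
    (hε₀ : 2 * K * ε + 4 * ε / c + 26 * ε ≤ ε₀) (hε₀' : 4 * ε + κ ≤ ε₀) :
    Frac (6 * (K + C + 16 + 13 + 2 / c)) (alX De sd) (E \ R) B := by
  set G := E \ R with hGdef
  have hGnl : NW.NL G := hW.div.1.mono sdiff_subset
  have hDG : De ⊆ G := fun e he =>
    mem_sdiff.2 ⟨hW.De_sub he, fun hc => (mem_sdiff.1 (hRE hc)).2 he⟩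
  have hAc : (At.card : ℝ) ≤ ε * nn V := hW.At_card
  have hm1 : 0 < nn V / 16 := by positivity
  have hm2 : 0 < nn V / 13 := by positivity
  have hm3 : 0 < c / 2 * nn V := by positivity
  have pe : 0 ≤ ε * nn V := by positivity
  have pk : 0 ≤ κ * nn V := by positivity
  have qe : ε * nn V ≤ 1 / 100000 * nn V := mul_le_mul_of_nonneg_right hε hn.le
  have qk : κ * nn V ≤ 1 / 100000 * nn V := mul_le_mul_of_nonneg_right hκ hn.le
  have hDeAt : ∀ u v, s(u, v) ∈ De → u ∈ At → v ∉ At := by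
    intro u v h hu
    obtain ⟨x, hx, hxA⟩ := hW.De_typ _ h
    simp only [Sym2.mem_iff] at hx
    rcases hx with rfl | rfl
    · exact absurd hu hxA
    · exact hxA
  have hsw : ∀ {u v : V} {F : Finset (Sym2 V)}, s(u, v) ∈ F → s(v, u) ∈ F := by
    intro u v F h
    rwa [Sym2.eq_swap]
  -- edges inside `At`
  obtain ⟨f1, f1n, f1K, f1s, f1l, f1b⟩ := spread hm1 (Q1 At G) (AppX De G B sd At)
    (fun u v h => ⟨h.2.1, h.1, hsw h.2.2⟩) (fun u v w _ h => h.symm)
    (fun u v h => apC hW hRs hB hn (by linarith) (by linarith) h.2.2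
      (fun hc => hDeAt u v hc h.1 h.2.1))
    (fun u v w h _ hc => hc.1 h.2.1)
  -- designated edges with an atypical end
  obtain ⟨f2, f2n, f2K, f2s, f2l, f2b⟩ := spread hm2 (Q2 At De) (AppX De G B sd At)
    (fun u v h => ⟨hsw h.1, h.2.symm⟩) (fun u v w _ h => h.symm) (by
      intro u v h
      rcases h.2 with hu | hv
      · have h1 := apD hW hRs hB hRE h.1
        have h2 := hW.richA u v h.1 hu
        linarith
      · have h1 := apD hW hRs hB hRE (hsw h.1)
        have h2 := hW.richA v u (hsw h.1) hv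
        have h3 : univ.filter (fun w => AppX De G B sd At u v w) =
            univ.filter (fun w => AppX De G B sd At v u w) := by
          ext w
          simp only [mem_filter, mem_univ, true_and]
          exact ⟨fun h => h.symm, fun h => h.symm⟩
        rw [h3]
        linarith) (fun u v w h _ hc => hc.2.2.1 h.1)
  -- designated edges between typical vertices
  obtain ⟨f3, f3n, f3K, f3s, f3l, f3b⟩ := spread hm3 (Q3 At De) (AppX De G B sd At)
    (fun u v h => ⟨hsw h.1, h.2.2, h.2.1⟩) (fun u v w _ h => h.symm) (by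
      intro u v h
      have h1 := apD hW hRs hB hRE h.1
      have h2 := hW.rich u v h.1
      have h3 : κ * nn V ≤ c / 6 * nn V := mul_le_mul_of_nonneg_right hκc hn.le
      linarith) (fun u v w h _ hc => hc.2.2.1 h.1)
  have f1s' : ∀ a b e, f1 a b e ≠ 0 → a ∈ At ∧ b ∈ At ∧ e ∉ At ∧ s(a, b) ∉ De ∧ s(a, e) ∉ De ∧
      s(b, e) ∉ De ∧ OkX De G B sd a b e := fun a b e h =>
    ⟨(f1s a b e h).1.1, (f1s a b e h).1.2.1, (f1s a b e h).2.1,
      fun hc => hDeAt a b hc (f1s a b e h).1.1 (f1s a b e h).1.2.1, (f1s a b e h).2.2.2.1,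
      (f1s a b e h).2.2.2.2, (f1s a b e h).2.2.1⟩
  have f2s' : ∀ a b e, f2 a b e ≠ 0 → s(a, b) ∈ De ∧ (a ∈ At ∨ b ∈ At) ∧ e ∉ At ∧
      s(a, e) ∉ De ∧ s(b, e) ∉ De ∧ (sd a = sd b ∧ sd a = sd e) ∧ OkX De G B sd a b e := by
    intro a b e h
    obtain ⟨h1, h2⟩ := f2s a b e h
    refine ⟨h1.1, h1.2, h2.1, h2.2.2.1, h2.2.2.2, ?_, h2.2.1⟩
    rcases h2.2.1.2.2.2.2 with h3 | h3
    · exact absurd h1.1 h3.2.1
    · exact h3.1
  have f3s' : ∀ a b e, f3 a b e ≠ 0 → s(a, b) ∈ De ∧ a ∉ At ∧ b ∉ At ∧ e ∉ At ∧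
      s(a, e) ∉ De ∧ s(b, e) ∉ De ∧ OkX De G B sd a b e := by
    intro a b e h
    obtain ⟨h1, h2⟩ := f3s a b e h
    exact ⟨h1.1, h1.2.1, h1.2.2, h2.1, h2.2.2.1, h2.2.2.2, h2.2.1⟩
  -- loads of `f1`, `f2` at the pairs atypical - typical
  have c1 : ∀ u, ((univ.filter (fun w => Q1 At G u w)).card : ℝ) ≤ ε * nn V := by
    intro u
    refine le_trans ?_ hAc
    have : univ.filter (fun w => Q1 At G u w) ⊆ At := fun w hw => (mem_filter.1 hw).2.2.1
    exact_mod_cast card_le_card this
  have c1' : ∀ u, u ∉ At → ((univ.filter (fun w => Q1 At G u w)).card : ℝ) = 0 := by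
    intro u hu
    rw [Finset.filter_false_of_mem (fun w _ hc => hu hc.1)]
    simp
  have ld1 : ∀ a v, v ∉ At → 0 ≤ ld f1 a v ∧ ld f1 a v ≤ 16 * ε := by
    intro a v hv
    refine ⟨ld_nonneg f1n a v, ?_⟩
    have h1 := f1b a v (fun hc => hv hc.2.1)
    rw [c1' v hv, add_zero] at h1
    refine h1.trans ?_
    have h2 : ((univ.filter (fun w => Q1 At G a w)).card : ℝ) * (1 / (nn V / 16)) ≤
        ε * nn V * (1 / (nn V / 16)) := mul_le_mul_of_nonneg_right (c1 a) (by positivity)
    refine h2.trans (le_of_eq ?_)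
    field_simp
  have ld2 : ∀ a x, x ∉ At → s(a, x) ∉ De → 0 ≤ ld f2 a x ∧ ld f2 a x ≤ 13 / 50 + 13 * ε := by
    intro a x hx hax
    refine ⟨ld_nonneg f2n a x, ?_⟩
    have h1 := f2b a x (fun hc => hax hc.1)
    refine h1.trans ?_
    have h2 := card_Q2 hW a
    have h3 := card_Q2 hW x
    have h4 := hW.De_A a
    have h5 := hW.De_T x hx
    have h6 : (((univ.filter (fun w => Q2 At De a w)).card : ℝ) +
        ((univ.filter (fun w => Q2 At De x w)).card : ℝ)) * (1 / (nn V / 13)) ≤
        (nn V / 50 + ε * nn V) * (1 / (nn V / 13)) :=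
      mul_le_mul_of_nonneg_right (by linarith) (by positivity)
    refine h6.trans (le_of_eq ?_)
    field_simp
  -- the links
  have hlink : ∀ a, a ∈ At → ∃ g : V → V → ℝ, (∀ x y, 0 ≤ g x y) ∧ (∀ x y, g x y ≤ K / nn V) ∧
      (∀ x y, g x y ≠ 0 → x ∉ At ∧ y ∉ At ∧ s(a, x) ∉ De ∧ s(a, y) ∉ De ∧ s(x, y) ∉ De ∧
        OkX De G B sd a x y) ∧
      ∀ x, x ∉ At → s(a, x) ∈ G → s(a, x) ∉ De →
        ∑ y, (g x y + g y x) = 1 - ld f1 a x - ld f2 a x := by
    intro a ha
    have hXc : ((XX De G sd At a).card : ℝ) ≤ nn V := by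
      have : ((XX De G sd At a).card : ℝ) ≤ ((univ : Finset V).card : ℝ) := by
        exact_mod_cast card_le_card (subset_univ _)
      simpa [nn] using this
    have hsum : ∑ x ∈ XX De G sd At a, ld f2 a x = NW.deg De a := by
      rw [← card_Q2_eq (At := At) (De := De) a ha, ← ld_sum (f := f2) (P := Q2 At De)
        (fun u v h => ⟨hsw h.1, h.2.symm⟩) (fun a b e h => (f2s a b e h).1) f2l a
        (fun x y => z_of f2s' (fun h => h.2.2.1 ha)) (by
          intro r hr w
          exact ⟨z_of f2s' (fun h => h.2.2.2.1 hr.1), z_of f2s' (fun h => h.2.2.2.2.1 hr.1)⟩)]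
      have h1 : XX De G sd At a ⊆ univ := subset_univ _
      rw [← Finset.sum_subset h1]
      · refine Finset.sum_congr rfl fun x hx => ?_
        rw [if_neg]
        exact fun hc => (mem_XX.1 hx).2.1.2 hc.1
      · intro x _ hx
        split_ifs with h
        · rfl
        · have hxa : s(a, x) ∉ De := fun hc => h ⟨hc, Or.inl ha⟩
          refine ld_supp fun w => ⟨z_of f2s' fun h' => hxa h'.1, z_of f2s' fun h' => ?_,
            z_of f2s' fun h' => hxa (hsw h'.1), z_of f2s' fun h' => h'.2.2.1 ha,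
            z_of f2s' fun h' => ?_, z_of f2s' fun h' => h'.2.2.1 ha⟩
          · obtain ⟨-, -, h3, -, -, h6, h7⟩ := h'
            exact hx (mem_XX.2 ⟨h3, ⟨h7.2.1, hxa⟩, h6.2⟩)
          · obtain ⟨-, -, h3, -, -, h6, h7⟩ := h'
            exact hx (mem_XX.2 ⟨h3, ⟨h7.2.2.1, hxa⟩, h6.1.symm.trans h6.2⟩)
    have hY0 : ∀ y ∈ YY De G sd At a, ld f2 a y = 0 := by
      intro y hy
      have hs := (mem_YY.1 hy).2.2
      exact ld_supp fun w => ⟨z_of f2s' fun h' => hs h'.2.2.2.2.2.1.1,
        z_of f2s' fun h' => hs h'.2.2.2.2.2.1.2, z_of f2s' fun h' => hs h'.2.2.2.2.2.1.1.symm,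
        z_of f2s' fun h' => hs h'.2.2.2.2.2.1.2.symm,
        z_of f2s' fun h' => hs (h'.2.2.2.2.2.1.1.symm.trans h'.2.2.2.2.2.1.2),
        z_of f2s' fun h' => hs (h'.2.2.2.2.2.1.2.symm.trans h'.2.2.2.2.2.1.1)⟩
    have hS0 : ∑ x ∈ XX De G sd At a, (1 - ld f1 a x - ld f2 a x) =
        ((XX De G sd At a).card : ℝ) - NW.deg De a - ∑ x ∈ XX De G sd At a, ld f1 a x := by
      rw [Finset.sum_sub_distrib, Finset.sum_sub_distrib, hsum, Finset.sum_const, nsmul_eq_mul,
        mul_one]
      ring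
    have hS1 : 0 ≤ ∑ x ∈ XX De G sd At a, ld f1 a x :=
      Finset.sum_nonneg fun x _ => ld_nonneg f1n a x
    have hS2 : ∑ x ∈ XX De G sd At a, ld f1 a x ≤ 16 * ε * nn V := by
      calc ∑ x ∈ XX De G sd At a, ld f1 a x ≤ ∑ _x ∈ XX De G sd At a, 16 * ε :=
            Finset.sum_le_sum fun x hx => (ld1 a x (mem_XX.1 hx).1).2
        _ = ((XX De G sd At a).card : ℝ) * (16 * ε) := by
            rw [Finset.sum_const, nsmul_eq_mul]
        _ ≤ nn V * (16 * ε) := mul_le_mul_of_nonneg_right hXc (by positivity)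
        _ = 16 * ε * nn V := by ring
    obtain ⟨g, g0, g1, g2, g3⟩ := link_atX (δ := 16 * ε) hL hW hRs hB hn hε0 hκ0 (by positivity)
      (by linarith) (by linarith) (by linarith) hδ a (fun x => 1 - ld f1 a x - ld f2 a x) (by
        intro x hx
        obtain ⟨h1, h2⟩ := ld1 a x (mem_XX.1 hx).1
        obtain ⟨h3, h4⟩ := ld2 a x (mem_XX.1 hx).1 (mem_XX.1 hx).2.1.2
        constructor <;> linarith) (by
        intro y hy
        obtain ⟨h1, h2⟩ := ld1 a y (mem_YY.1 hy).1
        rw [hY0 y hy]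
        constructor <;> linarith) (by
        rw [hS0]
        linarith) (by
        rw [hS0]
        linarith)
    exact ⟨g, g0, g1, g2, g3⟩
  choose! g g0 g1 g2 g3 using hlink
  obtain ⟨f4, hf4⟩ : ∃ f4 : V → V → V → ℝ, f4 = fun u v w => if u ∈ At then g u v w else 0 :=
    ⟨_, rfl⟩
  have f4n : ∀ u v w, 0 ≤ f4 u v w := by
    intro u v w
    rw [hf4]
    simp only
    split_ifs with h
    · exact g0 u h v w
    · exact le_refl _
  have f4K : ∀ u v w, f4 u v w ≤ K / nn V := by
    intro u v w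
    rw [hf4]
    simp only
    split_ifs with h
    · exact g1 u h v w
    · positivity
  have f4s : ∀ a b e, f4 a b e ≠ 0 → a ∈ At ∧ b ∉ At ∧ e ∉ At ∧ s(a, b) ∉ De ∧ s(a, e) ∉ De ∧
      s(b, e) ∉ De ∧ OkX De G B sd a b e := by
    intro a b e h
    rw [hf4] at h
    simp only at h
    split_ifs at h with h1
    · exact ⟨h1, g2 a h1 b e h⟩
    · exact absurd rfl h
  -- the sum
  obtain ⟨F, hFd⟩ : ∃ F : V → V → V → ℝ,
      F = fun u v w => ((f1 u v w + f2 u v w) + f3 u v w) + f4 u v w := ⟨_, rfl⟩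
  have ldF : ∀ u v, ld F u v = ld f1 u v + ld f2 u v + ld f3 u v + ld f4 u v := by
    intro u v
    rw [hFd, ld_add, ld_add, ld_add]
  have Fn : ∀ u v w, 0 ≤ F u v w := by
    intro u v w
    rw [hFd]
    have := f1n u v w
    have := f2n u v w
    have := f3n u v w
    have := f4n u v w
    simp only
    linarith
  have FK : ∀ u v w, F u v w ≤ (K + 16 + 13 + 2 / c) / nn V := by
    intro u v w
    have h1 := f1K u v w
    have h2 := f2K u v w
    have h3 := f3K u v w
    have h4 := f4K u v w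
    have h5 : (K + 16 + 13 + 2 / c) / nn V =
        1 / (nn V / 16) + 1 / (nn V / 13) + 1 / (c / 2 * nn V) + K / nn V := by
      field_simp
      ring
    rw [h5, hFd]
    simp only
    linarith
  have Fs : ∀ a b e, F a b e ≠ 0 → OkX De G B sd a b e := by
    intro a b e h
    by_contra hcon
    apply h
    rw [hFd]
    simp only
    rw [z_of f1s' (fun h => hcon h.2.2.2.2.2.2), z_of f2s' (fun h => hcon h.2.2.2.2.2.2),
      z_of f3s' (fun h => hcon h.2.2.2.2.2.2), z_of f4s (fun h => hcon h.2.2.2.2.2.2)]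
    norm_num
  have Ff : ∀ u v, s(u, v) ∈ G → (u ∈ At ∨ v ∈ At ∨ s(u, v) ∈ De) → ld F u v = 1 := by
    have key : ∀ u v, s(u, v) ∈ G → u ∈ At → ld F u v = 1 := by
      intro u v hg hu
      rw [ldF]
      have e3 : ld f3 u v = 0 := ld_supp fun w => ⟨z_of f3s' fun h => h.2.1 hu,
        z_of f3s' fun h => h.2.1 hu, z_of f3s' fun h => h.2.2.1 hu,
        z_of f3s' fun h => h.2.2.2.1 hu, z_of f3s' fun h => h.2.2.1 hu,
        z_of f3s' fun h => h.2.2.2.1 hu⟩
      by_cases hv : v ∈ At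
      · have e1 := f1l u v ⟨hu, hv, hg⟩
        have hd : s(u, v) ∉ De := fun hc => hDeAt u v hc hu hv
        have e2 : ld f2 u v = 0 := ld_supp fun w => ⟨z_of f2s' fun h => hd h.1,
          z_of f2s' fun h => h.2.2.1 hv, z_of f2s' fun h => hd (hsw h.1),
          z_of f2s' fun h => h.2.2.1 hu, z_of f2s' fun h => h.2.2.1 hv,
          z_of f2s' fun h => h.2.2.1 hu⟩
        have e4 : ld f4 u v = 0 := ld_supp fun w => ⟨z_of f4s fun h => h.2.1 hv,
          z_of f4s fun h => h.2.2.1 hv, z_of f4s fun h => h.2.1 hu, z_of f4s fun h => h.2.2.1 hu,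
          z_of f4s fun h => h.2.1 hu, z_of f4s fun h => h.2.1 hv⟩
        rw [e1, e2, e3, e4]
        norm_num
      · by_cases hd : s(u, v) ∈ De
        · have hd' := hsw hd
          have e1 : ld f1 u v = 0 := ld_supp fun w => ⟨z_of f1s' fun h => h.2.2.2.1 hd,
            z_of f1s' fun h => h.2.2.2.2.1 hd, z_of f1s' fun h => h.2.2.2.1 hd',
            z_of f1s' fun h => h.2.2.2.2.1 hd', z_of f1s' fun h => h.2.2.2.2.2.1 hd,
            z_of f1s' fun h => h.2.2.2.2.2.1 hd'⟩
          have e4 : ld f4 u v = 0 := ld_supp fun w => ⟨z_of f4s fun h => h.2.2.2.1 hd,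
            z_of f4s fun h => h.2.2.2.2.1 hd, z_of f4s fun h => h.2.2.2.1 hd',
            z_of f4s fun h => h.2.2.2.2.1 hd', z_of f4s fun h => h.2.2.2.2.2.1 hd,
            z_of f4s fun h => h.2.2.2.2.2.1 hd'⟩
          rw [e1, f2l u v ⟨hd, Or.inl hu⟩, e3, e4]
          norm_num
        · have e4 : ld f4 u v = 1 - ld f1 u v - ld f2 u v := by
            rw [← g3 u hu v hv hg hd]
            unfold ld
            refine Finset.sum_congr rfl fun w _ => ?_
            have a1 : f4 v u w = 0 := z_of f4s fun h => hv h.1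
            have a2 : f4 v w u = 0 := z_of f4s fun h => hv h.1
            have a3 : f4 w u v = 0 := z_of f4s fun h => h.2.1 hu
            have a4 : f4 w v u = 0 := z_of f4s fun h => h.2.2.1 hu
            have a5 : f4 u v w = g u v w := by
              rw [hf4]
              simp [hu]
            have a6 : f4 u w v = g u w v := by
              rw [hf4]
              simp [hu]
            rw [a1, a2, a3, a4, a5, a6]
            ring
          rw [e4, e3]
          ring
    intro u v hg h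
    rcases h with h | h | h
    · exact key u v hg h
    · rw [ld_comm]
      exact key v u (hsw hg) h
    · by_cases hu : u ∈ At
      · exact key u v hg hu
      by_cases hv : v ∈ At
      · rw [ld_comm]
        exact key v u (hsw hg) hv
      rw [ldF]
      have h' := hsw h
      have e1 : ld f1 u v = 0 := ld_supp fun w => ⟨z_of f1s' fun h => hu h.1,
        z_of f1s' fun h => hu h.1, z_of f1s' fun h => hv h.1, z_of f1s' fun h => hv h.1,
        z_of f1s' fun h => hu h.2.1, z_of f1s' fun h => hv h.2.1⟩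
      have e2 : ld f2 u v = 0 := ld_supp fun w =>
        ⟨z_of f2s' fun h => h.2.1.elim hu hv, z_of f2s' fun h'' => h''.2.2.2.1 h,
        z_of f2s' fun h => h.2.1.elim hv hu, z_of f2s' fun h'' => h''.2.2.2.1 h',
        z_of f2s' fun h'' => h''.2.2.2.2.1 h, z_of f2s' fun h'' => h''.2.2.2.2.1 h'⟩
      have e3 := f3l u v ⟨h, hu, hv⟩
      have e4 : ld f4 u v = 0 := ld_supp fun w => ⟨z_of f4s fun h => hu h.1,
        z_of f4s fun h => hu h.1, z_of f4s fun h => hv h.1, z_of f4s fun h => hv h.1,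
        z_of f4s fun h'' => h''.2.2.2.2.2.1 h, z_of f4s fun h'' => h''.2.2.2.2.2.1 h'⟩
      rw [e1, e2, e3, e4]
      norm_num
  have Fb : ∀ u v, u ∉ At → v ∉ At → s(u, v) ∉ De → ld F u v ≤ ε₀ := by
    intro u v hu hv hd
    refine le_trans ?_ hε₀
    rw [ldF]
    have e1 : ld f1 u v = 0 := ld_supp fun w => ⟨z_of f1s' fun h => hu h.1,
      z_of f1s' fun h => hu h.1, z_of f1s' fun h => hv h.1, z_of f1s' fun h => hv h.1,
      z_of f1s' fun h => hu h.2.1, z_of f1s' fun h => hv h.2.1⟩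
    have e2 : ld f2 u v ≤ 26 * ε := by
      have h1 := f2b u v (fun hc => hd hc.1)
      refine h1.trans ?_
      have h2 := card_Q2 hW u
      have h3 := card_Q2 hW v
      have h4 := hW.De_T u hu
      have h5 := hW.De_T v hv
      have h6 : (((univ.filter (fun w => Q2 At De u w)).card : ℝ) +
          ((univ.filter (fun w => Q2 At De v w)).card : ℝ)) * (1 / (nn V / 13)) ≤
          (ε * nn V + ε * nn V) * (1 / (nn V / 13)) :=
        mul_le_mul_of_nonneg_right (by linarith) (by positivity)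
      refine h6.trans (le_of_eq ?_)
      field_simp
      ring
    have e3 : ld f3 u v ≤ 4 * ε / c := by
      have h1 := f3b u v (fun hc => hd hc.1)
      refine h1.trans ?_
      have h2 := card_Q3 (At := At) (De := De) u
      have h3 := card_Q3 (At := At) (De := De) v
      have h4 := hW.De_T u hu
      have h5 := hW.De_T v hv
      have h6 : (((univ.filter (fun w => Q3 At De u w)).card : ℝ) +
          ((univ.filter (fun w => Q3 At De v w)).card : ℝ)) * (1 / (c / 2 * nn V)) ≤
          (ε * nn V + ε * nn V) * (1 / (c / 2 * nn V)) :=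
        mul_le_mul_of_nonneg_right (by linarith) (by positivity)
      refine h6.trans (le_of_eq ?_)
      field_simp
      ring
    have e4 : ld f4 u v ≤ 2 * K * ε := by
      have h1 : ld f4 u v = ∑ w, (f4 w u v + f4 w v u) := by
        unfold ld
        refine Finset.sum_congr rfl fun w _ => ?_
        have a1 : f4 u v w = 0 := z_of f4s fun h => hu h.1
        have a2 : f4 u w v = 0 := z_of f4s fun h => hu h.1
        have a3 : f4 v u w = 0 := z_of f4s fun h => hv h.1
        have a4 : f4 v w u = 0 := z_of f4s fun h => hv h.1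
        rw [a1, a2, a3, a4]
        ring
      rw [h1]
      have h2 : ∀ w, f4 w u v + f4 w v u ≤ if w ∈ At then 2 * K / nn V else 0 := by
        intro w
        split_ifs with hw
        · have := f4K w u v
          have := f4K w v u
          have h3 : 2 * K / nn V = K / nn V + K / nn V := by ring
          rw [h3]
          linarith
        · rw [z_of f4s fun h => hw h.1, z_of f4s fun h => hw h.1]
          norm_num
      refine (Finset.sum_le_sum fun w _ => h2 w).trans ?_
      rw [Finset.sum_ite_mem, Finset.univ_inter, Finset.sum_const, nsmul_eq_mul]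
      have h3 := mul_le_mul_of_nonneg_right hAc (show (0 : ℝ) ≤ 2 * K / nn V by positivity)
      refine h3.trans (le_of_eq ?_)
      field_simp
    linarith
  -- the weights
  have htot : ∑ e ∈ G, gamX De sd e = 0 := by
    have h1 := hW.tot
    have hRE' : R ⊆ E := hRE.trans sdiff_subset
    have h3 := Finset.sum_sdiff (f := fun e => gam sd e) hRE'
    have h4 : ∀ e, gamX De sd e = gam sd e - (if e ∈ De then gam sd e + 4 else 0) := by
      intro e
      unfold gamX
      split_ifs <;> ring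
    have h5 : ∑ e ∈ G, (if e ∈ De then gam sd e + 4 else 0) = ∑ e ∈ De, (gam sd e + 4) := by
      rw [← Finset.sum_filter]
      refine Finset.sum_congr ?_ fun _ _ => rfl
      ext e
      simp only [mem_filter]
      exact ⟨fun h => h.2, fun h => ⟨hDG h, h⟩⟩
    have h6 : ∑ e ∈ De, (gam sd e + 4) = 6 * (De.card : ℤ) := by
      have : ∀ e ∈ De, gam sd e + 4 = 6 := by
        intro e he
        unfold gam
        rw [if_pos (hW.De_int e he)]
        norm_num
      rw [Finset.sum_congr rfl this, Finset.sum_const, nsmul_eq_mul]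
      ring
    rw [Finset.sum_congr rfl fun e _ => h4 e, Finset.sum_sub_distrib, h5, h6, hGdef]
    linarith
  have hts := gam_sum (At := At) hGnl Fs Ff htot
  obtain ⟨f5, f5n, f5K, f5s, f5l⟩ := hF V (univ \ At) sd (GrX De G) (BdB B)
    (fun u v => 1 - ld F u v) hn (fun u h => hGnl _ h.1 (by simp))
    (fun u v h => ⟨hsw h.1, fun hc => h.2 (hsw hc)⟩)
    (fun u v w h => h.swap12) (fun u v w h => h.swap23) (by
      intro b
      have h1 := abs_le.1 (hW.side b)
      have h2 : ((univ \ At).filter (fun v => sd v = b)).card ≤ (Sd sd b).card := by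
        refine card_le_card fun v hv => ?_
        exact mem_filter.2 ⟨mem_univ _, (mem_filter.1 hv).2⟩
      have h3 : (Sd sd b).card ≤ ((univ \ At).filter (fun v => sd v = b)).card + At.card := by
        refine le_trans (card_le_card fun v hv => ?_) (card_union_le _ _)
        by_cases h : v ∈ At
        · exact mem_union_right _ h
        · exact mem_union_left _ (mem_filter.2 ⟨mem_sdiff.2 ⟨mem_univ _, h⟩, (mem_filter.1 hv).2⟩)
      have h2' : (((univ \ At).filter (fun v => sd v = b)).card : ℝ) ≤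
        ((Sd sd b).card : ℝ) := by exact_mod_cast h2
      have h3' : ((Sd sd b).card : ℝ) ≤
        (((univ \ At).filter (fun v => sd v = b)).card : ℝ) + (At.card : ℝ) := by
        exact_mod_cast h3
      have h4 : (4 * ε + κ) * nn V ≤ ε₀ * nn V := mul_le_mul_of_nonneg_right hε₀' hn.le
      rw [abs_le]
      constructor <;> linarith) (by
      intro u hu
      have hu' : u ∉ At := (mem_sdiff.1 hu).2
      have h1 : (univ \ At).filter (fun v => sd u ≠ sd v ∧ ¬ GrX De G u v) ⊆
          (Sd sd (!sd u)).filter (fun w => s(u, w) ∉ E) ∪ nbr R u := by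
        intro w hw
        obtain ⟨-, h1, h2⟩ := mem_filter.1 hw
        by_cases h3 : s(u, w) ∈ E
        · refine mem_union_right _ (mem_nbr.2 ?_)
          by_contra h4
          exact h2 ⟨mem_sdiff.2 ⟨h3, h4⟩, fun hc => h1 (De_side hW hc)⟩
        · exact mem_union_left _ (mem_filter.2 ⟨mem_filter.2 ⟨mem_univ _, (bne h1).symm⟩, h3⟩)
      have h2 : (((univ \ At).filter (fun v => sd u ≠ sd v ∧ ¬ GrX De G u v)).card : ℝ) ≤
          (((Sd sd (!sd u)).filter (fun w => s(u, w) ∉ E)).card : ℝ) + ((nbr R u).card : ℝ) := by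
        exact_mod_cast (card_le_card h1).trans (card_union_le _ _)
      have h3 := hW.miss u hu'
      have h4 : ((nbr R u).card : ℝ) ≤ κ * nn V := hRs u
      have h5 : (4 * ε + κ) * nn V ≤ ε₀ * nn V := mul_le_mul_of_nonneg_right hε₀' hn.le
      linarith) (by
      intro u hu
      have hu' : u ∉ At := (mem_sdiff.1 hu).2
      have h1 := abs_le.1 (hW.intT u hu')
      have h2 : (univ \ At).filter (fun v => sd u = sd v ∧ GrX De G u v) ⊆
          nbr E u ∩ Sd sd (sd u) := by
        intro w hw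
        obtain ⟨-, h1, h2⟩ := mem_filter.1 hw
        exact mem_inter.2 ⟨mem_nbr.2 (mem_sdiff.1 h2.1).1, mem_filter.2 ⟨mem_univ _, h1.symm⟩⟩
      have h3 : nbr E u ∩ Sd sd (sd u) ⊆
          (univ \ At).filter (fun v => sd u = sd v ∧ GrX De G u v) ∪ (At ∪ (nbr De u ∪ nbr R u)) := by
        intro w hw
        obtain ⟨h1, h2⟩ := mem_inter.1 hw
        by_cases h3 : w ∈ At
        · exact mem_union_right _ (mem_union_left _ h3)
        by_cases h4 : w ∈ nbr De u
        · exact mem_union_right _ (mem_union_right _ (mem_union_left _ h4))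
        by_cases h5 : w ∈ nbr R u
        · exact mem_union_right _ (mem_union_right _ (mem_union_right _ h5))
        exact mem_union_left _ (mem_filter.2 ⟨mem_sdiff.2 ⟨mem_univ _, h3⟩,
          (mem_filter.1 h2).2.symm, mem_sdiff.2 ⟨mem_nbr.1 h1, fun hc => h5 (mem_nbr.2 hc)⟩,
          fun hc => h4 (mem_nbr.2 hc)⟩)
      have h4 : (((univ \ At).filter (fun v => sd u = sd v ∧ GrX De G u v)).card : ℝ) ≤
          di sd E u := by
        unfold di
        exact_mod_cast card_le_card h2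
      have h5 : (di sd E u : ℝ) ≤
          (((univ \ At).filter (fun v => sd u = sd v ∧ GrX De G u v)).card : ℝ) +
          ((At.card : ℝ) + ((NW.deg De u : ℝ) + ((nbr R u).card : ℝ))) := by
        unfold di NW.deg
        exact_mod_cast (card_le_card h3).trans ((card_union_le _ _).trans (Nat.add_le_add_left
          ((card_union_le _ _).trans (Nat.add_le_add_left (card_union_le _ _) _)) _))
      have h6 := hW.De_T u hu'
      have h7 : ((nbr R u).card : ℝ) ≤ κ * nn V := hRs u
      have h8 : (4 * ε + κ) * nn V ≤ ε₀ * nn V := mul_le_mul_of_nonneg_right hε₀' hn.le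
      rw [abs_le]
      constructor <;> linarith) (by
      intro u v
      have h1 := card_BdB hB u v
      have h5 : (4 * ε + κ) * nn V ≤ ε₀ * nn V := mul_le_mul_of_nonneg_right hε₀' hn.le
      linarith) (by
      intro y hy hsy
      have hy' : y ∉ At := (mem_sdiff.1 hy).2
      have h1 := hW.odd y hy' hsy
      have h2 := walks_R (κ := κ) hRs (Sd sd false \ At) y (F := E \ De)
      have h3 : κ * nn V ^ 4 ≤ θ / 10 * nn V ^ 4 :=
        mul_le_mul_of_nonneg_right hκθ (by positivity)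
      have h4 : walks5 ((E \ De) \ R) (Sd sd false \ At) y y ⊆
          ((univ \ At) ×ˢ (univ \ At) ×ˢ (univ \ At) ×ˢ (univ \ At)).filter
          (fun p => (sd p.1 = false ∧ sd p.2.1 = false ∧ sd p.2.2.1 = false ∧
            sd p.2.2.2 = false) ∧ GrX De G y p.1 ∧ GrX De G p.1 p.2.1 ∧ GrX De G p.2.1 p.2.2.1 ∧
            GrX De G p.2.2.1 p.2.2.2 ∧ GrX De G p.2.2.2 y) := by
        intro p hp
        unfold walks5 at hp
        simp only [mem_filter, mem_product, mem_sdiff, Sd, mem_univ, true_and] at hp ⊢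
        obtain ⟨⟨a1, a2, a3, a4⟩, b1, b2, b3, b4, b5⟩ := hp
        exact ⟨⟨a1.2, a2.2, a3.2, a4.2⟩, ⟨a1.1, a2.1, a3.1, a4.1⟩,
          ⟨mem_sdiff.2 ⟨b1.1.1, b1.2⟩, b1.1.2⟩, ⟨mem_sdiff.2 ⟨b2.1.1, b2.2⟩, b2.1.2⟩,
          ⟨mem_sdiff.2 ⟨b3.1.1, b3.2⟩, b3.1.2⟩, ⟨mem_sdiff.2 ⟨b4.1.1, b4.2⟩, b4.1.2⟩,
          ⟨mem_sdiff.2 ⟨b5.1.1, b5.2⟩, b5.1.2⟩⟩
      have h5 : ((walks5 ((E \ De) \ R) (Sd sd false \ At) y y).card : ℝ) ≤
          ((((univ \ At) ×ˢ (univ \ At) ×ˢ (univ \ At) ×ˢ (univ \ At)).filter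
          (fun p => (sd p.1 = false ∧ sd p.2.1 = false ∧ sd p.2.2.1 = false ∧
            sd p.2.2.2 = false) ∧ GrX De G y p.1 ∧ GrX De G p.1 p.2.1 ∧ GrX De G p.2.1 p.2.2.1 ∧
            GrX De G p.2.2.1 p.2.2.2 ∧ GrX De G p.2.2.2 y)).card : ℝ) := by
        exact_mod_cast card_le_card h4
      refine le_trans ?_ h5
      linarith) (fun u v => by rw [ld_comm]) (by
      intro u hu v hv hg
      have h1 := Fb u v (mem_sdiff.1 hu).2 (mem_sdiff.1 hv).2 hg.2
      have h2 := ld_nonneg Fn u v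
      rw [abs_le]
      constructor <;> linarith) hts
  have hfr := frac_of_fun (K := K + C + 16 + 13 + 2 / c) (al := alX De sd) (E := G) (B := B) hGnl
    (fun u v w => F u v w + f5 u v w)
    (fun u v w => add_nonneg (Fn u v w) (f5n u v w)) (by
      intro u v w
      have h1 := FK u v w
      have h2 := f5K u v w
      have h3 : (K + C + 16 + 13 + 2 / c) / nn V = (K + 16 + 13 + 2 / c) / nn V + C / nn V := by
        ring
      rw [h3]
      exact add_le_add h1 h2) (by
      intro u v w h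
      by_cases h1 : F u v w = 0
      · have h2 : f5 u v w ≠ 0 := by
          intro hc
          apply h
          rw [h1, hc, add_zero]
        obtain ⟨-, -, -, a1, b1, b2, b3, b4⟩ := f5s u v w h2
        exact okX_tri hGnl ⟨b1.1, b2.1, b3.1, b4, Or.inl ⟨a1, b1.2, b2.2, b3.2⟩⟩
      · exact okX_tri hGnl (Fs u v w h1)) (by
      intro u v hg
      rw [ld_add]
      by_cases hu : u ∈ At ∨ v ∈ At ∨ s(u, v) ∈ De
      · rw [Ff u v hg hu]
        have f5z : ∀ a b e, f5 a b e ≠ 0 → a ∉ At ∧ b ∉ At ∧ e ∉ At ∧ s(a, b) ∉ De ∧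
            s(a, e) ∉ De ∧ s(b, e) ∉ De := by
          intro a b e h
          obtain ⟨a1, a2, a3, -, a4, a5, a6, -⟩ := f5s a b e h
          exact ⟨(mem_sdiff.1 a1).2, (mem_sdiff.1 a2).2, (mem_sdiff.1 a3).2, a4.2, a5.2, a6.2⟩
        have : ld f5 u v = 0 := by
          refine ld_supp fun w => ?_
          rcases hu with h | h | h
          · exact ⟨z_of f5z fun h' => h'.1 h, z_of f5z fun h' => h'.1 h,
              z_of f5z fun h' => h'.2.1 h, z_of f5z fun h' => h'.2.2.1 h,
              z_of f5z fun h' => h'.2.1 h, z_of f5z fun h' => h'.2.2.1 h⟩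
          · exact ⟨z_of f5z fun h' => h'.2.1 h, z_of f5z fun h' => h'.2.2.1 h,
              z_of f5z fun h' => h'.1 h, z_of f5z fun h' => h'.1 h,
              z_of f5z fun h' => h'.2.2.1 h, z_of f5z fun h' => h'.2.1 h⟩
          · exact ⟨z_of f5z fun h' => h'.2.2.2.1 h, z_of f5z fun h' => h'.2.2.2.2.1 h,
              z_of f5z fun h' => h'.2.2.2.1 (hsw h), z_of f5z fun h' => h'.2.2.2.2.1 (hsw h),
              z_of f5z fun h' => h'.2.2.2.2.2 h, z_of f5z fun h' => h'.2.2.2.2.2 (hsw h)⟩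
        rw [this, add_zero]
      · push Not at hu
        obtain ⟨c1, c2, c3⟩ := hu
        rw [f5l u (mem_sdiff.2 ⟨mem_univ _, c1⟩) v (mem_sdiff.2 ⟨mem_univ _, c2⟩) ⟨hg, c3⟩]
        ring)
  exact hfr

end

end F3.FX
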