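import Pool.Agent.F3.FX.Defs

/-!
# Project F3, block FX: basic facts about allowed triples
-/

set_option autoImplicit false
set_option linter.unusedSectionVars false

namespace F3.FX

open Finset NW F1
open F3.FT (ld)

section FXBasic

variable {V : Type} [Fintype V] [DecidableEq V]
  {E' De E H R : Finset (Sym2 V)} {sd : V → Bool} {B : Finset (Tri V)} {At : Finset V}
  {ε θ c κ : ℝ}

theorem Ok.swap12 {u v w : V} (h : Ok E' De sd B u v w) : Ok E' De sd B v u w := by
  obtain ⟨T, h1, h2⟩ := h
  refine ⟨T, ?_, h2⟩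
  rw [h1]
  ext x
  simp only [Finset.mem_insert, Finset.mem_singleton]
  tauto

theorem Ok.swap23 {u v w : V} (h : Ok E' De sd B u v w) : Ok E' De sd B u w v := by
  obtain ⟨T, h1, h2⟩ := h
  refine ⟨T, ?_, h2⟩
  rw [h1]
  ext x
  simp only [Finset.mem_insert, Finset.mem_singleton]
  tauto

theorem Ok.ne {u v w : V} (h : Ok E' De sd B u v w) : u ≠ v ∧ u ≠ w ∧ v ≠ w := by
  obtain ⟨T, h1, _⟩ := h
  have hc : ({u, v, w} : Finset V).card = 3 := by rw [← h1]; exact T.2
  refine ⟨?_, ?_, ?_⟩
  · rintro rfl
    rw [Finset.insert_eq_of_mem (Finset.mem_insert_self _ _)] at hc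
    have := Finset.card_le_two (a := u) (b := w)
    omega
  · rintro rfl
    have h2 : ({u, v, u} : Finset V) = {u, v} := by
      ext x
      simp only [Finset.mem_insert, Finset.mem_singleton]
      tauto
    rw [h2] at hc
    have := Finset.card_le_two (a := u) (b := v)
    omega
  · rintro rfl
    rw [Finset.insert_eq_of_mem (s := {v}) (Finset.mem_singleton_self _)] at hc
    have := Finset.card_le_two (a := u) (b := v)
    omega

theorem Ok.edges {u v w : V} (h : Ok E' De sd B u v w) :
    s(u, v) ∈ E' ∧ s(u, w) ∈ E' ∧ s(v, w) ∈ E' := by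
  have hne := h.ne
  obtain ⟨T, h1, _, _, h4⟩ := h
  rw [h1] at h4
  exact ⟨h4 (mk_mem_edg.2 ⟨by simp, by simp, hne.1⟩), h4 (mk_mem_edg.2 ⟨by simp, by simp, hne.2.1⟩),
    h4 (mk_mem_edg.2 ⟨by simp, by simp, hne.2.2⟩)⟩

/-- the bad third vertices -/
def Bad (B : Finset (Tri V)) (u v w : V) : Prop := ∃ T ∈ B, T.1 = {u, v, w}

theorem Bad.swap12 {u v w : V} (h : Bad B u v w) : Bad B v u w := by
  obtain ⟨T, h1, h2⟩ := h
  refine ⟨T, h1, ?_⟩
  rw [h2]
  ext x
  simp only [Finset.mem_insert, Finset.mem_singleton]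
  tauto

theorem Bad.swap23 {u v w : V} (h : Bad B u v w) : Bad B u w v := by
  obtain ⟨T, h1, h2⟩ := h
  refine ⟨T, h1, ?_⟩
  rw [h2]
  ext x
  simp only [Finset.mem_insert, Finset.mem_singleton]
  tauto

theorem not_bad_iff {T : Tri V} {u v w : V} (hT : T.1 = {u, v, w}) : ¬ Bad B u v w ↔ T ∉ B := by
  constructor
  · intro h h'
    exact h ⟨T, h', hT⟩
  · rintro h ⟨T', h1, h2⟩
    apply h
    have : T' = T := Subtype.ext (h2.trans hT.symm)
    rw [← this]
    exact h1

open Classical in
theorem bad_card (hκ : 0 ≤ κ) (hB : SmT κ B) (u v : V) :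
    ((univ.filter (fun w => Bad B u v w)).card : ℝ) ≤ κ * nn V := by
  by_cases huv : u = v
  · have h0 : univ.filter (fun w => Bad B u v w) = ∅ := by
      rw [Finset.filter_eq_empty_iff]
      rintro w _ ⟨T, _, h2⟩
      have hc : ({u, v, w} : Finset V).card = 3 := by rw [← h2]; exact T.2
      rw [huv, Finset.insert_eq_of_mem (Finset.mem_insert_self _ _)] at hc
      have := Finset.card_le_two (a := v) (b := w)
      omega
    rw [h0]
    have : 0 ≤ nn V := by unfold nn; positivity
    simp only [Finset.card_empty, Nat.cast_zero]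
    positivity
  · refine le_trans ?_ (hB s(u, v))
    rw [Nat.cast_le]
    refine Finset.card_le_card_of_forall_subsingleton (fun w T => T.1 = {u, v, w}) ?_ ?_
    · intro w hw
      obtain ⟨T, h1, h2⟩ := (Finset.mem_filter.1 hw).2
      refine ⟨T, Finset.mem_filter.2 ⟨h1, ?_⟩, h2⟩
      rw [h2]
      exact mk_mem_edg.2 ⟨by simp, by simp, huv⟩
    · rintro T _ w ⟨_, hw⟩ w' ⟨_, hw'⟩
      have hc : ({u, v, w} : Finset V).card = 3 := by rw [← hw]; exact T.2
      have h1 : w ∈ ({u, v, w'} : Finset V) := by
        rw [← hw', hw]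
        simp
      simp only [Finset.mem_insert, Finset.mem_singleton] at h1
      rcases h1 with h1 | h1 | h1
      · exfalso
        have h3 : ({u, v, w} : Finset V) = {u, v} := by
          rw [h1]
          ext x
          simp only [Finset.mem_insert, Finset.mem_singleton]
          tauto
        rw [h3] at hc
        have := Finset.card_le_two (a := u) (b := v)
        omega
      · exfalso
        have h3 : ({u, v, w} : Finset V) = {u, v} := by
          rw [h1]
          ext x
          simp only [Finset.mem_insert, Finset.mem_singleton]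
          tauto
        rw [h3] at hc
        have := Finset.card_le_two (a := u) (b := v)
        omega
      · exact h1

end FXBasic

end F3.FX
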