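import Pool.Agent.F3.FX.OkX

/-!
# F3, worlds G and R: counting
-/

set_option autoImplicit false
set_option linter.unusedSectionVars false

namespace F3.FX

open Finset Classical NW F1 F3.FT

variable {V : Type} [Fintype V] [DecidableEq V] {E De H R : Finset (Sym2 V)} {sd : V → Bool}
  {At : Finset V} {B : Finset (Tri V)} {ε θ κ c : ℝ}

/-- typical apexes, the other two pairs not designated -/
def AppX (De G : Finset (Sym2 V)) (B : Finset (Tri V)) (sd : V → Bool) (At : Finset V)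
    (u v w : V) : Prop :=
  w ∉ At ∧ OkX De G B sd u v w ∧ s(u, w) ∉ De ∧ s(v, w) ∉ De

theorem AppX.symm {G : Finset (Sym2 V)} {u v w : V} (h : AppX De G B sd At u v w) :
    AppX De G B sd At v u w := ⟨h.1, h.2.1.swap12, h.2.2.2, h.2.2.1⟩

/-- good pairs in the link of `a` -/
def GdX (De G : Finset (Sym2 V)) (B : Finset (Tri V)) (a x y : V) : Prop :=
  (s(x, y) ∈ G ∧ s(x, y) ∉ De) ∧ ¬ BdB B a x y

theorem GdX.symm {G : Finset (Sym2 V)} {a x y : V} (h : GdX De G B a x y) :
    GdX De G B a y x :=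
  ⟨by rw [Sym2.eq_swap]; exact h.1, fun hc => h.2 hc.swap23⟩

/-- the key counting lemma: from a set of apexes to allowed apexes -/
theorem apkey (hRs : Sm κ R) (hB : SmT κ B) (u v : V) (S : Finset V)
    (hS : ∀ w ∈ S, w ∉ nbr R u → w ∉ nbr R v → ¬ BdB B u v w → AppX De (E \ R) B sd At u v w) :
    (S.card : ℝ) - 3 * κ * nn V ≤
      ((univ.filter (fun w => AppX De (E \ R) B sd At u v w)).card : ℝ) := by
  have h1 : S ⊆ univ.filter (fun w => AppX De (E \ R) B sd At u v w) ∪
      (nbr R u ∪ (nbr R v ∪ univ.filter (fun w => BdB B u v w))) := by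
    intro w hwS
    by_cases a : w ∈ nbr R u
    · exact mem_union_right _ (mem_union_left _ a)
    by_cases b : w ∈ nbr R v
    · exact mem_union_right _ (mem_union_right _ (mem_union_left _ b))
    by_cases d : BdB B u v w
    · exact mem_union_right _ (mem_union_right _ (mem_union_right _ (by simp [d])))
    exact mem_union_left _ (by simpa using hS w hwS a b d)
  have h2 : S.card ≤ (univ.filter (fun w => AppX De (E \ R) B sd At u v w)).card +
      ((nbr R u).card + ((nbr R v).card + (univ.filter (fun w => BdB B u v w)).card)) :=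
    (card_le_card h1).trans ((card_union_le _ _).trans (Nat.add_le_add_left
      ((card_union_le _ _).trans (Nat.add_le_add_left (card_union_le _ _) _)) _))
  have h3 : (S.card : ℝ) ≤ ((univ.filter (fun w => AppX De (E \ R) B sd At u v w)).card : ℝ) +
      (((nbr R u).card : ℝ) + (((nbr R v).card : ℝ) +
        ((univ.filter (fun w => BdB B u v w)).card : ℝ))) := by
    exact_mod_cast h2
  have h4 : ((nbr R u).card : ℝ) ≤ κ * nn V := hRs u
  have h5 : ((nbr R v).card : ℝ) ≤ κ * nn V := hRs v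
  have h6 := card_BdB hB u v
  linarith

theorem De_side (hW : WX E De H sd At ε θ c) {u v : V} (h : s(u, v) ∈ De) : sd u = sd v :=
  hW.De_int _ h u (by simp) v (by simp)

/-- intersections of neighbourhoods in a set -/
theorem inter_card {A C S : Finset V} (hA : A ⊆ S) (hC : C ⊆ S) :
    (A.card : ℝ) + C.card - S.card ≤ ((A ∩ C).card : ℝ) := by
  have h1 := Finset.card_union_add_card_inter A C
  have h2 : (A ∪ C).card ≤ S.card := card_le_card (union_subset hA hC)
  have h3 : (A.card : ℝ) + C.card = ((A ∪ C).card : ℝ) + ((A ∩ C).card : ℝ) := by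
    exact_mod_cast h1.symm
  have h4 : ((A ∪ C).card : ℝ) ≤ (S.card : ℝ) := by exact_mod_cast h2
  linarith

theorem sdiff_card (A C : Finset V) : (A.card : ℝ) - C.card ≤ ((A \ C).card : ℝ) := by
  have h1 := Finset.card_le_card_sdiff_add_card (s := A) (t := C)
  have h2 : (A.card : ℝ) ≤ ((A \ C).card : ℝ) + C.card := by exact_mod_cast h1
  linarith

theorem side_le (hW : WX E De H sd At ε θ c) (b : Bool) :
    ((Sd sd b).card : ℝ) ≤ (1 / 2 + ε) * nn V := by
  have := abs_le.1 (hW.side b)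
  linarith

theorem bne {a b : Bool} (h : a ≠ b) : (!a) = b := by
  cases a <;> cases b <;> simp_all

theorem apC (hW : WX E De H sd At ε θ c) (hRs : Sm κ R) (hB : SmT κ B) (hn : 0 < nn V)
    (hε : ε ≤ 1 / 1000) (hκ : κ ≤ 1 / 1000) {u v : V} (h : s(u, v) ∈ E \ R)
    (hd : s(u, v) ∉ De) : nn V / 16 ≤
      ((univ.filter (fun w => AppX De (E \ R) B sd At u v w)).card : ℝ) := by
  have hA := hW.At_card
  by_cases hs : sd u = sd v
  · -- apexes on the other side
    have h1 := apkey (B := B) (sd := sd) (At := At) (E := E) (De := De) hRs hB u v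
      (((nbr E u ∩ Sd sd (!sd u)) ∩ (nbr E v ∩ Sd sd (!sd v))) \ At) (by
        intro w hw h1 h2 h3
        simp only [mem_sdiff, mem_inter, mem_nbr, Sd, mem_filter, mem_univ, true_and] at hw
        obtain ⟨⟨⟨e1, s1⟩, e2, s2⟩, h4⟩ := hw
        have n1 : sd u ≠ sd w := by
          rw [s1]
          cases sd u <;> simp
        have d1 : s(u, w) ∉ De := fun hc => n1 (De_side hW hc)
        have d2 : s(v, w) ∉ De := fun hc => n1 (hs.trans (De_side hW hc))
        exact ⟨h4, ⟨h, mem_sdiff.2 ⟨e1, fun hc => h1 (mem_nbr.2 hc)⟩,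
          mem_sdiff.2 ⟨e2, fun hc => h2 (mem_nbr.2 hc)⟩, h3, Or.inl ⟨fun hc => n1 hc.2, hd, d1,
          d2⟩⟩, d1, d2⟩)
    have h2 := inter_card (A := nbr E u ∩ Sd sd (!sd u)) (C := nbr E v ∩ Sd sd (!sd v))
      (S := Sd sd (!sd u)) inter_subset_right (by rw [hs]; exact inter_subset_right)
    have h3 := sdiff_card ((nbr E u ∩ Sd sd (!sd u)) ∩ (nbr E v ∩ Sd sd (!sd v))) At
    have h4 := hW.cross u
    have h5 := hW.cross v
    unfold dc at h4 h5
    have h6 := side_le hW (!sd u)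
    nlinarith
  · -- apexes on the side of `u`
    have h1 := apkey (B := B) (sd := sd) (At := At) (E := E) (De := De) hRs hB u v
      ((((nbr E u ∩ Sd sd (sd u)) ∩ (nbr E v ∩ Sd sd (!sd v))) \ At) \ nbr De u) (by
        intro w hw h1 h2 h3
        simp only [mem_sdiff, mem_inter, mem_nbr, Sd, mem_filter, mem_univ, true_and] at hw
        obtain ⟨⟨⟨⟨e1, s1⟩, e2, s2⟩, h4⟩, d1⟩ := hw
        have n1 : sd v ≠ sd w := by
          rw [s2]
          cases sd v <;> simp
        have d2 : s(v, w) ∉ De := fun hc => n1 (De_side hW hc)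
        exact ⟨h4, ⟨h, mem_sdiff.2 ⟨e1, fun hc => h1 (mem_nbr.2 hc)⟩,
          mem_sdiff.2 ⟨e2, fun hc => h2 (mem_nbr.2 hc)⟩, h3, Or.inl ⟨fun hc => hs hc.1, hd, d1,
          d2⟩⟩, d1, d2⟩)
    have h2 := inter_card (A := nbr E u ∩ Sd sd (sd u)) (C := nbr E v ∩ Sd sd (!sd v))
      (S := Sd sd (sd u)) inter_subset_right (by
        rw [bne (fun hc => hs hc.symm)]
        exact inter_subset_right)
    have h3 := sdiff_card ((nbr E u ∩ Sd sd (sd u)) ∩ (nbr E v ∩ Sd sd (!sd v))) At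
    have h3' := sdiff_card (((nbr E u ∩ Sd sd (sd u)) ∩ (nbr E v ∩ Sd sd (!sd v))) \ At)
      (nbr De u)
    have h4 := hW.int u
    have h5 := hW.cross v
    unfold dc at h5
    unfold di at h4
    have h6 := side_le hW (sd u)
    have h7 : ((nbr De u).card : ℝ) ≤ nn V / 50 := hW.De_A u
    nlinarith

theorem apD (hW : WX E De H sd At ε θ c) (hRs : Sm κ R) (hB : SmT κ B) (hRE : R ⊆ E \ De)
    {p q : V} (h : s(p, q) ∈ De) :
    (((Sd sd (sd p) \ At).filter (fun r => s(p, r) ∈ H ∧ s(q, r) ∈ H)).card : ℝ) -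
      3 * κ * nn V ≤ ((univ.filter (fun w => AppX De (E \ R) B sd At p q w)).card : ℝ) := by
  refine apkey hRs hB p q _ ?_
  intro w hw h1 h2 h3
  simp only [mem_sdiff, Sd, mem_filter, mem_univ, true_and] at hw
  obtain ⟨⟨s1, h4⟩, e1, e2⟩ := hw
  have e1' := mem_sdiff.1 (hW.H_sub e1)
  have e2' := mem_sdiff.1 (hW.H_sub e2)
  have hpq : s(p, q) ∈ E \ R :=
    mem_sdiff.2 ⟨hW.De_sub h, fun hc => (mem_sdiff.1 (hRE hc)).2 h⟩
  exact ⟨h4, ⟨hpq, mem_sdiff.2 ⟨e1'.1, fun hc => h1 (mem_nbr.2 hc)⟩,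
    mem_sdiff.2 ⟨e2'.1, fun hc => h2 (mem_nbr.2 hc)⟩, h3,
    Or.inr ⟨⟨De_side hW h, s1.symm⟩, Or.inl ⟨h, e1'.2, e2'.2⟩⟩⟩, e1'.2, e2'.2⟩

/-- missing cross pairs at a typical vertex -/
theorem missX (hW : WX E De H sd At ε θ c) (hRs : Sm κ R) (hB : SmT κ B) {x : V}
    (hx : x ∉ At) (a : V) (S : Finset V) (hS : ∀ w ∈ S, sd x ≠ sd w) :
    ((S.filter (fun w => ¬ GdX De (E \ R) B a x w)).card : ℝ) ≤ (ε + 2 * κ) * nn V := by
  have h1 : S.filter (fun w => ¬ GdX De (E \ R) B a x w) ⊆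
      (Sd sd (!sd x)).filter (fun w => s(x, w) ∉ E) ∪
        (nbr R x ∪ univ.filter (fun w => BdB B a x w)) := by
    intro w hw
    obtain ⟨hwS, hng⟩ := mem_filter.1 hw
    have hs := hS w hwS
    by_cases h2 : s(x, w) ∈ E
    · by_cases h3 : s(x, w) ∈ R
      · exact mem_union_right _ (mem_union_left _ (mem_nbr.2 h3))
      · have h4 : BdB B a x w := by
          by_contra hb
          exact hng ⟨⟨mem_sdiff.2 ⟨h2, h3⟩, fun hc => hs (De_side hW hc)⟩, hb⟩
        exact mem_union_right _ (mem_union_right _ (by simp [h4]))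
    · refine mem_union_left _ (mem_filter.2 ⟨?_, h2⟩)
      unfold Sd
      exact mem_filter.2 ⟨mem_univ _, (bne hs).symm⟩
  have h2 := (card_le_card h1).trans ((card_union_le _ _).trans (Nat.add_le_add_left
    (card_union_le _ _) _))
  have h3 : ((S.filter (fun w => ¬ GdX De (E \ R) B a x w)).card : ℝ) ≤
      (((Sd sd (!sd x)).filter (fun w => s(x, w) ∉ E)).card : ℝ) +
      (((nbr R x).card : ℝ) + ((univ.filter (fun w => BdB B a x w)).card : ℝ)) := by
    exact_mod_cast h2
  have h4 := hW.miss x hx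
  have h5 : ((nbr R x).card : ℝ) ≤ κ * nn V := hRs x
  have h6 := card_BdB hB a x
  linarith

end F3.FX
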