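import Pool.Agent.F3.FT.Tw
import Pool.Agent.F3.Worlds

/-!
# Project F3, block FX (fractional decompositions in the worlds G and R): statements

Head: helper53.  Section 3 (FX) of the note P10 PLAN v1 on MP_6a0350_co.  Weights are functions of
ordered triples, `F3.FT.ld` is the load of a pair (block FT, helper21).
-/

set_option autoImplicit false
set_option linter.unusedSectionVars false

namespace F3.FX

open Finset NW F1
open F3.FT (ld)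

section FXDefs

variable {V : Type} [Fintype V] [DecidableEq V]

/-- allowed triangles of `E'` which are not in `B` -/
def Ok (E' De : Finset (Sym2 V)) (sd : V → Bool) (B : Finset (Tri V)) (u v w : V) : Prop :=
  ∃ T : Tri V, T.1 = {u, v, w} ∧ T ∉ B ∧ alX De sd T ∧ NW.edg T.1 ⊆ E'

/-- the hypotheses of `FXStatement` with `E' = E \ R` -/
structure Hyp (E De H R : Finset (Sym2 V)) (sd : V → Bool) (At : Finset V) (B : Finset (Tri V))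
    (ε θ c κ : ℝ) : Prop where
  pos : 0 < nn V
  x : WX E De H sd At ε θ c
  R_sub : R ⊆ E \ De
  R_sm : Sm κ R
  B_sm : SmT κ B

/-- weights for the edges inside `At` -/
structure WtA (E' De : Finset (Sym2 V)) (sd : V → Bool) (B : Finset (Tri V)) (At : Finset V)
    (δ K : ℝ) (f : V → V → V → ℝ) : Prop where
  nn0 : ∀ u v w, 0 ≤ f u v w
  le : ∀ u v w, f u v w ≤ K / nn V
  supp : ∀ u v w, f u v w ≠ 0 → Ok E' De sd B u v w ∧ u ∈ At ∧ v ∈ At ∧ w ∉ At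
  one : ∀ u ∈ At, ∀ v ∈ At, s(u, v) ∈ E' → ld f u v = 1
  small : ∀ u ∈ At, ∀ v, v ∉ At → ld f u v ≤ δ
  zero : ∀ u v, u ∉ At → v ∉ At → ld f u v = 0

/-- weights for the edges between `At` and the typical vertices -/
structure WtB (E' De : Finset (Sym2 V)) (sd : V → Bool) (B : Finset (Tri V)) (At : Finset V)
    (δ K : ℝ) (fa f : V → V → V → ℝ) : Prop where
  nn0 : ∀ u v w, 0 ≤ f u v w
  le : ∀ u v w, f u v w ≤ K / nn V
  supp : ∀ u v w, f u v w ≠ 0 → Ok E' De sd B u v w ∧ u ∈ At ∧ v ∉ At ∧ w ∉ At ∧ s(v, w) ∉ De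
  one : ∀ u ∈ At, ∀ v, v ∉ At → s(u, v) ∈ E' → ld fa u v + ld f u v = 1
  small : ∀ u v, u ∉ At → v ∉ At → ld f u v ≤ δ

/-- weights for the designated edges between typical vertices -/
structure WtC (E' De : Finset (Sym2 V)) (sd : V → Bool) (B : Finset (Tri V)) (At : Finset V)
    (δ K : ℝ) (f : V → V → V → ℝ) : Prop where
  nn0 : ∀ u v w, 0 ≤ f u v w
  le : ∀ u v w, f u v w ≤ K / nn V
  supp : ∀ u v w, f u v w ≠ 0 → Ok E' De sd B u v w ∧ u ∉ At ∧ v ∉ At ∧ w ∉ At ∧ s(u, v) ∈ De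
  one : ∀ u v, u ∉ At → v ∉ At → s(u, v) ∈ De → ld f u v = 1
  small : ∀ u v, u ∉ At → v ∉ At → s(u, v) ∉ De → ld f u v ≤ δ

end FXDefs

/-- row FX-A -/
def StA : Prop :=
  ∀ δ : ℝ, 0 < δ → ∃ ε K κ : ℝ, 0 < ε ∧ 0 < K ∧ 0 < κ ∧
    ∀ (V : Type) [Fintype V] [DecidableEq V] (E De H R : Finset (Sym2 V)) (sd : V → Bool)
      (At : Finset V) (B : Finset (Tri V)) (θ c : ℝ), Hyp E De H R sd At B ε θ c κ →
      ∃ f, WtA (E \ R) De sd B At δ K f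

/-- row FX-B -/
def StB : Prop :=
  ∃ δ₀ K : ℝ, 0 < δ₀ ∧ 0 < K ∧ ∀ δ : ℝ, 0 < δ → ∃ ε κ : ℝ, 0 < ε ∧ 0 < κ ∧
    ∀ (V : Type) [Fintype V] [DecidableEq V] (E De H R : Finset (Sym2 V)) (sd : V → Bool)
      (At : Finset V) (B : Finset (Tri V)) (θ c Ka : ℝ) (fa : V → V → V → ℝ),
      Hyp E De H R sd At B ε θ c κ → WtA (E \ R) De sd B At δ₀ Ka fa →
      ∃ f, WtB (E \ R) De sd B At δ K fa f

/-- row FX-C -/
def StC : Prop :=
  ∀ δ c : ℝ, 0 < δ → 0 < c → ∃ ε K κ : ℝ, 0 < ε ∧ 0 < K ∧ 0 < κ ∧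
    ∀ (V : Type) [Fintype V] [DecidableEq V] (E De H R : Finset (Sym2 V)) (sd : V → Bool)
      (At : Finset V) (B : Finset (Tri V)) (θ : ℝ), Hyp E De H R sd At B ε θ c κ →
      ∃ f, WtC (E \ R) De sd B At δ K f

section
open Classical

/-- row FX-L: the fractional matching in the link of an atypical vertex. `X` designated, `Y`
ordinary internal, `Z` cross neighbours (typical); `Gd` good pairs, `d` demands. -/
def StLink : Prop :=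
  ∃ δ₀ K : ℝ, 0 < δ₀ ∧ 0 < K ∧ ∀ (V : Type) [Fintype V] [DecidableEq V] (n : ℝ)
    (X Y Z : Finset V) (Gd : V → V → Prop) (d : V → ℝ), 0 < n →
    (∀ x y, Gd x y → Gd y x) → Disjoint X Y → Disjoint X Z → Disjoint Y Z →
    ((X.card : ℝ) ≤ (1 / 50 + δ₀) * n) → ((1 / 5 : ℝ) * n ≤ Y.card) →
    ((3 / 8 - δ₀) * n ≤ (Z.card : ℝ)) → ((Z.card : ℝ) ≤ (1 / 2 + δ₀) * n) →
    ((Y.card : ℝ) - X.card + (1 / 200 - δ₀) * n ≤ Z.card) →
    ((3 / 4 - δ₀) * n ≤ (X.card : ℝ) + Y.card + Z.card) →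
    (∀ v, 1 - δ₀ ≤ d v ∧ d v ≤ 1) →
    (∀ x ∈ X, (1 / 12 - δ₀) * n ≤ ((Y.filter (fun y => Gd x y)).card : ℝ)) →
    (∀ y ∈ Y, ((Z.filter (fun z => ¬ Gd y z)).card : ℝ) ≤ δ₀ * n) →
    (∀ z ∈ Z, ((Y.filter (fun y => ¬ Gd y z)).card : ℝ) ≤ δ₀ * n) →
    (∀ z ∈ Z, ((Z.filter (fun z' => Gd z z')).card : ℝ) ≤ (1 / 4 + δ₀) * n) →
    (∀ z ∈ Z, (Z.card : ℝ) - (1 / 4 + δ₀) * n ≤ ((Z.filter (fun z' => Gd z z')).card : ℝ)) →
    ∃ g : V → V → ℝ, (∀ x y, 0 ≤ g x y) ∧ (∀ x y, g x y ≤ K / n) ∧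
      (∀ x y, g x y ≠ 0 → Gd x y ∧ ((x ∈ X ∧ y ∈ Y) ∨ (x ∈ Y ∧ y ∈ Z) ∨ (x ∈ Z ∧ y ∈ Z))) ∧
      ∀ x, x ∈ X ∪ Y ∪ Z → ∑ y, (g x y + g y x) = d x

/-- closed walks of length five at `y` inside `F` -/
noncomputable def cw5 {V : Type} [Fintype V] (F : Finset V) (G : V → V → Prop) (y : V) :
    Finset (V × V × V × V) :=
  (F ×ˢ F ×ˢ F ×ˢ F).filter (fun w => G y w.1 ∧ G w.1 w.2.1 ∧ G w.2.1 w.2.2.1 ∧
    G w.2.2.1 w.2.2.2 ∧ G w.2.2.2 y)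

/-- row FX-K: the kernel of closed walks of length five -/
def StKern : Prop :=
  ∀ (V : Type) [Fintype V] [DecidableEq V] (F : Finset V) (G : V → V → Prop) (θ : ℝ),
    0 < θ → 0 < nn V → (∀ u v, G u v → G v u) →
    (∀ y ∈ F, θ * nn V ^ 4 ≤ ((cw5 F G y).card : ℝ)) →
    ∃ q : V → V → V → ℝ, (∀ c x y, q c x y = q c y x) ∧
      (∀ c x y, q c x y ≠ 0 → c ∈ F ∧ x ∈ F ∧ y ∈ F ∧ G x y) ∧
      (∀ c ∈ F, ∀ x, ∑ y, q c x y = if x = c then 1 else 0) ∧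
      ∀ x y, ∑ c, |q c x y| ≤ 20 / (θ * nn V)

/-- row FX-D: the typical part. `W` typical vertices, `G` ordinary edges, `Bd` forbidden triples,
`D` demands. -/
def StTwo : Prop :=
  ∀ θ : ℝ, 0 < θ → ∃ ε₀ : ℝ, 0 < ε₀ ∧ ∀ (V : Type) [Fintype V] [DecidableEq V] (W : Finset V)
    (sd : V → Bool) (G : V → V → Prop) (Bd : V → V → V → Prop) (D : V → V → ℝ),
    0 < nn V → (∀ u v, G u v → G v u) → (∀ u, ¬ G u u) → (∀ u v w, Bd u v w → Bd v u w) →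
    (∀ u v w, Bd u v w → Bd u w v) →
    (∀ b, |((W.filter (fun v => sd v = b)).card : ℝ) - nn V / 2| ≤ ε₀ * nn V) →
    (∀ u ∈ W, ((W.filter (fun v => sd v ≠ sd u ∧ ¬ G u v)).card : ℝ) ≤ ε₀ * nn V) →
    (∀ u ∈ W, |((W.filter (fun v => sd v = sd u ∧ G u v)).card : ℝ) - nn V / 4| ≤
      ε₀ * nn V) →
    (∀ u v, ((univ.filter (fun w => Bd u v w)).card : ℝ) ≤ ε₀ * nn V) →
    (∀ y ∈ W, sd y = false →
      θ * nn V ^ 4 ≤ ((cw5 (W.filter (fun v => sd v = false)) G y).card : ℝ)) →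
    (∀ u v, D u v = D v u) →
    (∀ u ∈ W, ∀ v ∈ W, G u v → |D u v - 1| ≤ ε₀) →
    (∑ u ∈ W, ∑ v ∈ W, (if G u v then (if sd u = sd v then 2 else -1) * D u v else 0) = 0) →
    ∃ f : V → V → V → ℝ, (∀ u v w, 0 ≤ f u v w) ∧ (∀ u v w, f u v w ≤ 1 / nn V) ∧
      (∀ u v w, f u v w ≠ 0 → u ∈ W ∧ v ∈ W ∧ w ∈ W ∧ ¬ (sd u = sd v ∧ sd u = sd w) ∧
        G u v ∧ G u w ∧ G v w ∧ ¬ Bd u v w) ∧
      ∀ u ∈ W, ∀ v ∈ W, G u v → ld f u v = D u v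

end

end F3.FX
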