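import Pool.Agent.F3.FX.Lx

/-!
# F3, worlds G and R: the weight of the residual demand, sums of loads
-/

set_option autoImplicit false
set_option linter.unusedSectionVars false

namespace F3.FX

open Finset Classical NW F1 F3.FT

variable {V : Type} [Fintype V] [DecidableEq V] {De : Finset (Sym2 V)} {sd : V → Bool}
  {At : Finset V} {B : Finset (Tri V)}

theorem ldX_nG {G : Finset (Sym2 V)} {F : V → V → V → ℝ}
    (hF : ∀ u v w, F u v w ≠ 0 → OkX De G B sd u v w) {u v : V} (h : s(u, v) ∉ G) :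
    ld F u v = 0 := by
  have z : ∀ a b c, ¬ OkX De G B sd a b c → F a b c = 0 := fun a b c h =>
    by_contra fun hc => h (hF a b c hc)
  have h' : s(v, u) ∉ G := by rwa [Sym2.eq_swap]
  exact ld_supp fun w => ⟨z _ _ _ fun hc => h hc.1, z _ _ _ fun hc => h hc.2.1,
    z _ _ _ fun hc => h' hc.1, z _ _ _ fun hc => h' hc.2.1, z _ _ _ fun hc => h hc.2.2.1,
    z _ _ _ fun hc => h' hc.2.2.1⟩

/-- ordinary adjacency -/
def GrX (De G : Finset (Sym2 V)) (u v : V) : Prop := s(u, v) ∈ G ∧ s(u, v) ∉ De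

theorem gam_sum {G : Finset (Sym2 V)} (hG : NW.NL G) {F : V → V → V → ℝ}
    (hF : ∀ u v w, F u v w ≠ 0 → OkX De G B sd u v w)
    (h1 : ∀ u v, s(u, v) ∈ G → (u ∈ At ∨ v ∈ At ∨ s(u, v) ∈ De) → ld F u v = 1)
    (htot : ∑ e ∈ G, gamX De sd e = 0) :
    2 * ∑ x ∈ ((univ \ At) ×ˢ (univ \ At)).filter
        (fun x => sd x.1 = sd x.2 ∧ GrX De G x.1 x.2), (1 - ld F x.1 x.2) =
      ∑ x ∈ ((univ \ At) ×ˢ (univ \ At)).filter
        (fun x => sd x.1 ≠ sd x.2 ∧ GrX De G x.1 x.2), (1 - ld F x.1 x.2) := by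
  have e1 : ∑ u, ∑ v, ((gamX De sd s(u, v) : ℤ) : ℝ) * ld F u v = 0 := by
    refine sum_ld_eq_zero (g := fun u v => ((gamX De sd s(u, v) : ℤ) : ℝ)) ?_ ?_
    · intro u v
      rw [Sym2.eq_swap]
    · intro a b c h
      have h2 := okX_gam (hF a b c h)
      exact_mod_cast h2
  rw [← Fintype.sum_prod_type' (fun u v => ((gamX De sd s(u, v) : ℤ) : ℝ) * ld F u v)] at e1
  have e2 := sum_pairs hG (fun e => ((gamX De sd e : ℤ) : ℝ))
  have e3 : ∑ e ∈ G, ((gamX De sd e : ℤ) : ℝ) = 0 := by exact_mod_cast htot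
  rw [e3, mul_zero] at e2
  rw [sum_filter_pairs (univ \ At) _ (fun x => 1 - ld F x.1 x.2),
    sum_filter_pairs (univ \ At) _ (fun x => 1 - ld F x.1 x.2), Finset.mul_sum, ← sub_eq_zero,
    ← Finset.sum_sub_distrib]
  have e4 : ∑ x : V × V, ((if s(x.1, x.2) ∈ G then ((gamX De sd s(x.1, x.2) : ℤ) : ℝ) else 0) -
      ((gamX De sd s(x.1, x.2) : ℤ) : ℝ) * ld F x.1 x.2) = 0 := by
    rw [Finset.sum_sub_distrib, e1, e2, sub_zero]
  refine Eq.trans (Finset.sum_congr rfl fun x _ => ?_) e4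
  rcases x with ⟨u, v⟩
  simp only [mem_sdiff, mem_univ, true_and]
  by_cases hg : s(u, v) ∈ G
  · by_cases hc : u ∈ At ∨ v ∈ At ∨ s(u, v) ∈ De
    · rw [h1 u v hg hc, if_pos hg]
      simp
    · push Not at hc
      obtain ⟨c1, c2, c3⟩ := hc
      rw [if_pos hg, gamX_mk, if_neg c3]
      by_cases ht : sd u = sd v
      · rw [if_pos (show u ∉ At ∧ v ∉ At ∧ sd u = sd v ∧ GrX De G u v from ⟨c1, c2, ht, hg, c3⟩),
          if_neg (fun hc => hc.2.2.1 ht), if_pos ht]
        push_cast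
        ring
      · rw [if_neg (fun hc => ht hc.2.2.1), if_neg ht,
          if_pos (show u ∉ At ∧ v ∉ At ∧ sd u ≠ sd v ∧ GrX De G u v from ⟨c1, c2, ht, hg, c3⟩)]
        push_cast
        ring
  · rw [ldX_nG hF hg, if_neg hg, if_neg (fun hc => hg hc.2.2.2.1),
      if_neg (fun hc => hg hc.2.2.2.1)]
    ring

/-- the total load of the other pairs at `u` -/
theorem ld_sum {f : V → V → V → ℝ} {P : V → V → Prop} (hP : ∀ u v, P u v → P v u)
    (hs : ∀ a b c, f a b c ≠ 0 → P a b) (hl : ∀ u v, P u v → ld f u v = 1) (u : V)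
    (hu : ∀ a b, f a b u = 0) (hx : ∀ r, P u r → ∀ w, f u w r = 0 ∧ f w u r = 0) :
    ∑ r, (if P u r then 0 else ld f u r) = ((univ.filter (fun r => P u r)).card : ℝ) := by
  have z : ∀ a b c, ¬ P a b → f a b c = 0 := fun a b c h => by_contra fun hc => h (hs a b c hc)
  have h1 : ∀ r, ld f u r = ∑ w, (f u r w + f r u w) + ∑ w, (f u w r + f w u r) := by
    intro r
    rw [ld_eq]
    have : ∑ w, (f r w u + f w r u) = 0 :=
      Finset.sum_eq_zero fun w _ => by rw [hu, hu, add_zero]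
    rw [this, add_zero]
  have h2 : ∀ r, ∑ w, (f u r w + f r u w) = if P u r then 1 else 0 := by
    intro r
    split_ifs with h
    · have h3 := hl u r h
      rw [h1 r] at h3
      have h4 : ∑ w, (f u w r + f w u r) = 0 :=
        Finset.sum_eq_zero fun w _ => by rw [(hx r h w).1, (hx r h w).2, add_zero]
      rw [h4, add_zero] at h3
      exact h3
    · exact Finset.sum_eq_zero fun w _ => by
        rw [z u r w h, z r u w (fun hc => h (hP _ _ hc)), add_zero]
  have h3 : ∀ r, (if P u r then 0 else ld f u r) = ∑ w, (f u w r + f w u r) := by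
    intro r
    split_ifs with h
    · exact (Finset.sum_eq_zero fun w _ => by rw [(hx r h w).1, (hx r h w).2, add_zero]).symm
    · rw [h1 r, h2 r, if_neg h, zero_add]
  calc ∑ r, (if P u r then 0 else ld f u r) = ∑ r, ∑ w, (f u w r + f w u r) :=
        Finset.sum_congr rfl fun r _ => h3 r
    _ = ∑ w, ∑ r, (f u w r + f w u r) := Finset.sum_comm
    _ = ∑ w, (if P u w then (1 : ℝ) else 0) := Finset.sum_congr rfl fun w _ => h2 w
    _ = ((univ.filter (fun r => P u r)).card : ℝ) := by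
        rw [Finset.sum_ite, Finset.sum_const_zero, add_zero, Finset.sum_const, nsmul_eq_mul,
          mul_one]

end F3.FX
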