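import Pool.Agent.F3.FX.Defs

/-!
# Project F3, block FX: the kernel of closed walks of length five
-/

set_option autoImplicit false
set_option linter.unusedSectionVars false

namespace F3.FX

open Finset Classical

section Kern

variable {V : Type} [Fintype V]

/-- the indicator of the unordered pair -/
noncomputable def kI (p q x y : V) : ℝ :=
  (if p = x ∧ q = y then 1 else 0) + (if p = y ∧ q = x then 1 else 0)

theorem kI_nonneg (p q x y : V) : 0 ≤ kI p q x y := by
  unfold kI
  split_ifs <;> norm_num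

theorem kI_symm (p q x y : V) : kI p q x y = kI p q y x := by
  unfold kI
  ring

theorem kI_sum (p q x : V) : ∑ y, kI p q x y = (if p = x then 1 else 0) + (if q = x then 1 else 0) := by
  unfold kI
  rw [sum_add_distrib]
  congr 1
  · by_cases h : p = x
    · simp [h]
    · simp [h]
  · by_cases h : q = x
    · simp [h]
    · simp [h]

theorem kI_ne (p q x y : V) (h : kI p q x y ≠ 0) : (p = x ∧ q = y) ∨ (p = y ∧ q = x) := by
  by_contra hc
  push Not at hc
  apply h
  unfold kI
  rw [if_neg (fun hh => hc.1 hh.1 hh.2), if_neg (fun hh => hc.2 hh.1 hh.2), add_zero]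

/-- the alternating sum along the walk -/
noncomputable def kE (c : V) (w : V × V × V × V) (x y : V) : ℝ :=
  kI c w.1 x y - kI w.1 w.2.1 x y + kI w.2.1 w.2.2.1 x y - kI w.2.2.1 w.2.2.2 x y +
    kI w.2.2.2 c x y

/-- the absolute sum along the walk -/
noncomputable def kA (c : V) (w : V × V × V × V) (x y : V) : ℝ :=
  kI c w.1 x y + kI w.1 w.2.1 x y + kI w.2.1 w.2.2.1 x y + kI w.2.2.1 w.2.2.2 x y +
    kI w.2.2.2 c x y

theorem kE_le (c : V) (w : V × V × V × V) (x y : V) : |kE c w x y| ≤ kA c w x y := by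
  unfold kE kA
  have h1 := kI_nonneg c w.1 x y
  have h2 := kI_nonneg w.1 w.2.1 x y
  have h3 := kI_nonneg w.2.1 w.2.2.1 x y
  have h4 := kI_nonneg w.2.2.1 w.2.2.2 x y
  have h5 := kI_nonneg w.2.2.2 c x y
  rw [abs_le]
  constructor <;> linarith

theorem kA_nonneg (c : V) (w : V × V × V × V) (x y : V) : 0 ≤ kA c w x y :=
  (abs_nonneg _).trans (kE_le c w x y)

theorem kE_sum (c : V) (w : V × V × V × V) (x : V) :
    ∑ y, kE c w x y = 2 * (if x = c then 1 else 0) := by
  unfold kE
  simp only [sum_add_distrib, sum_sub_distrib, kI_sum]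
  have e : (if c = x then (1:ℝ) else 0) = if x = c then 1 else 0 := by
    by_cases h : c = x
    · rw [if_pos h, if_pos h.symm]
    · rw [if_neg h, if_neg (Ne.symm h)]
  rw [e]
  ring

/-- every pair is on few closed walks -/
theorem kA_total (x y : V) : ∑ c, ∑ w : V × V × V × V, kA c w x y ≤ 10 * nn V ^ 3 := by
  have hN : ((Fintype.card V : ℕ) : ℝ) = nn V := rfl
  have hI : ∑ p : V, ∑ q : V, kI p q x y = 2 := by
    have e1 : ∀ p q : V, kI p q x y = (if p = x then (if q = y then 1 else 0) else 0) +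
        (if p = y then (if q = x then 1 else 0) else 0) := by
      intro p q
      unfold kI
      congr 1
      · by_cases h1 : p = x <;> by_cases h2 : q = y <;> simp [h1, h2]
      · by_cases h1 : p = y <;> by_cases h2 : q = x <;> simp [h1, h2]
    simp only [e1, sum_add_distrib]
    simp
    norm_num
  have key : ∀ F : V → V → V → V → V → ℝ, ∑ c, ∑ w : V × V × V × V, F c w.1 w.2.1 w.2.2.1 w.2.2.2 =
      ∑ c, ∑ a, ∑ b, ∑ d, ∑ e, F c a b d e := by
    intro F
    refine sum_congr rfl (fun c _ => ?_)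
    simp only [Fintype.sum_prod_type]
  unfold kA
  rw [key (fun c a b d e => kI c a x y + kI a b x y + kI b d x y + kI d e x y + kI e c x y)]
  simp only [sum_add_distrib]
  have t1 : ∑ c : V, ∑ a : V, ∑ _b : V, ∑ _d : V, ∑ _e : V, kI c a x y = 2 * nn V ^ 3 := by
    simp only [sum_const, card_univ, nsmul_eq_mul, hN, ← mul_sum, hI]
    ring
  have t2 : ∑ _c : V, ∑ a : V, ∑ b : V, ∑ _d : V, ∑ _e : V, kI a b x y = 2 * nn V ^ 3 := by
    simp only [sum_const, card_univ, nsmul_eq_mul, hN, ← mul_sum, hI]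
    ring
  have t3 : ∑ _c : V, ∑ _a : V, ∑ b : V, ∑ d : V, ∑ _e : V, kI b d x y = 2 * nn V ^ 3 := by
    simp only [sum_const, card_univ, nsmul_eq_mul, hN, ← mul_sum, hI]
    ring
  have t4 : ∑ _c : V, ∑ _a : V, ∑ _b : V, ∑ d : V, ∑ e : V, kI d e x y = 2 * nn V ^ 3 := by
    simp only [sum_const, card_univ, nsmul_eq_mul, hN, hI]
    ring
  have t5 : ∑ c : V, ∑ _a : V, ∑ _b : V, ∑ _d : V, ∑ e : V, kI e c x y = 2 * nn V ^ 3 := by
    have e1 : ∀ c : V, ∑ _a : V, ∑ _b : V, ∑ _d : V, ∑ e : V, kI e c x y =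
        nn V ^ 3 * ∑ e : V, kI e c x y := by
      intro c
      simp only [sum_const, card_univ, nsmul_eq_mul, hN]
      ring
    simp only [e1]
    rw [← mul_sum, sum_comm, hI]
    ring
  rw [t1, t2, t3, t4, t5]
  linarith

end Kern

theorem kern : StKern := by
  intro V _ _ F G θ hθ hn hG hw
  set n : ℝ := nn V with hnd
  set q : V → V → V → ℝ := fun c x y =>
    if c ∈ F then (1 / (2 * ((cw5 F G c).card : ℝ))) * ∑ w ∈ cw5 F G c, kE c w x y else 0 with hq
  have hP : ∀ c ∈ F, 0 < ((cw5 F G c).card : ℝ) := fun c hc =>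
    lt_of_lt_of_le (by positivity) (hw c hc)
  refine ⟨q, fun c x y => ?_, fun c x y hne => ?_, fun c hc x => ?_, fun x y => ?_⟩
  · simp only [hq]
    split_ifs
    · congr 1
      refine sum_congr rfl (fun w _ => ?_)
      unfold kE
      rw [kI_symm c w.1, kI_symm w.1 w.2.1, kI_symm w.2.1 w.2.2.1, kI_symm w.2.2.1 w.2.2.2,
        kI_symm w.2.2.2 c]
    · rfl
  · simp only [hq] at hne
    by_cases hc : c ∈ F
    · rw [if_pos hc] at hne
      obtain ⟨w, hwm, hne2⟩ := exists_ne_zero_of_sum_ne_zero (right_ne_zero_of_mul hne)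
      obtain ⟨a, b, d, e⟩ := w
      unfold cw5 at hwm
      simp only [mem_filter, mem_product] at hwm
      obtain ⟨⟨ha, hb, hd, he⟩, g1, g2, g3, g4, g5⟩ := hwm
      have main : ∀ p r : V, p ∈ F → r ∈ F → G p r → kI p r x y ≠ 0 →
          c ∈ F ∧ x ∈ F ∧ y ∈ F ∧ G x y := by
        intro p r hp hr hg h
        rcases kI_ne p r x y h with ⟨h1, h2⟩ | ⟨h1, h2⟩
        · rw [← h1, ← h2]
          exact ⟨hc, hp, hr, hg⟩
        · rw [← h1, ← h2]
          exact ⟨hc, hr, hp, hG _ _ hg⟩
      by_contra hcon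
      apply hne2
      unfold kE
      have z1 : kI c a x y = 0 := by
        by_contra h
        exact hcon (main c a hc ha g1 h)
      have z2 : kI a b x y = 0 := by
        by_contra h
        exact hcon (main a b ha hb g2 h)
      have z3 : kI b d x y = 0 := by
        by_contra h
        exact hcon (main b d hb hd g3 h)
      have z4 : kI d e x y = 0 := by
        by_contra h
        exact hcon (main d e hd he g4 h)
      have z5 : kI e c x y = 0 := by
        by_contra h
        exact hcon (main e c he hc g5 h)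
      simp only [z1, z2, z3, z4, z5]
      ring
    · rw [if_neg hc] at hne
      exact absurd rfl hne
  · simp only [hq, if_pos hc]
    rw [← mul_sum, sum_comm]
    simp only [kE_sum, sum_const, nsmul_eq_mul]
    have := hP c hc
    field_simp
    split_ifs <;> rfl
  · have b1 : ∀ c, |q c x y| ≤ 1 / (2 * (θ * n ^ 4)) * ∑ w : V × V × V × V, kA c w x y := by
      intro c
      have h0 : 0 ≤ ∑ w : V × V × V × V, kA c w x y := sum_nonneg (fun w _ => kA_nonneg c w x y)
      simp only [hq]
      by_cases hc : c ∈ F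
      · rw [if_pos hc, abs_mul, abs_of_pos (by have := hP c hc; positivity)]
        have h1 : |∑ w ∈ cw5 F G c, kE c w x y| ≤ ∑ w : V × V × V × V, kA c w x y := by
          calc |∑ w ∈ cw5 F G c, kE c w x y| ≤ ∑ w ∈ cw5 F G c, |kE c w x y| :=
                abs_sum_le_sum_abs _ _
            _ ≤ ∑ w ∈ cw5 F G c, kA c w x y := sum_le_sum (fun w _ => kE_le c w x y)
            _ ≤ ∑ w : V × V × V × V, kA c w x y :=
                sum_le_sum_of_subset_of_nonneg (subset_univ _) (fun w _ _ => kA_nonneg c w x y)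
        have h2 : 1 / (2 * ((cw5 F G c).card : ℝ)) ≤ 1 / (2 * (θ * n ^ 4)) := by
          refine one_div_le_one_div_of_le (by positivity) ?_
          have := hw c hc
          linarith
        exact mul_le_mul h2 h1 (abs_nonneg _) (by positivity)
      · rw [if_neg hc, abs_zero]
        positivity
    calc ∑ c, |q c x y| ≤ ∑ c, 1 / (2 * (θ * n ^ 4)) * ∑ w : V × V × V × V, kA c w x y :=
          sum_le_sum (fun c _ => b1 c)
      _ = 1 / (2 * (θ * n ^ 4)) * ∑ c, ∑ w : V × V × V × V, kA c w x y := by rw [mul_sum]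
      _ ≤ 1 / (2 * (θ * n ^ 4)) * (10 * n ^ 3) :=
          mul_le_mul_of_nonneg_left (kA_total x y) (by positivity)
      _ = 5 / (θ * n) := by
          field_simp
          ring
      _ ≤ 20 / (θ * n) := by
          rw [div_le_div_iff_of_pos_right (by positivity)]
          norm_num

end F3.FX
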