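import Pool.Agent.F3.FT.Trans

/-!
# F3, worlds G and R: the link of an atypical vertex
-/

set_option autoImplicit false
set_option linter.unusedSectionVars false

namespace F3.FX

open Finset Classical F3.FT

/-- the statement of `linkX` for given constants -/
def LinkXSt (δ₀ K : ℝ) : Prop := ∀ (V : Type) [Fintype V] [DecidableEq V] (n : ℝ)
    (X Y : Finset V) (Gd : V → V → Prop) (d : V → ℝ), 0 < n →
    (∀ x y, Gd x y → Gd y x) → (∀ v, v ∈ X → v ∉ Y) →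
    n / 5 ≤ (X.card : ℝ) → 37 / 100 * n ≤ (Y.card : ℝ) → (Y.card : ℝ) ≤ (1 / 2 + δ₀) * n →
    (∀ x ∈ X, 7 / 10 ≤ d x ∧ d x ≤ 1) → (∀ y ∈ Y, 1 - δ₀ ≤ d y ∧ d y ≤ 1) →
    ∑ x ∈ X, d x + n / 400 ≤ ∑ y ∈ Y, d y →
    ∑ y ∈ Y, d y - ∑ x ∈ X, d x ≤ 2 * (Y.card : ℝ) - (71 / 100 - δ₀) * n →
    (∀ x ∈ X, ((Y.filter (fun y => ¬ Gd x y)).card : ℝ) ≤ δ₀ * n) →
    (∀ y ∈ Y, ((X.filter (fun x => ¬ Gd y x)).card : ℝ) ≤ δ₀ * n) →
    (∀ y ∈ Y, (Y.card : ℝ) - (1 / 4 + δ₀) * n ≤ ((Y.filter (fun y' => Gd y y')).card : ℝ) ∧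
      ((Y.filter (fun y' => Gd y y')).card : ℝ) ≤ (1 / 4 + δ₀) * n) →
    ∃ g : V → V → ℝ, (∀ x y, 0 ≤ g x y) ∧ (∀ x y, g x y ≤ K / n) ∧
      (∀ x y, g x y ≠ 0 → Gd x y ∧ ((x ∈ X ∧ y ∈ Y) ∨ (x ∈ Y ∧ y ∈ Y))) ∧
      ∀ x, x ∈ X ∨ x ∈ Y → ∑ y, (g x y + g y x) = d x

/-- the numerical inequality for the load -/
theorem linkX_num {b n D : ℝ} (hn : 0 < n)
    (hD : D ≤ 2 * b - (71 / 100 - 1 / 15000) * n) :
    D * ((1 / 4 + 1 / 15000) * n) ≤ 3 / 4 * (b * (b - (1 / 4 + 1 / 15000) * n)) := by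
  have h1 : D * ((1 / 4 + 1 / 15000) * n) ≤
      (2 * b - (71 / 100 - 1 / 15000) * n) * ((1 / 4 + 1 / 15000) * n) :=
    mul_le_mul_of_nonneg_right hD (by positivity)
  refine h1.trans ?_
  nlinarith [sq_nonneg (b - 11 / 6 * (1 / 4 + 1 / 15000) * n), mul_pos hn hn]

/-- the transport inside `Y` -/
theorem linkX_in {V : Type} [Fintype V] [DecidableEq V] (Y : Finset V) (Gd : V → V → Prop)
    (hsym : ∀ x y, Gd x y → Gd y x) {n D : ℝ} (hn : 0 < n) (hD0 : 0 ≤ D)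
    (hY : 37 / 100 * n ≤ (Y.card : ℝ)) (hY2 : (Y.card : ℝ) ≤ (1 / 2 + 1 / 15000) * n)
    (hD : D ≤ 2 * (Y.card : ℝ) - (71 / 100 - 1 / 15000) * n)
    (hdeg : ∀ y ∈ Y, (Y.card : ℝ) - (1 / 4 + 1 / 15000) * n ≤
      ((Y.filter (fun y' => Gd y y')).card : ℝ) ∧
      ((Y.filter (fun y' => Gd y y')).card : ℝ) ≤ (1 / 4 + 1 / 15000) * n) :
    ∃ g : V → V → ℝ, ∃ l : V → ℝ, (∀ x y, 0 ≤ g x y) ∧ (∀ x y, g x y ≤ 10 / n) ∧
      (∀ x y, g x y ≠ 0 → Gd x y ∧ x ∈ Y ∧ y ∈ Y) ∧ (∀ x, ∑ y, (g x y + g y x) = l x) ∧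
      (∀ y ∈ Y, 0 ≤ l y ∧ l y ≤ 3 / 4) ∧ ∑ y ∈ Y, l y = D := by
  obtain ⟨e, hedef⟩ : ∃ e : ℝ, e = ∑ y ∈ Y, ((Y.filter (fun y' => Gd y y')).card : ℝ) :=
    ⟨_, rfl⟩
  have hb0 : (0 : ℝ) ≤ Y.card := Nat.cast_nonneg _
  have he : (Y.card : ℝ) * ((Y.card : ℝ) - (1 / 4 + 1 / 15000) * n) ≤ e := by
    have h := Finset.card_nsmul_le_sum Y (fun y => ((Y.filter (fun y' => Gd y y')).card : ℝ))
      ((Y.card : ℝ) - (1 / 4 + 1 / 15000) * n) (fun y hy => (hdeg y hy).1)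
    rwa [nsmul_eq_mul, ← hedef] at h
  have he1 : 1 / 25 * n ^ 2 ≤ e := by
    refine le_trans ?_ he
    have h1 : 11 / 100 * n ≤ (Y.card : ℝ) - (1 / 4 + 1 / 15000) * n := by linarith
    have h2 : (37 / 100 * n) * (11 / 100 * n) ≤
        (Y.card : ℝ) * ((Y.card : ℝ) - (1 / 4 + 1 / 15000) * n) :=
      mul_le_mul hY h1 (by positivity) hb0
    nlinarith [mul_pos hn hn]
  have he0 : 0 < e := lt_of_lt_of_le (by positivity) he1
  obtain ⟨g, hg⟩ : ∃ g : V → V → ℝ, ∀ x y, g x y = if x ∈ Y ∧ y ∈ Y ∧ Gd x y then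
    D / e / 2 else 0 := ⟨fun x y => if x ∈ Y ∧ y ∈ Y ∧ Gd x y then D / e / 2 else 0,
      fun _ _ => rfl⟩
  have hgs : ∀ x y, g y x = g x y := by
    intro x y
    rw [hg, hg]
    refine if_congr ⟨?_, ?_⟩ rfl rfl
    · rintro ⟨h1, h2, h3⟩
      exact ⟨h2, h1, hsym _ _ h3⟩
    · rintro ⟨h1, h2, h3⟩
      exact ⟨h2, h1, hsym _ _ h3⟩
  obtain ⟨l, hl, hl0⟩ : ∃ l : V → ℝ, (∀ x ∈ Y, l x = D / e *
      ((Y.filter (fun y' => Gd x y')).card : ℝ)) ∧ ∀ x, x ∉ Y → l x = 0 :=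
    ⟨fun x => if x ∈ Y then D / e * ((Y.filter (fun y' => Gd x y')).card : ℝ) else 0,
      fun x hx => if_pos hx, fun x hx => if_neg hx⟩
  refine ⟨g, l, ?_, ?_, ?_, ?_, ?_, ?_⟩
  · intro x y
    rw [hg]
    by_cases hc : x ∈ Y ∧ y ∈ Y ∧ Gd x y
    · rw [if_pos hc]
      exact div_nonneg (div_nonneg hD0 he0.le) (by norm_num)
    · rw [if_neg hc]
  · intro x y
    rw [hg]
    by_cases hc : x ∈ Y ∧ y ∈ Y ∧ Gd x y
    · rw [if_pos hc, div_div, div_le_div_iff₀ (by positivity) hn]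
      have h1 : D ≤ 3 / 10 * n := by linarith
      have h2 : D * n ≤ (3 / 10 * n) * n := mul_le_mul_of_nonneg_right h1 hn.le
      nlinarith [mul_pos hn hn]
    · rw [if_neg hc]
      positivity
  · intro x y h
    rw [hg] at h
    by_contra h2
    exact h (if_neg (fun h3 => h2 ⟨h3.2.2, h3.1, h3.2.1⟩))
  · intro x
    have h1 : ∀ y, g x y + g y x = if x ∈ Y then (if y ∈ Y.filter (fun y' => Gd x y') then
        D / e else 0) else 0 := by
      intro y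
      rw [hgs x y, hg]
      by_cases hx : x ∈ Y
      · rw [if_pos hx]
        by_cases h2 : y ∈ Y ∧ Gd x y
        · rw [if_pos ⟨hx, h2⟩, if_pos (Finset.mem_filter.2 h2)]
          ring
        · rw [if_neg (fun h3 => h2 h3.2), if_neg (fun h3 => h2 (Finset.mem_filter.1 h3)),
            add_zero]
      · rw [if_neg hx, if_neg (fun h3 => hx h3.1), add_zero]
    rw [Finset.sum_congr rfl fun y _ => h1 y]
    by_cases hx : x ∈ Y
    · rw [hl x hx]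
      simp only [if_pos hx]
      rw [Finset.sum_ite_mem, Finset.univ_inter, Finset.sum_const, nsmul_eq_mul, mul_comm]
    · rw [hl0 x hx]
      simp only [if_neg hx]
      exact Finset.sum_const_zero
  · intro y hy
    rw [hl y hy]
    refine ⟨mul_nonneg (div_nonneg hD0 he0.le) (Nat.cast_nonneg _), ?_⟩
    rw [div_mul_eq_mul_div, div_le_iff₀ he0]
    have h1 := linkX_num hn hD
    have h2 : D * ((Y.filter (fun y' => Gd y y')).card : ℝ) ≤ D * ((1 / 4 + 1 / 15000) * n) :=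
      mul_le_mul_of_nonneg_left (hdeg y hy).2 hD0
    have h3 : 3 / 4 * ((Y.card : ℝ) * ((Y.card : ℝ) - (1 / 4 + 1 / 15000) * n)) ≤ 3 / 4 * e :=
      mul_le_mul_of_nonneg_left he (by norm_num)
    linarith
  · rw [Finset.sum_congr rfl fun y hy => hl y hy, ← Finset.mul_sum, ← hedef,
      div_mul_cancel₀ _ he0.ne']

theorem linkX : ∃ δ₀ K : ℝ, 0 < δ₀ ∧ 0 < K ∧ LinkXSt δ₀ K := by
  refine ⟨1 / 15000, 100, by norm_num, by norm_num, ?_⟩
  intro V _ _ n X Y Gd d hn hsym hXY hX hY hY2 hdX hdY hlo hhi hgX hgY hdeg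
  obtain ⟨D, hD⟩ : ∃ D : ℝ, D = ∑ y ∈ Y, d y - ∑ x ∈ X, d x := ⟨_, rfl⟩
  have hD0 : 0 ≤ D := by
    rw [hD]
    have : 0 < n / 400 := by positivity
    linarith
  obtain ⟨g, l, g0, g1, g2, g3, l1, l2⟩ := linkX_in Y Gd hsym hn hD0 hY hY2
    (by rw [hD]; exact hhi) hdeg
  have hl0 : ∀ x, x ∉ Y → l x = 0 := by
    intro x hx
    rw [← g3 x]
    refine Finset.sum_eq_zero fun y _ => ?_
    have h1 : g x y = 0 := by
      by_contra h
      exact hx (g2 x y h).2.1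
    have h2 : g y x = 0 := by
      by_contra h
      exact hx (g2 y x h).2.2
    rw [h1, h2, add_zero]
  have hSX : 1 / 10 * n ≤ ∑ x ∈ X, d x := by
    have h := Finset.card_nsmul_le_sum X d (7 / 10) (fun x hx => (hdX x hx).1)
    rw [nsmul_eq_mul] at h
    linarith
  have hgY' : ∀ y ∈ Y, ((X.filter (fun x => ¬ Gd x y)).card : ℝ) ≤ 1 / 15000 * n := by
    intro y hy
    refine le_trans ?_ (hgY y hy)
    rw [Nat.cast_le]
    apply Finset.card_le_card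
    intro x hx
    rw [Finset.mem_filter] at hx ⊢
    exact ⟨hx.1, fun h => hx.2 (hsym _ _ h)⟩
  obtain ⟨w, w0, w1, w2, w3, w4⟩ := transport X Y d (fun y => d y - l y) (fun x y => ¬ Gd x y)
    (n := n) (c₁ := 1 / 5) (s₀ := 1 / 10) (δ := 1 / 15000) hn (by norm_num) (by norm_num)
    (by norm_num) (fun x hx => ⟨by linarith [(hdX x hx).1], (hdX x hx).2⟩)
    (fun y hy => ⟨by linarith [(hdY y hy).1, (l1 y hy).2], by
      linarith [(hdY y hy).2, (l1 y hy).1]⟩)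
    (by rw [Finset.sum_sub_distrib, l2, hD]; ring) hSX
    (fun x hx => by convert hgX x hx) (fun y hy => by convert hgY' y hy) (by norm_num)
  have wX : ∀ x, x ∉ X → ∑ y, w x y = 0 := by
    intro x hx
    refine Finset.sum_eq_zero fun y _ => ?_
    by_contra h
    exact hx (w2 x y h).1
  have wY : ∀ x, x ∉ Y → ∑ y, w y x = 0 := by
    intro x hx
    refine Finset.sum_eq_zero fun y _ => ?_
    by_contra h
    exact hx (w2 y x h).2.1
  refine ⟨fun x y => g x y + w x y, fun x y => add_nonneg (g0 x y) (w0 x y), ?_, ?_, ?_⟩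
  · intro x y
    have h1 := g1 x y
    have h2 := w1 x y
    have h3 : 2 / (1 / 10 * n) = 20 / n := by
      field_simp
      norm_num
    rw [h3] at h2
    have h4 : 100 / n = 10 / n + 20 / n + 70 / n := by
      rw [← add_div, ← add_div]
      norm_num
    have h5 : 0 ≤ 70 / n := by positivity
    show g x y + w x y ≤ 100 / n
    linarith
  · intro x y h
    change g x y + w x y ≠ 0 at h
    by_cases h1 : g x y = 0
    · rw [h1, zero_add] at h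
      obtain ⟨a, b, c⟩ := w2 x y h
      exact ⟨not_not.1 c, Or.inl ⟨a, b⟩⟩
    · obtain ⟨a, b, c⟩ := g2 x y h1
      exact ⟨a, Or.inr ⟨b, c⟩⟩
  · intro x hx
    have h1 : ∑ y, (g x y + w x y + (g y x + w y x)) =
        ∑ y, (g x y + g y x) + ∑ y, w x y + ∑ y, w y x := by
      rw [← Finset.sum_add_distrib, ← Finset.sum_add_distrib]
      exact Finset.sum_congr rfl fun y _ => by ring
    show ∑ y, (g x y + w x y + (g y x + w y x)) = d x
    rw [h1, g3]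
    rcases hx with hx | hx
    · rw [hl0 x (hXY x hx), w3 x hx, wY x (hXY x hx)]
      ring
    · rw [wX x (fun h => hXY x h hx), w4 x hx]
      ring

end F3.FX
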