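import Pool.Agent.F3.FX.Cx

/-!
# F3, worlds G and R: the link at an atypical vertex
-/

set_option autoImplicit false
set_option linter.unusedSectionVars false

namespace F3.FX

open Finset Classical NW F1 F3.FT

variable {V : Type} [Fintype V] [DecidableEq V] {E De H R : Finset (Sym2 V)} {sd : V → Bool}
  {At : Finset V} {B : Finset (Tri V)} {ε θ κ c : ℝ}

/-- ordinary internal typical neighbours -/
noncomputable def XX (De G : Finset (Sym2 V)) (sd : V → Bool) (At : Finset V) (a : V) : Finset V :=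
  univ.filter (fun x => x ∉ At ∧ (s(a, x) ∈ G ∧ s(a, x) ∉ De) ∧ sd a = sd x)

/-- cross typical neighbours -/
noncomputable def YY (De G : Finset (Sym2 V)) (sd : V → Bool) (At : Finset V) (a : V) : Finset V :=
  univ.filter (fun x => x ∉ At ∧ (s(a, x) ∈ G ∧ s(a, x) ∉ De) ∧ sd a ≠ sd x)

theorem mem_XX {G : Finset (Sym2 V)} {a x : V} : x ∈ XX De G sd At a ↔
    x ∉ At ∧ (s(a, x) ∈ G ∧ s(a, x) ∉ De) ∧ sd a = sd x := by
  unfold XX
  simp

theorem mem_YY {G : Finset (Sym2 V)} {a x : V} : x ∈ YY De G sd At a ↔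
    x ∉ At ∧ (s(a, x) ∈ G ∧ s(a, x) ∉ De) ∧ sd a ≠ sd x := by
  unfold YY
  simp

theorem XX_le (hW : WX E De H sd At ε θ c) (a : V) :
    ((XX De (E \ R) sd At a).card : ℝ) + NW.deg De a ≤ di sd E a := by
  have h1 : Disjoint (XX De (E \ R) sd At a) (nbr De a) := by
    rw [Finset.disjoint_left]
    intro x hx hc
    exact (mem_XX.1 hx).2.1.2 (mem_nbr.1 hc)
  have h2 : XX De (E \ R) sd At a ∪ nbr De a ⊆ nbr E a ∩ Sd sd (sd a) := by
    intro x hx
    rcases mem_union.1 hx with h | h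
    · obtain ⟨-, h3, h4⟩ := mem_XX.1 h
      exact mem_inter.2 ⟨mem_nbr.2 (mem_sdiff.1 h3.1).1, mem_filter.2 ⟨mem_univ _, h4.symm⟩⟩
    · have h3 := mem_nbr.1 h
      exact mem_inter.2 ⟨mem_nbr.2 (hW.De_sub h3), mem_filter.2 ⟨mem_univ _, (De_side hW h3).symm⟩⟩
  have h3 := card_le_card h2
  rw [card_union_of_disjoint h1] at h3
  unfold di NW.deg
  exact_mod_cast h3

theorem XX_ge (hW : WX E De H sd At ε θ c) (hRs : Sm κ R) (a : V) :
    (di sd E a : ℝ) - NW.deg De a - (ε + κ) * nn V ≤ ((XX De (E \ R) sd At a).card : ℝ) := by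
  have h1 : nbr E a ∩ Sd sd (sd a) ⊆ XX De (E \ R) sd At a ∪ (nbr De a ∪ (At ∪ nbr R a)) := by
    intro w hw
    obtain ⟨h1, h2⟩ := mem_inter.1 hw
    have h2' : sd w = sd a := (mem_filter.1 h2).2
    by_cases h3 : w ∈ nbr De a
    · exact mem_union_right _ (mem_union_left _ h3)
    by_cases h4 : w ∈ At
    · exact mem_union_right _ (mem_union_right _ (mem_union_left _ h4))
    by_cases h5 : w ∈ nbr R a
    · exact mem_union_right _ (mem_union_right _ (mem_union_right _ h5))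
    exact mem_union_left _ (mem_XX.2 ⟨h4, ⟨mem_sdiff.2 ⟨mem_nbr.1 h1, fun hc => h5 (mem_nbr.2 hc)⟩,
      fun hc => h3 (mem_nbr.2 hc)⟩, h2'.symm⟩)
  have h2 := (card_le_card h1).trans ((card_union_le _ _).trans (Nat.add_le_add_left
    ((card_union_le _ _).trans (Nat.add_le_add_left (card_union_le _ _) _)) _))
  have h3 : (di sd E a : ℝ) ≤ ((XX De (E \ R) sd At a).card : ℝ) +
      ((NW.deg De a : ℝ) + ((At.card : ℝ) + ((nbr R a).card : ℝ))) := by
    unfold di NW.deg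
    exact_mod_cast h2
  have h4 := hW.At_card
  have h5 : ((nbr R a).card : ℝ) ≤ κ * nn V := hRs a
  linarith

theorem YY_le (hW : WX E De H sd At ε θ c) (a : V) :
    ((YY De (E \ R) sd At a).card : ℝ) ≤ dc sd E a := by
  have h2 : YY De (E \ R) sd At a ⊆ nbr E a ∩ Sd sd (!sd a) := by
    intro x hx
    obtain ⟨-, h3, h4⟩ := mem_YY.1 hx
    exact mem_inter.2 ⟨mem_nbr.2 (mem_sdiff.1 h3.1).1, mem_filter.2 ⟨mem_univ _, (bne h4).symm⟩⟩
  unfold dc
  exact_mod_cast card_le_card h2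

theorem YY_ge (hW : WX E De H sd At ε θ c) (hRs : Sm κ R) (a : V) :
    (dc sd E a : ℝ) - (ε + κ) * nn V ≤ ((YY De (E \ R) sd At a).card : ℝ) := by
  have h1 : nbr E a ∩ Sd sd (!sd a) ⊆ YY De (E \ R) sd At a ∪ (At ∪ nbr R a) := by
    intro w hw
    obtain ⟨h1, h2⟩ := mem_inter.1 hw
    have h2' : sd w = !sd a := (mem_filter.1 h2).2
    have h2'' : sd a ≠ sd w := by
      rw [h2']
      cases sd a <;> simp
    by_cases h4 : w ∈ At
    · exact mem_union_right _ (mem_union_left _ h4)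
    by_cases h5 : w ∈ nbr R a
    · exact mem_union_right _ (mem_union_right _ h5)
    exact mem_union_left _ (mem_YY.2 ⟨h4, ⟨mem_sdiff.2 ⟨mem_nbr.1 h1, fun hc => h5 (mem_nbr.2 hc)⟩,
      fun hc => h2'' (De_side hW hc)⟩, h2''⟩)
  have h2 := (card_le_card h1).trans ((card_union_le _ _).trans (Nat.add_le_add_left
    (card_union_le _ _) _))
  have h3 : (dc sd E a : ℝ) ≤ ((YY De (E \ R) sd At a).card : ℝ) +
      ((At.card : ℝ) + ((nbr R a).card : ℝ)) := by
    unfold dc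
    exact_mod_cast h2
  have h4 := hW.At_card
  have h5 : ((nbr R a).card : ℝ) ≤ κ * nn V := hRs a
  linarith

theorem deg_split (a : V) : NW.deg E a = di sd E a + dc sd E a := by
  unfold NW.deg di dc
  have h1 : nbr E a = (nbr E a ∩ Sd sd (sd a)) ∪ (nbr E a ∩ Sd sd (!sd a)) := by
    ext x
    simp only [mem_union, mem_inter, Sd, mem_filter, mem_univ, true_and]
    constructor
    · intro h
      by_cases h2 : sd x = sd a
      · exact Or.inl ⟨h, h2⟩
      · exact Or.inr ⟨h, (bne (fun hc => h2 hc.symm)).symm⟩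
    · rintro (h | h)
      · exact h.1
      · exact h.1
  have h2 : Disjoint (nbr E a ∩ Sd sd (sd a)) (nbr E a ∩ Sd sd (!sd a)) := by
    rw [Finset.disjoint_left]
    intro x hx hc
    simp only [mem_inter, Sd, mem_filter, mem_univ, true_and] at hx hc
    rw [hx.2] at hc
    cases sd a <;> simp at hc
  conv_lhs => rw [h1]
  exact card_union_of_disjoint h2

/-- degrees inside `YY` -/
theorem YY_deg (hW : WX E De H sd At ε θ c) (hRs : Sm κ R) (hB : SmT κ B) {a y : V}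
    (hy : y ∈ YY De (E \ R) sd At a) :
    ((YY De (E \ R) sd At a).card : ℝ) - (1 / 4 + (3 * ε + 2 * κ)) * nn V ≤
      (((YY De (E \ R) sd At a).filter (fun y' => GdX De (E \ R) B a y y')).card : ℝ) ∧
    (((YY De (E \ R) sd At a).filter (fun y' => GdX De (E \ R) B a y y')).card : ℝ) ≤
      (1 / 4 + ε) * nn V := by
  obtain ⟨y1, -, y3⟩ := mem_YY.1 hy
  have hint := abs_le.1 (hW.intT y y1)
  constructor
  · have h1 : nbr E y ∩ Sd sd (sd y) ⊆
        (YY De (E \ R) sd At a).filter (fun y' => GdX De (E \ R) B a y y') ∪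
        ((Sd sd (sd y) \ YY De (E \ R) sd At a) ∪ (nbr De y ∪ (nbr R y ∪
          univ.filter (fun w => BdB B a y w)))) := by
      intro w hw
      obtain ⟨h1, h2⟩ := mem_inter.1 hw
      by_cases h3 : w ∈ YY De (E \ R) sd At a
      · by_cases h4 : w ∈ nbr De y
        · exact mem_union_right _ (mem_union_right _ (mem_union_left _ h4))
        by_cases h5 : w ∈ nbr R y
        · exact mem_union_right _ (mem_union_right _ (mem_union_right _ (mem_union_left _ h5)))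
        by_cases h6 : BdB B a y w
        · exact mem_union_right _ (mem_union_right _ (mem_union_right _ (mem_union_right _
            (by simp [h6]))))
        exact mem_union_left _ (mem_filter.2 ⟨h3, ⟨mem_sdiff.2 ⟨mem_nbr.1 h1,
          fun hc => h5 (mem_nbr.2 hc)⟩, fun hc => h4 (mem_nbr.2 hc)⟩, h6⟩)
      · exact mem_union_right _ (mem_union_left _ (mem_sdiff.2 ⟨h2, h3⟩))
    have h2 := (card_le_card h1).trans ((card_union_le _ _).trans (Nat.add_le_add_left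
      ((card_union_le _ _).trans (Nat.add_le_add_left ((card_union_le _ _).trans
        (Nat.add_le_add_left (card_union_le _ _) _)) _)) _))
    have hsub : YY De (E \ R) sd At a ⊆ Sd sd (sd y) := by
      intro w hw
      obtain ⟨-, -, w3⟩ := mem_YY.1 hw
      refine mem_filter.2 ⟨mem_univ _, ?_⟩
      rw [← bne y3, ← bne w3]
    have h3 : ((Sd sd (sd y) \ YY De (E \ R) sd At a).card : ℝ) =
        ((Sd sd (sd y)).card : ℝ) - ((YY De (E \ R) sd At a).card : ℝ) := by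
      rw [card_sdiff_of_subset hsub, Nat.cast_sub (card_le_card hsub)]
    have h4 : (di sd E y : ℝ) ≤
        (((YY De (E \ R) sd At a).filter (fun y' => GdX De (E \ R) B a y y')).card : ℝ) +
        (((Sd sd (sd y) \ YY De (E \ R) sd At a).card : ℝ) + ((NW.deg De y : ℝ) +
          (((nbr R y).card : ℝ) + ((univ.filter (fun w => BdB B a y w)).card : ℝ)))) := by
      unfold di NW.deg
      exact_mod_cast h2
    have h5 := hW.De_T y y1
    have h6 : ((nbr R y).card : ℝ) ≤ κ * nn V := hRs y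
    have h7 := card_BdB hB a y
    have h8 := side_le hW (sd y)
    linarith
  · have h1 : (YY De (E \ R) sd At a).filter (fun y' => GdX De (E \ R) B a y y') ⊆
        nbr E y ∩ Sd sd (sd y) := by
      intro w hw
      obtain ⟨h1, h2⟩ := mem_filter.1 hw
      obtain ⟨-, -, w3⟩ := mem_YY.1 h1
      refine mem_inter.2 ⟨mem_nbr.2 (mem_sdiff.1 h2.1.1).1, mem_filter.2 ⟨mem_univ _, ?_⟩⟩
      rw [← bne y3, ← bne w3]
    have h2 : (((YY De (E \ R) sd At a).filter (fun y' => GdX De (E \ R) B a y y')).card : ℝ) ≤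
        di sd E y := by
      unfold di
      exact_mod_cast card_le_card h1
    linarith

theorem link_atX {δ₀ K δ : ℝ} (hL : LinkXSt δ₀ K) (hW : WX E De H sd At ε θ c)
    (hRs : Sm κ R) (hB : SmT κ B) (hn : 0 < nn V)
    (hε0 : 0 ≤ ε) (hκ0 : 0 ≤ κ) (hδ0 : 0 ≤ δ)
    (hε : ε ≤ 1 / 2000) (hκ : κ ≤ 1 / 2000) (hδ1 : δ ≤ 1 / 2000)
    (hδ : 3 * ε + 2 * κ + δ ≤ δ₀) (a : V) (d : V → ℝ)
    (hdX : ∀ x ∈ XX De (E \ R) sd At a, 7 / 10 ≤ d x ∧ d x ≤ 1)
    (hdY : ∀ y ∈ YY De (E \ R) sd At a, 1 - δ ≤ d y ∧ d y ≤ 1)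
    (hs1 : ∑ x ∈ XX De (E \ R) sd At a, d x ≤
      ((XX De (E \ R) sd At a).card : ℝ) - NW.deg De a)
    (hs2 : ((XX De (E \ R) sd At a).card : ℝ) - NW.deg De a - δ * nn V ≤
      ∑ x ∈ XX De (E \ R) sd At a, d x) :
    ∃ g : V → V → ℝ, (∀ x y, 0 ≤ g x y) ∧ (∀ x y, g x y ≤ K / nn V) ∧
      (∀ x y, g x y ≠ 0 → x ∉ At ∧ y ∉ At ∧ s(a, x) ∉ De ∧ s(a, y) ∉ De ∧ s(x, y) ∉ De ∧
        OkX De (E \ R) B sd a x y) ∧
      ∀ x, x ∉ At → s(a, x) ∈ E \ R → s(a, x) ∉ De → ∑ y, (g x y + g y x) = d x := by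
  have x1 := XX_le (R := R) hW a
  have x2 := XX_ge hW hRs a
  have y1 := YY_le (R := R) hW a
  have y2 := YY_ge hW hRs a
  have hde : (NW.deg De a : ℝ) ≤ nn V / 50 := hW.De_A a
  have hint := hW.int a
  have hcr := hW.cross a
  have hsl := hW.slack a
  have h34 : 3 / 4 * nn V ≤ (di sd E a : ℝ) + dc sd E a := by
    have h1 := hW.deg3 a
    rw [deg_split (E := E) (sd := sd) a] at h1
    have h2 : (3 * (Fintype.card V : ℝ)) ≤ 4 * ((di sd E a : ℝ) + dc sd E a) := by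
      exact_mod_cast h1
    unfold nn
    linarith
  have hYc : ((YY De (E \ R) sd At a).card : ℝ) ≤ (1 / 2 + ε) * nn V := by
    refine le_trans ?_ (side_le hW (!sd a))
    have : YY De (E \ R) sd At a ⊆ Sd sd (!sd a) := by
      intro w hw
      obtain ⟨-, -, w3⟩ := mem_YY.1 hw
      exact mem_filter.2 ⟨mem_univ _, (bne w3).symm⟩
    exact_mod_cast card_le_card this
  have hY1 : ∑ y ∈ YY De (E \ R) sd At a, d y ≤ ((YY De (E \ R) sd At a).card : ℝ) := by
    calc ∑ y ∈ YY De (E \ R) sd At a, d y ≤ ∑ _y ∈ YY De (E \ R) sd At a, (1 : ℝ) :=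
          Finset.sum_le_sum fun y hy => (hdY y hy).2
      _ = _ := by simp
  have hY2 : ((YY De (E \ R) sd At a).card : ℝ) * (1 - δ) ≤
      ∑ y ∈ YY De (E \ R) sd At a, d y := by
    calc ((YY De (E \ R) sd At a).card : ℝ) * (1 - δ) =
          ∑ _y ∈ YY De (E \ R) sd At a, (1 - δ) := by
          rw [Finset.sum_const, nsmul_eq_mul]
      _ ≤ _ := Finset.sum_le_sum fun y hy => (hdY y hy).1
  have hY3 : ((YY De (E \ R) sd At a).card : ℝ) - δ * nn V ≤
      ∑ y ∈ YY De (E \ R) sd At a, d y := by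
    refine le_trans ?_ hY2
    have h1 : ((YY De (E \ R) sd At a).card : ℝ) ≤ nn V := by nlinarith
    nlinarith
  have hδn : (3 * ε + 2 * κ + δ) * nn V ≤ δ₀ * nn V := mul_le_mul_of_nonneg_right hδ hn.le
  have pe : 0 ≤ ε * nn V := by positivity
  have pk : 0 ≤ κ * nn V := by positivity
  have pd : 0 ≤ δ * nn V := by positivity
  have qe : ε * nn V ≤ 1 / 2000 * nn V := mul_le_mul_of_nonneg_right hε hn.le
  have qk : κ * nn V ≤ 1 / 2000 * nn V := mul_le_mul_of_nonneg_right hκ hn.le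
  have qd : δ * nn V ≤ 1 / 2000 * nn V := mul_le_mul_of_nonneg_right hδ1 hn.le
  have hL' := hL V (nn V) (XX De (E \ R) sd At a) (YY De (E \ R) sd At a)
    (GdX De (E \ R) B a) d hn (fun x y h => h.symm) ?_ ?_ ?_ ?_ hdX ?_ ?_ ?_ ?_ ?_ ?_
  · obtain ⟨g, g0, gK, gs, gd⟩ := hL'
    refine ⟨g, g0, gK, ?_, ?_⟩
    · intro x y h
      obtain ⟨⟨⟨e1, e2⟩, e3⟩, h3⟩ := gs x y h
      rcases h3 with ⟨h4, h5⟩ | ⟨h4, h5⟩
      · obtain ⟨a1, ⟨a2, a3⟩, a4⟩ := mem_XX.1 h4
        obtain ⟨b1, ⟨b2, b3⟩, b4⟩ := mem_YY.1 h5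
        exact ⟨a1, b1, a3, b3, e2, a2, b2, e1, e3, Or.inl ⟨fun hc => b4 hc.2, a3, b3, e2⟩⟩
      · obtain ⟨a1, ⟨a2, a3⟩, a4⟩ := mem_YY.1 h4
        obtain ⟨b1, ⟨b2, b3⟩, b4⟩ := mem_YY.1 h5
        exact ⟨a1, b1, a3, b3, e2, a2, b2, e1, e3, Or.inl ⟨fun hc => b4 hc.2, a3, b3, e2⟩⟩
    · intro x hx hax had
      by_cases hs : sd a = sd x
      · exact gd x (Or.inl (mem_XX.2 ⟨hx, ⟨hax, had⟩, hs⟩))
      · exact gd x (Or.inr (mem_YY.2 ⟨hx, ⟨hax, had⟩, hs⟩))
  · intro v h1 h2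
    exact (mem_YY.1 h2).2.2 (mem_XX.1 h1).2.2
  · linarith
  · linarith
  · linarith
  · intro y hy
    obtain ⟨h1, h2⟩ := hdY y hy
    exact ⟨by linarith, h2⟩
  · linarith
  · linarith
  · intro x hx
    refine (missX hW hRs hB (mem_XX.1 hx).1 a _ ?_).trans (by linarith)
    intro w hw hc
    exact (mem_YY.1 hw).2.2 ((mem_XX.1 hx).2.2.trans hc)
  · intro y hy
    refine (missX hW hRs hB (mem_YY.1 hy).1 a _ ?_).trans (by linarith)
    intro w hw hc
    exact (mem_YY.1 hy).2.2 ((mem_XX.1 hw).2.2.trans hc.symm)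
  · intro y hy
    obtain ⟨h1, h2⟩ := YY_deg hW hRs hB hy
    exact ⟨by linarith, by linarith⟩

end F3.FX
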