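import Pool.Agent.F3.FX.Asm

/-!
# F3, worlds G and R: the fractional decomposition theorem `FXStatement`
-/

set_option autoImplicit false

namespace F3.FX

open Finset NW F1

theorem fx : FXStatement := by
  intro θ c hθ hc
  obtain ⟨ε₀, C, hε₀, hC, hF⟩ := two (θ / 2) (by positivity)
  obtain ⟨δ₀, K, hδ₀, hK, hL⟩ := linkX
  have hq : 0 < 2 * K + 4 / c + 26 := by positivity
  obtain ⟨ε, hε, e1, e2, e3, e4⟩ : ∃ ε : ℝ, 0 < ε ∧ ε ≤ 1 / 100000 ∧ ε ≤ δ₀ / 38 ∧
      ε ≤ ε₀ / 8 ∧ ε ≤ ε₀ / (2 * K + 4 / c + 26) :=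
    ⟨min (1 / 100000) (min (δ₀ / 38) (min (ε₀ / 8) (ε₀ / (2 * K + 4 / c + 26)))),
      by positivity, min_le_left _ _, (min_le_right _ _).trans (min_le_left _ _),
      (min_le_right _ _).trans ((min_le_right _ _).trans (min_le_left _ _)),
      (min_le_right _ _).trans ((min_le_right _ _).trans (min_le_right _ _))⟩
  obtain ⟨κ, hκ, k1, k2, k3, k4, k5⟩ : ∃ κ : ℝ, 0 < κ ∧ κ ≤ 1 / 100000 ∧ κ ≤ c / 6 ∧
      κ ≤ θ / 10 ∧ κ ≤ δ₀ / 4 ∧ κ ≤ ε₀ / 2 :=
    ⟨min (1 / 100000) (min (c / 6) (min (θ / 10) (min (δ₀ / 4) (ε₀ / 2)))), by positivity,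
      min_le_left _ _, (min_le_right _ _).trans (min_le_left _ _),
      (min_le_right _ _).trans ((min_le_right _ _).trans (min_le_left _ _)),
      (min_le_right _ _).trans ((min_le_right _ _).trans ((min_le_right _ _).trans
        (min_le_left _ _))),
      (min_le_right _ _).trans ((min_le_right _ _).trans ((min_le_right _ _).trans
        (min_le_right _ _)))⟩
  refine ⟨ε, 6 * (K + C + 16 + 13 + 2 / c), κ, hε, by positivity, hκ, 1, ?_⟩
  intro V _ _ E De H R sd At B hn hW hRE hRs hRt hB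
  have hn' : 0 < nn V := by
    unfold nn
    exact_mod_cast hn
  refine asm hF hL hK hC hθ hc hW hRE hRs hRt hB hn' hε.le hκ.le e1 k1 k2 k3 (by linarith) ?_
    (by linarith)
  have h1 := (le_div_iff₀ hq).1 e4
  have h2 : 2 * K * ε + 4 * ε / c + 26 * ε = ε * (2 * K + 4 / c + 26) := by ring
  rw [h2]
  exact h1

end F3.FX
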