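import Pool.Agent.F3.FX.Two
import Pool.Agent.F3.FX.LinkX
import Pool.Agent.F3.FT.Ts

/-!
# F3, worlds G and R: allowed ordered triples
-/

set_option autoImplicit false
set_option linter.unusedSectionVars false

namespace F3.FX

open Finset Classical NW F1 F3.FT

variable {V : Type} [Fintype V] [DecidableEq V]

/-- exactly one of three -/
def E1 (a b c : Prop) : Prop := (a ∧ ¬ b ∧ ¬ c) ∨ (¬ a ∧ b ∧ ¬ c) ∨ (¬ a ∧ ¬ b ∧ c)

/-- allowed ordered triples in the graph `G` -/
def OkX (De G : Finset (Sym2 V)) (B : Finset (Tri V)) (sd : V → Bool) (u v w : V) : Prop :=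
  s(u, v) ∈ G ∧ s(u, w) ∈ G ∧ s(v, w) ∈ G ∧ ¬ BdB B u v w ∧
    ((¬ (sd u = sd v ∧ sd u = sd w) ∧ s(u, v) ∉ De ∧ s(u, w) ∉ De ∧ s(v, w) ∉ De) ∨
      ((sd u = sd v ∧ sd u = sd w) ∧ E1 (s(u, v) ∈ De) (s(u, w) ∈ De) (s(v, w) ∈ De)))

variable {De G : Finset (Sym2 V)} {B : Finset (Tri V)} {sd : V → Bool}

theorem OkX.swap12 {u v w : V} (h : OkX De G B sd u v w) : OkX De G B sd v u w := by
  obtain ⟨h1, h2, h3, h4, h5⟩ := h
  refine ⟨by rwa [Sym2.eq_swap], h3, h2, fun hc => h4 hc.swap12, ?_⟩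
  rw [Sym2.eq_swap (a := v) (b := u)]
  rcases h5 with ⟨a, b⟩ | ⟨a, b⟩
  · exact Or.inl ⟨fun hc => a ⟨hc.1.symm, hc.1.symm.trans hc.2⟩, b.1, b.2.2, b.2.1⟩
  · refine Or.inr ⟨⟨a.1.symm, a.1.symm.trans a.2⟩, ?_⟩
    unfold E1 at b ⊢
    tauto

theorem OkX.swap23 {u v w : V} (h : OkX De G B sd u v w) : OkX De G B sd u w v := by
  obtain ⟨h1, h2, h3, h4, h5⟩ := h
  refine ⟨h2, h1, by rwa [Sym2.eq_swap], fun hc => h4 hc.swap23, ?_⟩
  rw [Sym2.eq_swap (a := w) (b := v)]
  rcases h5 with ⟨a, b⟩ | ⟨a, b⟩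
  · exact Or.inl ⟨fun hc => a ⟨hc.2, hc.1⟩, b.2.1, b.1, b.2.2⟩
  · refine Or.inr ⟨⟨a.2, a.1⟩, ?_⟩
    unfold E1 at b ⊢
    tauto

theorem okX_tri (hG : NW.NL G) {u v w : V} (h : OkX De G B sd u v w) :
    ∃ T : Tri V, T.1 = {u, v, w} ∧ T ∉ B ∧ alX De sd T ∧ NW.edg T.1 ⊆ G := by
  obtain ⟨h1, h2, h3, h4, h5⟩ := h
  have n1 : u ≠ v := fun hc => hG _ h1 (by rw [hc]; simp)
  have n2 : u ≠ w := fun hc => hG _ h2 (by rw [hc]; simp)
  have n3 : v ≠ w := fun hc => hG _ h3 (by rw [hc]; simp)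
  have d1 : s(u, v) ≠ s(v, w) := by
    intro hc
    rw [Sym2.eq_iff] at hc
    rcases hc with ⟨a, b⟩ | ⟨a, b⟩
    · exact n1 a
    · exact n2 a
  have d2 : s(u, v) ≠ s(u, w) := by
    intro hc
    rw [Sym2.eq_iff] at hc
    rcases hc with ⟨a, b⟩ | ⟨a, b⟩
    · exact n3 b
    · exact n2 a
  have d3 : s(v, w) ≠ s(u, w) := by
    intro hc
    rw [Sym2.eq_iff] at hc
    rcases hc with ⟨a, b⟩ | ⟨a, b⟩
    · exact n1 a.symm
    · exact n3 a
  refine ⟨⟨{u, v, w}, Finset.card_eq_three.2 ⟨u, v, w, n1, n2, n3, rfl⟩⟩, rfl,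
    fun hc => h4 ⟨_, hc, rfl⟩, ?_, ?_⟩
  · unfold alX
    simp only
    rw [edg_triple n1 n3 n2]
    rcases h5 with ⟨a, b⟩ | ⟨a, b⟩
    · left
      refine ⟨?_, ?_⟩
      · unfold Cro
        by_cases h : sd u = sd v
        · exact ⟨u, by simp, w, by simp, fun hc => a ⟨h, hc⟩⟩
        · exact ⟨u, by simp, v, by simp, h⟩
      · rw [Finset.disjoint_left]
        intro e he
        rw [mem_tri] at he
        rcases he with rfl | rfl | rfl
        · exact b.1
        · exact b.2.2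
        · exact b.2.1
    · right
      refine ⟨?_, ?_⟩
      · rintro ⟨x, hx, y, hy, hxy⟩
        simp only [mem_insert, mem_singleton] at hx hy
        obtain ⟨a1, a2⟩ := a
        rcases hx with rfl | rfl | rfl <;> rcases hy with rfl | rfl | rfl <;>
          simp_all
      · rw [Finset.card_eq_one]
        rcases b with b | b | b
        · refine ⟨s(u, v), ?_⟩
          ext e
          rw [mem_inter, mem_tri, mem_singleton]
          constructor
          · rintro ⟨rfl | rfl | rfl, h⟩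
            · rfl
            · exact absurd h b.2.2
            · exact absurd h b.2.1
          · rintro rfl
            exact ⟨Or.inl rfl, b.1⟩
        · refine ⟨s(u, w), ?_⟩
          ext e
          rw [mem_inter, mem_tri, mem_singleton]
          constructor
          · rintro ⟨rfl | rfl | rfl, h⟩
            · exact absurd h b.1
            · exact absurd h b.2.2
            · rfl
          · rintro rfl
            exact ⟨Or.inr (Or.inr rfl), b.2.1⟩
        · refine ⟨s(v, w), ?_⟩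
          ext e
          rw [mem_inter, mem_tri, mem_singleton]
          constructor
          · rintro ⟨rfl | rfl | rfl, h⟩
            · exact absurd h b.1
            · rfl
            · exact absurd h b.2.1
          · rintro rfl
            exact ⟨Or.inr (Or.inl rfl), b.2.2⟩
  · rw [edg_triple n1 n3 n2]
    intro e he
    rw [mem_tri] at he
    rcases he with rfl | rfl | rfl
    · exact h1
    · exact h3
    · exact h2

theorem gamX_mk {u v : V} : gamX De sd s(u, v) =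
    if s(u, v) ∈ De then -4 else if sd u = sd v then 2 else -1 := by
  unfold gamX
  rw [gam_mk]

theorem bool3 {a b c : Bool} (h : ¬ (a = b ∧ a = c)) :
    ((if a = b then (2 : ℤ) else -1) + (if a = c then 2 else -1)) + (if b = c then 2 else -1)
      = 0 := by
  revert h
  revert a b c
  decide

theorem okX_gam {u v w : V} (h : OkX De G B sd u v w) :
    gamX De sd s(u, v) + gamX De sd s(u, w) + gamX De sd s(v, w) = 0 := by
  obtain ⟨-, -, -, -, h5⟩ := h
  rw [gamX_mk, gamX_mk, gamX_mk]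
  rcases h5 with ⟨a, b1, b2, b3⟩ | ⟨⟨a1, a2⟩, b⟩
  · rw [if_neg b1, if_neg b2, if_neg b3]
    exact bool3 a
  · have a3 : sd v = sd w := a1.symm.trans a2
    rcases b with ⟨b1, b2, b3⟩ | ⟨b1, b2, b3⟩ | ⟨b1, b2, b3⟩
    · rw [if_pos b1, if_neg b2, if_neg b3, if_pos a2, if_pos a3]
      norm_num
    · rw [if_neg b1, if_pos b2, if_neg b3, if_pos a1, if_pos a3]
      norm_num
    · rw [if_neg b1, if_neg b2, if_pos b3, if_pos a1, if_pos a2]
      norm_num

end F3.FX
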