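import Pool.Agent.F3.FT.Tw
import Pool.Agent.F3.FT.Contr
import Pool.Agent.F3.FX.Defs

/-!
# F3, worlds G and R: the typical part (nearly complete bipartite, internal degrees `n/4`, closed
5-walks on the side `false`): the operator
-/

set_option autoImplicit false
set_option linter.unusedSectionVars false

namespace F3.FX

open Finset Classical F3.FT

section Ops

variable {V : Type} [Fintype V]

/-- evaluation -/
noncomputable def pj (i : V × V) : (V × V → ℝ) →ₗ[ℝ] ℝ := LinearMap.proj i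

theorem pj_apply (i : V × V) (φ : V × V → ℝ) : pj i φ = φ i := rfl

/-- the side `b` -/
noncomputable def Sb (W : Finset V) (sd : V → Bool) (b : Bool) : Finset V :=
  W.filter (fun v => sd v = b)

/-- row average inside the side -/
noncomputable def Ri (W : Finset V) (sd : V → Bool) (n : ℝ) (u : V) : (V × V → ℝ) →ₗ[ℝ] ℝ :=
  (2 / n) • ∑ x ∈ Sb W sd (sd u), pj (u, x)

/-- the reduced demand of a cross pair -/
noncomputable def Pc (W : Finset V) (sd : V → Bool) (n : ℝ) (a b : V) : (V × V → ℝ) →ₗ[ℝ] ℝ :=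
  pj (a, b) - Ri W sd n a - Ri W sd n b

/-- column average -/
noncomputable def Gc (W : Finset V) (sd : V → Bool) (n : ℝ) (b : V) : (V × V → ℝ) →ₗ[ℝ] ℝ :=
  (2 / n) • ∑ a ∈ Sb W sd true, Pc W sd n a b

/-- the weight of the triple `u v w` with apex `w` -/
noncomputable def Yc (W : Finset V) (sd : V → Bool) (n : ℝ) (q : V → V → V → ℝ) (u v w : V) :
    (V × V → ℝ) →ₗ[ℝ] ℝ :=
  (2 / n) • pj (u, v) + (if sd u = true then (4 / n) • Gc W sd n w else
    ∑ c ∈ Sb W sd false, q c u v • (Pc W sd n w c - Gc W sd n c))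

/-- the weight of the triple `u v w` -/
noncomputable def Yx (W : Finset V) (sd : V → Bool) (n : ℝ) (q : V → V → V → ℝ) (u v w : V) :
    (V × V → ℝ) →ₗ[ℝ] ℝ :=
  if sd u = sd v then Yc W sd n q u v w else if sd u = sd w then Yc W sd n q u w v else
    Yc W sd n q v w u

theorem Ri_apply (W : Finset V) (sd : V → Bool) (n : ℝ) (u : V) (φ : V × V → ℝ) :
    Ri W sd n u φ = (2 / n) * ∑ x ∈ Sb W sd (sd u), φ (u, x) := by
  unfold Ri
  rw [LinearMap.smul_apply, LinearMap.sum_apply, smul_eq_mul]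
  rfl

theorem Pc_apply (W : Finset V) (sd : V → Bool) (n : ℝ) (a b : V) (φ : V × V → ℝ) :
    Pc W sd n a b φ = φ (a, b) - Ri W sd n a φ - Ri W sd n b φ := by
  unfold Pc
  rw [LinearMap.sub_apply, LinearMap.sub_apply, pj_apply]

theorem Gc_apply (W : Finset V) (sd : V → Bool) (n : ℝ) (b : V) (φ : V × V → ℝ) :
    Gc W sd n b φ = (2 / n) * ∑ a ∈ Sb W sd true, Pc W sd n a b φ := by
  unfold Gc
  rw [LinearMap.smul_apply, LinearMap.sum_apply, smul_eq_mul]

theorem Yc_true {W : Finset V} {sd : V → Bool} {n : ℝ} {q : V → V → V → ℝ} {u v w : V}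
    (hu : sd u = true) (φ : V × V → ℝ) :
    Yc W sd n q u v w φ = (2 / n) * φ (u, v) + (4 / n) * Gc W sd n w φ := by
  unfold Yc
  rw [if_pos hu, LinearMap.add_apply, LinearMap.smul_apply, LinearMap.smul_apply, smul_eq_mul,
    smul_eq_mul, pj_apply]

theorem Yc_false {W : Finset V} {sd : V → Bool} {n : ℝ} {q : V → V → V → ℝ} {u v w : V}
    (hu : sd u = false) (φ : V × V → ℝ) :
    Yc W sd n q u v w φ = (2 / n) * φ (u, v) +
      ∑ c ∈ Sb W sd false, q c u v * (Pc W sd n w c φ - Gc W sd n c φ) := by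
  unfold Yc
  have h : ¬ sd u = true := by simp [hu]
  rw [if_neg h, LinearMap.add_apply, LinearMap.smul_apply, LinearMap.sum_apply, smul_eq_mul,
    pj_apply]
  congr 1

theorem Yc_swap {W : Finset V} {sd : V → Bool} {n : ℝ} {q : V → V → V → ℝ} {u v w : V}
    (huv : sd u = sd v) (hq : ∀ c x y, q c x y = q c y x) (φ : V × V → ℝ)
    (hφ : ∀ x y, φ (x, y) = φ (y, x)) : Yc W sd n q u v w φ = Yc W sd n q v u w φ := by
  cases hu : sd u
  · have hv : sd v = false := by rw [← huv, hu]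
    rw [Yc_false hu, Yc_false hv, hφ u v]
    congr 1
    exact sum_congr rfl fun c _ => by rw [hq c u v]
  · have hv : sd v = true := by rw [← huv, hu]
    rw [Yc_true hu, Yc_true hv, hφ u v]

theorem Yx_swap12 {W : Finset V} {sd : V → Bool} {n : ℝ} {q : V → V → V → ℝ} {u v w : V}
    (hq : ∀ c x y, q c x y = q c y x) (φ : V × V → ℝ)
    (hφ : ∀ x y, φ (x, y) = φ (y, x)) : Yx W sd n q u v w φ = Yx W sd n q v u w φ := by
  unfold Yx
  by_cases h : sd u = sd v
  · rw [if_pos h, if_pos h.symm]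
    exact Yc_swap h hq φ hφ
  · rw [if_neg h, if_neg (Ne.symm h)]
    by_cases h2 : sd u = sd w
    · rw [if_pos h2, if_neg (fun h3 => h (h2.trans h3.symm))]
    · have h3 : sd v = sd w := by
        revert h h2
        cases sd u <;> cases sd v <;> cases sd w <;> simp
      rw [if_neg h2, if_pos h3]

theorem Yx_swap23 {W : Finset V} {sd : V → Bool} {n : ℝ} {q : V → V → V → ℝ} {u v w : V}
    (hq : ∀ c x y, q c x y = q c y x) (φ : V × V → ℝ)
    (hφ : ∀ x y, φ (x, y) = φ (y, x)) (hn : ¬ (sd u = sd v ∧ sd u = sd w)) :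
    Yx W sd n q u v w φ = Yx W sd n q u w v φ := by
  unfold Yx
  by_cases h : sd u = sd v
  · have h2 : ¬ sd u = sd w := fun h2 => hn ⟨h, h2⟩
    rw [if_pos h, if_neg h2, if_pos h]
  · by_cases h2 : sd u = sd w
    · rw [if_neg h, if_pos h2, if_pos h2]
    · rw [if_neg h, if_neg h2, if_neg h2, if_neg h]
      have h3 : sd v = sd w := by
        revert h h2
        cases sd u <;> cases sd v <;> cases sd w <;> simp
      exact Yc_swap h3 hq φ hφ

end Ops

section Hyps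

variable {V : Type} [Fintype V]

/-- the hypotheses -/
structure XH (W : Finset V) (sd : V → Bool) (G : V → V → Prop) (Bd : V → V → V → Prop)
    (q : V → V → V → ℝ) (n e T : ℝ) : Prop where
  n0 : 0 < n
  e0 : 0 ≤ e
  T0 : 0 ≤ T
  eT : (1000 + 400 * T) * e ≤ 1
  gs : ∀ u v, G u v → G v u
  b1 : ∀ u v w, Bd u v w → Bd v u w
  b2 : ∀ u v w, Bd u v w → Bd u w v
  part : ∀ b, |((Sb W sd b).card : ℝ) - n / 2| ≤ e * n
  miss : ∀ u ∈ W, ((W.filter (fun v => sd u ≠ sd v ∧ ¬ G u v)).card : ℝ) ≤ e * n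
  int : ∀ u ∈ W, |((W.filter (fun v => sd u = sd v ∧ G u v)).card : ℝ) - n / 4| ≤ e * n
  bad : ∀ u v, ((univ.filter (fun w => Bd u v w)).card : ℝ) ≤ e * n
  qs : ∀ c x y, q c x y = q c y x
  qp : ∀ c x y, q c x y ≠ 0 → c ∈ Sb W sd false ∧ x ∈ Sb W sd false ∧ y ∈ Sb W sd false ∧ G x y
  q1 : ∀ c ∈ Sb W sd false, ∀ x, ∑ y, q c x y = if x = c then 1 else 0
  qb : ∀ x y, ∑ c, |q c x y| ≤ T / n

/-- allowed triples -/
def Ax (W : Finset V) (sd : V → Bool) (G : V → V → Prop) (Bd : V → V → V → Prop) (u v w : V) :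
    Prop :=
  (u ∈ W ∧ v ∈ W ∧ w ∈ W) ∧ ¬ (sd u = sd v ∧ sd u = sd w) ∧ (G u v ∧ G u w ∧ G v w) ∧ ¬ Bd u v w

variable {W : Finset V} {sd : V → Bool} {G : V → V → Prop} {Bd : V → V → V → Prop}
  {q : V → V → V → ℝ} {n e T : ℝ}

theorem Ax_12 (h : XH W sd G Bd q n e T) (u v w : V) :
    Ax W sd G Bd u v w ↔ Ax W sd G Bd v u w := by
  unfold Ax
  constructor
  · rintro ⟨⟨a1, a2, a3⟩, a4, ⟨a5, a6, a7⟩, a8⟩
    exact ⟨⟨a2, a1, a3⟩, fun hh => a4 ⟨hh.1.symm, hh.1.symm.trans hh.2⟩,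
      ⟨h.gs _ _ a5, a7, a6⟩, fun hb => a8 (h.b1 _ _ _ hb)⟩
  · rintro ⟨⟨a1, a2, a3⟩, a4, ⟨a5, a6, a7⟩, a8⟩
    exact ⟨⟨a2, a1, a3⟩, fun hh => a4 ⟨hh.1.symm, hh.1.symm.trans hh.2⟩,
      ⟨h.gs _ _ a5, a7, a6⟩, fun hb => a8 (h.b1 _ _ _ hb)⟩

theorem Ax_23 (h : XH W sd G Bd q n e T) (u v w : V) :
    Ax W sd G Bd u v w ↔ Ax W sd G Bd u w v := by
  unfold Ax
  constructor
  · rintro ⟨⟨a1, a2, a3⟩, a4, ⟨a5, a6, a7⟩, a8⟩
    exact ⟨⟨a1, a3, a2⟩, fun hh => a4 ⟨hh.2, hh.1⟩, ⟨a6, a5, h.gs _ _ a7⟩,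
      fun hb => a8 (h.b2 _ _ _ hb)⟩
  · rintro ⟨⟨a1, a2, a3⟩, a4, ⟨a5, a6, a7⟩, a8⟩
    exact ⟨⟨a1, a3, a2⟩, fun hh => a4 ⟨hh.2, hh.1⟩, ⟨a6, a5, h.gs _ _ a7⟩,
      fun hb => a8 (h.b2 _ _ _ hb)⟩

theorem XH.e4 (h : XH W sd G Bd q n e T) : e ≤ 1 / 4 := by
  have h1 := h.eT
  have h2 := h.T0
  have h3 := h.e0
  have h4 := mul_nonneg h2 h3
  nlinarith

theorem XH.le (h : XH W sd G Bd q n e T) (b : Bool) : ((Sb W sd b).card : ℝ) ≤ n := by
  have h1 := (abs_le.1 (h.part b)).2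
  have h2 := h.e4
  have h3 := h.n0
  nlinarith

theorem Ri_bound (h : XH W sd G Bd q n e T) {M : ℝ} (φ : V × V → ℝ) (hM : ∀ i, |φ i| ≤ M)
    (u : V) : |Ri W sd n u φ| ≤ 2 * M := by
  have hn := h.n0
  have hM0 : 0 ≤ M := (abs_nonneg _).trans (hM (u, u))
  rw [Ri_apply, abs_mul, abs_of_pos (by positivity : (0:ℝ) < 2 / n)]
  have h1 : |∑ x ∈ Sb W sd (sd u), φ (u, x)| ≤ n * M := by
    calc |∑ x ∈ Sb W sd (sd u), φ (u, x)| ≤ ∑ x ∈ Sb W sd (sd u), |φ (u, x)| :=
          abs_sum_le_sum_abs _ _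
      _ ≤ ∑ x ∈ Sb W sd (sd u), M := sum_le_sum (fun x _ => hM _)
      _ = ((Sb W sd (sd u)).card : ℝ) * M := by rw [sum_const, nsmul_eq_mul]
      _ ≤ n * M := mul_le_mul_of_nonneg_right (h.le _) hM0
  calc 2 / n * |∑ x ∈ Sb W sd (sd u), φ (u, x)| ≤ 2 / n * (n * M) :=
        mul_le_mul_of_nonneg_left h1 (by positivity)
    _ = 2 * M := by field_simp

theorem Pc_bound (h : XH W sd G Bd q n e T) {M : ℝ} (φ : V × V → ℝ) (hM : ∀ i, |φ i| ≤ M)
    (a b : V) : |Pc W sd n a b φ| ≤ 5 * M := by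
  rw [Pc_apply]
  have h1 := abs_le.1 (hM (a, b))
  have h2 := abs_le.1 (Ri_bound h φ hM a)
  have h3 := abs_le.1 (Ri_bound h φ hM b)
  rw [abs_le]
  constructor <;> linarith [h1.1, h1.2, h2.1, h2.2, h3.1, h3.2]

theorem Gc_bound (h : XH W sd G Bd q n e T) {M : ℝ} (φ : V × V → ℝ) (hM : ∀ i, |φ i| ≤ M)
    (b : V) : |Gc W sd n b φ| ≤ 10 * M := by
  have hn := h.n0
  have hM0 : 0 ≤ M := (abs_nonneg _).trans (hM (b, b))
  rw [Gc_apply, abs_mul, abs_of_pos (by positivity : (0:ℝ) < 2 / n)]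
  have h1 : |∑ a ∈ Sb W sd true, Pc W sd n a b φ| ≤ n * (5 * M) := by
    calc |∑ a ∈ Sb W sd true, Pc W sd n a b φ| ≤ ∑ a ∈ Sb W sd true, |Pc W sd n a b φ| :=
          abs_sum_le_sum_abs _ _
      _ ≤ ∑ a ∈ Sb W sd true, (5 * M) := sum_le_sum (fun x _ => Pc_bound h φ hM _ _)
      _ = ((Sb W sd true).card : ℝ) * (5 * M) := by rw [sum_const, nsmul_eq_mul]
      _ ≤ n * (5 * M) := mul_le_mul_of_nonneg_right (h.le _) (by positivity)
  calc 2 / n * |∑ a ∈ Sb W sd true, Pc W sd n a b φ| ≤ 2 / n * (n * (5 * M)) :=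
        mul_le_mul_of_nonneg_left h1 (by positivity)
    _ = 10 * M := by field_simp; ring

theorem ker_sum (h : XH W sd G Bd q n e T) (u v : V) (F : V → ℝ) {b : ℝ} (hb0 : 0 ≤ b)
    (hb : ∀ c, |F c| ≤ b) : |∑ c ∈ Sb W sd false, q c u v * F c| ≤ T / n * b := by
  calc |∑ c ∈ Sb W sd false, q c u v * F c| ≤ ∑ c ∈ Sb W sd false, |q c u v * F c| :=
        abs_sum_le_sum_abs _ _
    _ ≤ ∑ c ∈ Sb W sd false, |q c u v| * b := sum_le_sum (fun c _ => by
        rw [abs_mul]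
        exact mul_le_mul_of_nonneg_left (hb c) (abs_nonneg _))
    _ ≤ ∑ c, |q c u v| * b :=
        sum_le_sum_of_subset_of_nonneg (subset_univ _) (fun c _ _ => by positivity)
    _ = (∑ c, |q c u v|) * b := by rw [sum_mul]
    _ ≤ T / n * b := mul_le_mul_of_nonneg_right (h.qb u v) hb0

theorem Yc_bound (h : XH W sd G Bd q n e T) {M : ℝ} (φ : V × V → ℝ) (hM : ∀ i, |φ i| ≤ M)
    (u v w : V) : |Yc W sd n q u v w φ| ≤ (42 + 15 * T) * M / n := by
  have hn := h.n0
  have hT := h.T0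
  have hM0 : 0 ≤ M := (abs_nonneg _).trans (hM (u, u))
  have h1 := hM (u, v)
  have e1 : |2 / n * φ (u, v)| ≤ 2 / n * M := by
    rw [abs_mul, abs_of_pos (by positivity : (0:ℝ) < 2 / n)]
    exact mul_le_mul_of_nonneg_left h1 (by positivity)
  have k1 : 0 ≤ T * M / n := by positivity
  have k2 : 0 ≤ M / n := by positivity
  cases hu : sd u
  · rw [Yc_false hu]
    have h2 := ker_sum h u v (fun c => Pc W sd n w c φ - Gc W sd n c φ) (b := 15 * M)
      (by positivity) (fun c => by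
        have h2 := abs_le.1 (Pc_bound h φ hM w c)
        have h3 := abs_le.1 (Gc_bound h φ hM c)
        rw [abs_le]
        constructor <;> linarith [h2.1, h2.2, h3.1, h3.2])
    refine (abs_add_le _ _).trans ((add_le_add e1 h2).trans ?_)
    have e2 : 2 / n * M + T / n * (15 * M) = (2 * M / n) + 15 * (T * M / n) := by ring
    have e3 : (42 + 15 * T) * M / n = 42 * (M / n) + 15 * (T * M / n) := by ring
    rw [e2, e3]
    have e4 : 2 * M / n = 2 * (M / n) := by ring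
    rw [e4]
    linarith
  · rw [Yc_true hu]
    have h2 : |4 / n * Gc W sd n w φ| ≤ 4 / n * (10 * M) := by
      rw [abs_mul, abs_of_pos (by positivity : (0:ℝ) < 4 / n)]
      exact mul_le_mul_of_nonneg_left (Gc_bound h φ hM w) (by positivity)
    refine (abs_add_le _ _).trans ((add_le_add e1 h2).trans ?_)
    have e2 : 2 / n * M + 4 / n * (10 * M) = 42 * (M / n) := by ring
    have e3 : (42 + 15 * T) * M / n = 42 * (M / n) + 15 * (T * M / n) := by ring
    rw [e2, e3]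
    linarith

theorem Yx_bound (h : XH W sd G Bd q n e T) {M : ℝ} (φ : V × V → ℝ) (hM : ∀ i, |φ i| ≤ M)
    (u v w : V) : |Yx W sd n q u v w φ| ≤ (42 + 15 * T) * M / n := by
  unfold Yx
  split_ifs
  · exact Yc_bound h φ hM _ _ _
  · exact Yc_bound h φ hM _ _ _
  · exact Yc_bound h φ hM _ _ _

/-- the operator -/
noncomputable def Lx (W : Finset V) (sd : V → Bool) (G : V → V → Prop) (Bd : V → V → V → Prop)
    (n : ℝ) (q : V → V → V → ℝ) : (V × V → ℝ) →ₗ[ℝ] (V × V → ℝ) :=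
  LinearMap.pi (fun i => ∑ w, if Ax W sd G Bd i.1 i.2 w then Yx W sd n q i.1 i.2 w else 0)

theorem Lx_apply (φ : V × V → ℝ) (i : V × V) : Lx W sd G Bd n q φ i =
    ∑ w, if Ax W sd G Bd i.1 i.2 w then Yx W sd n q i.1 i.2 w φ else 0 := by
  unfold Lx
  rw [LinearMap.pi_apply, LinearMap.sum_apply]
  refine sum_congr rfl (fun w _ => ?_)
  split_ifs <;> rfl

/-- the coefficients of the balance -/
def cf (a b : Bool) : ℝ := if a = b then 2 else -1

theorem cf_comm (a b : Bool) : cf a b = cf b a := by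
  unfold cf
  by_cases h : a = b
  · rw [if_pos h, if_pos h.symm]
  · rw [if_neg h, if_neg (Ne.symm h)]

/-- the space -/
def Zx (W : Finset V) (sd : V → Bool) (G : V → V → Prop) : Submodule ℝ (V × V → ℝ) where
  carrier := {φ | (∀ x y, φ (x, y) = φ (y, x)) ∧
    (∀ x y, ¬ (x ∈ W ∧ y ∈ W ∧ G x y) → φ (x, y) = 0) ∧
    ∑ x, ∑ y, cf (sd x) (sd y) * φ (x, y) = 0}
  add_mem' := by
    rintro φ ψ ⟨a1, a2, a3⟩ ⟨b1, b2, b3⟩
    refine ⟨fun x y => ?_, fun x y h => ?_, ?_⟩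
    · rw [Pi.add_apply, Pi.add_apply, a1, b1]
    · rw [Pi.add_apply, a2 x y h, b2 x y h, add_zero]
    · have e : ∑ x, ∑ y, cf (sd x) (sd y) * (φ + ψ) (x, y) =
          ∑ x, ∑ y, cf (sd x) (sd y) * φ (x, y) + ∑ x, ∑ y, cf (sd x) (sd y) * ψ (x, y) := by
        rw [← sum_add_distrib]
        refine sum_congr rfl (fun x _ => ?_)
        rw [← sum_add_distrib]
        refine sum_congr rfl (fun y _ => ?_)
        rw [Pi.add_apply]
        ring
      rw [e, a3, b3, add_zero]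
  zero_mem' := by
    refine ⟨fun x y => rfl, fun x y _ => rfl, ?_⟩
    simp
  smul_mem' := by
    rintro c φ ⟨a1, a2, a3⟩
    refine ⟨fun x y => ?_, fun x y h => ?_, ?_⟩
    · rw [Pi.smul_apply, Pi.smul_apply, a1]
    · rw [Pi.smul_apply, a2 x y h, smul_zero]
    · have e : ∑ x, ∑ y, cf (sd x) (sd y) * (c • φ) (x, y) =
          c * ∑ x, ∑ y, cf (sd x) (sd y) * φ (x, y) := by
        rw [mul_sum]
        refine sum_congr rfl (fun x _ => ?_)
        rw [mul_sum]
        refine sum_congr rfl (fun y _ => ?_)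
        rw [Pi.smul_apply, smul_eq_mul]
        ring
      rw [e, a3, mul_zero]

theorem Zx_of (g : V → V → V → ℝ) (h12 : ∀ u v w, g u v w = g v u w)
    (h23 : ∀ u v w, g u v w = g u w v) (hs : ∀ u v w, g u v w ≠ 0 → Ax W sd G Bd u v w) :
    (fun i : V × V => ∑ w, g i.1 i.2 w) ∈ Zx W sd G := by
  refine ⟨fun x y => ?_, fun x y hxy => ?_, ?_⟩
  · exact sum_congr rfl (fun w _ => h12 x y w)
  · refine sum_eq_zero (fun w _ => ?_)
    by_contra h
    obtain ⟨⟨a1, a2, a3⟩, a4, ⟨a5, a6, a7⟩, a8⟩ := hs x y w h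
    exact hxy ⟨a1, a2, a5⟩
  · show ∑ x, ∑ y, cf (sd x) (sd y) * ∑ w, g x y w = 0
    have a1 : ∑ x, ∑ y, cf (sd x) (sd y) * ∑ w, g x y w =
        ∑ x, ∑ y, ∑ w, cf (sd x) (sd y) * g x y w := by
      refine sum_congr rfl (fun u _ => sum_congr rfl (fun v _ => ?_))
      rw [mul_sum]
    have a2 : ∑ x, ∑ y, cf (sd x) (sd y) * ∑ w, g x y w =
        ∑ x, ∑ y, ∑ w, cf (sd x) (sd w) * g x y w := by
      rw [a1]
      refine sum_congr rfl (fun u _ => ?_)
      rw [sum_comm]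
      refine sum_congr rfl (fun v _ => sum_congr rfl (fun w _ => ?_))
      rw [h23 u w v]
    have a3 : ∑ x, ∑ y, cf (sd x) (sd y) * ∑ w, g x y w =
        ∑ x, ∑ y, ∑ w, cf (sd y) (sd w) * g x y w := by
      rw [a2, sum_comm]
      refine sum_congr rfl (fun u _ => sum_congr rfl (fun v _ => sum_congr rfl (fun w _ => ?_)))
      rw [h12 v u w]
    have a4 : ∑ x, ∑ y, ∑ w, (cf (sd x) (sd y) * g x y w + cf (sd x) (sd w) * g x y w +
        cf (sd y) (sd w) * g x y w) = 0 := by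
      refine sum_eq_zero (fun x _ => sum_eq_zero (fun y _ => sum_eq_zero (fun w _ => ?_)))
      by_cases h : g x y w = 0
      · rw [h]; ring
      · obtain ⟨-, b4, -, -⟩ := hs x y w h
        have h5 : cf (sd x) (sd y) + cf (sd x) (sd w) + cf (sd y) (sd w) = 0 := by
          revert b4
          unfold cf
          cases sd x <;> cases sd y <;> cases sd w <;> simp <;> norm_num
        calc _ = (cf (sd x) (sd y) + cf (sd x) (sd w) + cf (sd y) (sd w)) * g x y w := by ring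
          _ = 0 := by rw [h5, zero_mul]
    have a5 : ∑ x, ∑ y, ∑ w, (cf (sd x) (sd y) * g x y w + cf (sd x) (sd w) * g x y w +
        cf (sd y) (sd w) * g x y w) = (∑ x, ∑ y, ∑ w, cf (sd x) (sd y) * g x y w) +
        (∑ x, ∑ y, ∑ w, cf (sd x) (sd w) * g x y w) +
        ∑ x, ∑ y, ∑ w, cf (sd y) (sd w) * g x y w := by
      simp only [sum_add_distrib]
    rw [a5, ← a1, ← a2, ← a3] at a4
    linarith

theorem Lx_mem (h : XH W sd G Bd q n e T) (φ : V × V → ℝ) (hφ : φ ∈ Zx W sd G) :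
    Lx W sd G Bd n q φ ∈ Zx W sd G := by
  have e1 : Lx W sd G Bd n q φ = fun i : V × V =>
      ∑ w, (fun u v w => if Ax W sd G Bd u v w then Yx W sd n q u v w φ else 0) i.1 i.2 w := by
    funext i
    rw [Lx_apply]
  rw [e1]
  refine Zx_of (Bd := Bd) (fun u v w => if Ax W sd G Bd u v w then Yx W sd n q u v w φ else 0)
    (fun u v w => ?_) (fun u v w => ?_) (fun u v w hne => ?_)
  · simp only [Ax_12 h u v w, Yx_swap12 (u := u) (v := v) (w := w) (W := W) (n := n) h.qs φ hφ.1]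
  · by_cases hA : Ax W sd G Bd u v w
    · have hA' := (Ax_23 h u v w).1 hA
      simp only [if_pos hA, if_pos hA']
      exact Yx_swap23 h.qs φ hφ.1 hA.2.1
    · have hA' := fun h' => hA ((Ax_23 h u v w).2 h')
      simp only [if_neg hA, if_neg hA']
  · by_contra hA
    exact hne (if_neg hA)

theorem near_gen {u v : V} (P : V → Prop) [DecidablePred P] (hP : ∀ w, Ax W sd G Bd u v w → P w) {m : ℝ}
    (hc : ((univ.filter (fun w => P w ∧ ¬ Ax W sd G Bd u v w)).card : ℝ) ≤ m)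
    (F : V → ℝ) {b : ℝ} (hb0 : 0 ≤ b) (hb : ∀ w, |F w| ≤ b) :
    |(∑ w, if Ax W sd G Bd u v w then F w else 0) - ∑ w, if P w then F w else 0| ≤ m * b := by
  rw [← sum_sub_distrib]
  have e2 : ∀ w, (if Ax W sd G Bd u v w then F w else 0) - (if P w then F w else 0) =
      if (P w ∧ ¬ Ax W sd G Bd u v w) then -F w else 0 := by
    intro w
    by_cases hA : Ax W sd G Bd u v w
    · rw [if_pos hA, if_pos (hP w hA), if_neg (fun h => h.2 hA), sub_self]
    · by_cases hP : P w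
      · rw [if_neg hA, if_pos hP, if_pos ⟨hP, hA⟩, zero_sub]
      · rw [if_neg hA, if_neg hP, if_neg (fun h => hP h.1), sub_self]
  simp_rw [e2]
  rw [← sum_filter]
  calc |∑ w ∈ univ.filter (fun w => P w ∧ ¬ Ax W sd G Bd u v w), -F w| ≤
        ∑ w ∈ univ.filter (fun w => P w ∧ ¬ Ax W sd G Bd u v w), |-F w| :=
          abs_sum_le_sum_abs _ _
    _ ≤ ∑ w ∈ univ.filter (fun w => P w ∧ ¬ Ax W sd G Bd u v w), b :=
        sum_le_sum (fun w _ => by rw [abs_neg]; exact hb w)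
    _ = ((univ.filter (fun w => P w ∧ ¬ Ax W sd G Bd u v w)).card : ℝ) * b := by
        rw [sum_const, nsmul_eq_mul]
    _ ≤ m * b := mul_le_mul_of_nonneg_right hc hb0

theorem near_card (h : XH W sd G Bd q n e T) {u v : V} (hu : u ∈ W) (hv : v ∈ W)
    (B : Finset V) (hB : ∀ w ∈ B, (w ∈ W ∧ sd u ≠ sd w ∧ ¬ G u w) ∨
      (w ∈ W ∧ sd v ≠ sd w ∧ ¬ G v w) ∨ Bd u v w) : (B.card : ℝ) ≤ 3 * e * n := by
  have hsub : B ⊆ (W.filter (fun w => sd u ≠ sd w ∧ ¬ G u w) ∪
      W.filter (fun w => sd v ≠ sd w ∧ ¬ G v w)) ∪ univ.filter (fun w => Bd u v w) := by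
    intro w hw
    simp only [mem_union, mem_filter, mem_univ, true_and]
    rcases hB w hw with ⟨a, b⟩ | ⟨a, b⟩ | a
    · exact Or.inl (Or.inl ⟨a, b⟩)
    · exact Or.inl (Or.inr ⟨a, b⟩)
    · exact Or.inr a
  have h1 := (card_le_card hsub).trans (card_union_le _ _)
  have h2 := card_union_le (W.filter (fun w => sd u ≠ sd w ∧ ¬ G u w))
    (W.filter (fun w => sd v ≠ sd w ∧ ¬ G v w))
  have h3 : (B.card : ℝ) ≤ (W.filter (fun w => sd u ≠ sd w ∧ ¬ G u w)).card +
      (W.filter (fun w => sd v ≠ sd w ∧ ¬ G v w)).card +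
      (univ.filter (fun w => Bd u v w)).card := by
    exact_mod_cast h1.trans (Nat.add_le_add_right h2 _)
  have := h.miss u hu
  have := h.miss v hv
  have := h.bad u v
  linarith

theorem near_int (h : XH W sd G Bd q n e T) {u v : V} (hu : u ∈ W) (hv : v ∈ W)
    (hs : sd u = sd v) (hG : G u v) (F : V → ℝ) {b : ℝ} (hb0 : 0 ≤ b) (hb : ∀ w, |F w| ≤ b) :
    |(∑ w, if Ax W sd G Bd u v w then F w else 0) - ∑ w ∈ Sb W sd (!sd u), F w| ≤
      3 * e * n * b := by
  have e1 : ∑ w ∈ Sb W sd (!sd u), F w = ∑ w, if (w ∈ W ∧ sd w = !sd u) then F w else 0 := by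
    unfold Sb
    rw [← sum_filter]
    refine sum_congr ?_ (fun _ _ => rfl)
    ext w
    simp only [mem_filter, mem_univ, true_and]
  rw [e1]
  refine near_gen (fun w => w ∈ W ∧ sd w = !sd u) ?_ ?_ F hb0 hb
  · rintro w ⟨⟨a1, a2, a3⟩, a4, -, -⟩
    refine ⟨a3, ?_⟩
    have a5 : ¬ sd u = sd w := fun h' => a4 ⟨hs, h'⟩
    revert a5
    cases sd u <;> cases sd w <;> simp
  · refine near_card h hu hv _ ?_
    intro w hw
    obtain ⟨⟨a1, a2⟩, a3⟩ := (mem_filter.1 hw).2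
    have a5 : sd u ≠ sd w := by
      rw [a2]
      cases sd u <;> simp
    by_contra hcon
    push Not at hcon
    obtain ⟨b1, b2, b3⟩ := hcon
    exact a3 ⟨⟨hu, hv, a1⟩, fun h' => a5 h'.2, ⟨hG, b1 a1 a5, b2 a1 (hs ▸ a5)⟩, b3⟩

theorem near_cross (h : XH W sd G Bd q n e T) {u v : V} (hu : u ∈ W) (hv : v ∈ W)
    (hs : sd u ≠ sd v) (hG : G u v) (F : V → ℝ) {b : ℝ} (hb0 : 0 ≤ b) (hb : ∀ w, |F w| ≤ b) :
    |(∑ w, if Ax W sd G Bd u v w then F w else 0) -
      (∑ w ∈ W.filter (fun w => sd u = sd w ∧ G u w), F w +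
        ∑ w ∈ W.filter (fun w => sd v = sd w ∧ G v w), F w)| ≤ 3 * e * n * b := by
  have e1 : ∑ w ∈ W.filter (fun w => sd u = sd w ∧ G u w), F w +
        ∑ w ∈ W.filter (fun w => sd v = sd w ∧ G v w), F w =
      ∑ w, if (w ∈ W ∧ ((sd u = sd w ∧ G u w) ∨ (sd v = sd w ∧ G v w))) then F w else 0 := by
    rw [← sum_filter, ← sum_union]
    · refine sum_congr ?_ (fun _ _ => rfl)
      ext w
      simp only [mem_union, mem_filter, mem_univ, true_and]
      tauto
    · rw [disjoint_left]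
      intro w h1 h2
      rw [mem_filter] at h1 h2
      exact hs (h1.2.1.trans h2.2.1.symm)
  rw [e1]
  refine near_gen (fun w => w ∈ W ∧ ((sd u = sd w ∧ G u w) ∨ (sd v = sd w ∧ G v w))) ?_ ?_
    F hb0 hb
  · rintro w ⟨⟨a1, a2, a3⟩, a4, ⟨a5, a6, a7⟩, -⟩
    refine ⟨a3, ?_⟩
    by_cases h5 : sd u = sd w
    · exact Or.inl ⟨h5, a6⟩
    · refine Or.inr ⟨?_, a7⟩
      revert h5 hs
      cases sd u <;> cases sd v <;> cases sd w <;> simp
  · refine near_card h hu hv _ ?_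
    intro w hw
    obtain ⟨⟨a1, a2⟩, a3⟩ := (mem_filter.1 hw).2
    by_contra hcon
    push Not at hcon
    obtain ⟨b1, b2, b3⟩ := hcon
    apply a3
    rcases a2 with ⟨c1, c2⟩ | ⟨c1, c2⟩
    · have c3 : sd v ≠ sd w := fun h' => hs (c1.trans h'.symm)
      exact ⟨⟨hu, hv, a1⟩, fun h' => hs h'.1, ⟨hG, c2, b2 a1 c3⟩, b3⟩
    · have c3 : sd u ≠ sd w := fun h' => hs (h'.trans c1.symm)
      exact ⟨⟨hu, hv, a1⟩, fun h' => hs h'.1, ⟨hG, b1 a1 c3, c2⟩, b3⟩

theorem split_sum (W : Finset V) (sd : V → Bool) (F : V → ℝ) (h0 : ∀ x, x ∉ W → F x = 0) :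
    ∑ x, F x = ∑ x ∈ Sb W sd true, F x + ∑ x ∈ Sb W sd false, F x := by
  have e1 : ∑ x, F x = ∑ x ∈ W, F x := by
    symm
    exact sum_subset (subset_univ _) (fun x _ hx => h0 x hx)
  have e2 : Sb W sd false = W.filter (fun v => ¬ sd v = true) := by
    unfold Sb
    refine filter_congr (fun v _ => ?_)
    simp
  rw [e1, e2]
  exact (sum_filter_add_sum_filter_not W (fun v => sd v = true) F).symm

/-- block sums -/
noncomputable def BS (W : Finset V) (sd : V → Bool) (φ : V × V → ℝ) (a b : Bool) : ℝ :=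
  ∑ x ∈ Sb W sd a, ∑ y ∈ Sb W sd b, φ (x, y)

theorem BS_symm (φ : V × V → ℝ) (hφ : ∀ x y, φ (x, y) = φ (y, x)) (a b : Bool) :
    BS W sd φ a b = BS W sd φ b a := by
  unfold BS
  rw [sum_comm]
  exact sum_congr rfl (fun x _ => sum_congr rfl (fun y _ => hφ y x))

theorem BS_bal (φ : V × V → ℝ) (hφ : φ ∈ Zx W sd G) :
    BS W sd φ true false = BS W sd φ true true + BS W sd φ false false := by
  obtain ⟨h1, h2, h3⟩ := hφ
  have e1 : ∀ x, ∑ y, cf (sd x) (sd y) * φ (x, y) =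
      ∑ y ∈ Sb W sd true, cf (sd x) (sd y) * φ (x, y) +
      ∑ y ∈ Sb W sd false, cf (sd x) (sd y) * φ (x, y) := by
    intro x
    refine split_sum W sd _ (fun y hy => ?_)
    rw [h2 x y (fun hh => hy hh.2.1), mul_zero]
  have e2 := split_sum W sd (fun x => ∑ y, cf (sd x) (sd y) * φ (x, y)) (fun x hx => by
    refine sum_eq_zero (fun y _ => ?_)
    rw [h2 x y (fun hh => hx hh.1), mul_zero])
  rw [h3] at e2
  have e3 : ∀ a b : Bool, ∑ x ∈ Sb W sd a, ∑ y ∈ Sb W sd b, cf (sd x) (sd y) * φ (x, y) =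
      cf a b * BS W sd φ a b := by
    intro a b
    unfold BS
    rw [mul_sum]
    refine sum_congr rfl (fun x hx => ?_)
    rw [mul_sum]
    refine sum_congr rfl (fun y hy => ?_)
    rw [(mem_filter.1 hx).2, (mem_filter.1 hy).2]
  simp only [e1, sum_add_distrib, e3] at e2
  have e4 := BS_symm (W := W) (sd := sd) φ h1 false true
  unfold cf at e2
  simp only [if_true, Bool.false_eq_true, Bool.true_eq_false, if_false] at e2
  rw [e4] at e2
  linarith

theorem Rsum (h : XH W sd G Bd q n e T) (φ : V × V → ℝ) (b : Bool) :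
    BS W sd φ b b = n / 2 * ∑ x ∈ Sb W sd b, Ri W sd n x φ := by
  have hn := h.n0
  unfold BS
  rw [mul_sum]
  refine sum_congr rfl (fun x hx => ?_)
  rw [Ri_apply, (mem_filter.1 hx).2]
  field_simp

theorem Psum (h : XH W sd G Bd q n e T) (φ : V × V → ℝ) (b : V) :
    ∑ a ∈ Sb W sd true, Pc W sd n a b φ = n / 2 * Gc W sd n b φ := by
  have hn := h.n0
  rw [Gc_apply]
  field_simp

theorem sum_bd (s : Finset V) (F : V → ℝ) {b m : ℝ} (hb0 : 0 ≤ b) (hb : ∀ w, |F w| ≤ b)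
    (hs : (s.card : ℝ) ≤ m) : |∑ x ∈ s, F x| ≤ m * b := by
  calc |∑ x ∈ s, F x| ≤ ∑ x ∈ s, |F x| := abs_sum_le_sum_abs _ _
    _ ≤ ∑ x ∈ s, b := sum_le_sum (fun x _ => hb x)
    _ = (s.card : ℝ) * b := by rw [sum_const, nsmul_eq_mul]
    _ ≤ m * b := mul_le_mul_of_nonneg_right hs hb0

theorem Gsum (h : XH W sd G Bd q n e T) (φ : V × V → ℝ) (hφ : φ ∈ Zx W sd G) {M : ℝ}
    (hM0 : 0 ≤ M) (hM : ∀ i, |φ i| ≤ M) :
    |∑ b ∈ Sb W sd false, Gc W sd n b φ| ≤ 8 * e * n * M := by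
  have hn := h.n0
  have he := h.e0
  set At : ℝ := ((Sb W sd true).card : ℝ) with hAt
  set Af : ℝ := ((Sb W sd false).card : ℝ) with hAf
  set Rt := ∑ x ∈ Sb W sd true, Ri W sd n x φ with hRt
  set Rf := ∑ x ∈ Sb W sd false, Ri W sd n x φ with hRf
  have e1 : n / 2 * ∑ b ∈ Sb W sd false, Gc W sd n b φ =
      (n / 2 - Af) * Rt + (n / 2 - At) * Rf := by
    rw [mul_sum]
    have e2 : ∑ b ∈ Sb W sd false, n / 2 * Gc W sd n b φ =
        ∑ b ∈ Sb W sd false, ∑ a ∈ Sb W sd true,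
          (φ (a, b) - Ri W sd n a φ - Ri W sd n b φ) := by
      refine sum_congr rfl (fun b _ => ?_)
      rw [← Psum h]
      exact sum_congr rfl (fun a _ => Pc_apply _ _ _ _ _ _)
    rw [e2]
    simp only [sum_sub_distrib, sum_const, nsmul_eq_mul]
    rw [sum_comm]
    have e3 : ∑ y ∈ Sb W sd true, ∑ x ∈ Sb W sd false, φ (y, x) = BS W sd φ true false := rfl
    rw [e3, BS_bal φ hφ, Rsum h, Rsum h, ← mul_sum]
    ring
  have b1 : |Rt| ≤ n * (2 * M) := sum_bd _ _ (by positivity) (fun w => Ri_bound h φ hM w)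
    (h.le true)
  have b2 : |Rf| ≤ n * (2 * M) := sum_bd _ _ (by positivity) (fun w => Ri_bound h φ hM w)
    (h.le false)
  have c1 : |n / 2 - Af| ≤ e * n := by rw [abs_sub_comm]; exact h.part false
  have c2 : |n / 2 - At| ≤ e * n := by rw [abs_sub_comm]; exact h.part true
  have d1 : |n / 2 * ∑ b ∈ Sb W sd false, Gc W sd n b φ| ≤
      (e * n) * (n * (2 * M)) + (e * n) * (n * (2 * M)) := by
    rw [e1]
    refine (abs_add_le _ _).trans (add_le_add ?_ ?_)
    · rw [abs_mul]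
      exact mul_le_mul c1 b1 (abs_nonneg _) (by positivity)
    · rw [abs_mul]
      exact mul_le_mul c2 b2 (abs_nonneg _) (by positivity)
  rw [abs_mul, abs_of_pos (by positivity : (0:ℝ) < n / 2)] at d1
  have d2 : n / 2 * |∑ b ∈ Sb W sd false, Gc W sd n b φ| ≤ n / 2 * (8 * e * n * M) := by
    refine d1.trans (le_of_eq ?_)
    ring
  exact le_of_mul_le_mul_left d2 (by positivity)

theorem Lx_int (h : XH W sd G Bd q n e T) (φ : V × V → ℝ) (hφ : φ ∈ Zx W sd G) {M : ℝ}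
    (hM0 : 0 ≤ M) (hM : ∀ i, |φ i| ≤ M) {u v : V} (hu : u ∈ W) (hv : v ∈ W)
    (hs : sd u = sd v) (hG : G u v) : |Lx W sd G Bd n q φ (u, v) - φ (u, v)| ≤ M / 2 := by
  have hn := h.n0
  have he := h.e0
  have hT := h.T0
  have h1 := near_int h hu hv hs hG (fun w => Yc W sd n q u v w φ)
    (b := (42 + 15 * T) * M / n) (by positivity) (fun w => Yc_bound h φ hM u v w)
  have e0 : ∀ w, Yx W sd n q u v w φ = Yc W sd n q u v w φ := by
    intro w
    unfold Yx
    rw [if_pos hs]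
  rw [Lx_apply]
  simp only [e0]
  have e5 : 3 * e * n * ((42 + 15 * T) * M / n) = (126 + 45 * T) * e * M := by
    field_simp
    ring
  rw [e5] at h1
  have key : |∑ w ∈ Sb W sd (!sd u), Yc W sd n q u v w φ - φ (u, v)| ≤ (34 + 10 * T) * e * M := by
    have hc := h.part (!sd u)
    have c1 : |2 / n * ((Sb W sd (!sd u)).card : ℝ) * φ (u, v) - φ (u, v)| ≤ 2 * e * M := by
      have e1 : 2 / n * ((Sb W sd (!sd u)).card : ℝ) * φ (u, v) - φ (u, v) =
          2 / n * (((Sb W sd (!sd u)).card : ℝ) - n / 2) * φ (u, v) := by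
        field_simp
        try ring
      rw [e1, abs_mul, abs_mul, abs_of_pos (by positivity : (0:ℝ) < 2 / n)]
      have e2 : 2 / n * |((Sb W sd (!sd u)).card : ℝ) - n / 2| ≤ 2 * e := by
        calc _ ≤ 2 / n * (e * n) := mul_le_mul_of_nonneg_left hc (by positivity)
          _ = 2 * e := by field_simp
      exact mul_le_mul e2 (hM _) (abs_nonneg _) (by positivity)
    have k1 : 0 ≤ T * e * M := by positivity
    have k2 : 0 ≤ e * M := by positivity
    cases hb : sd u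
    · rw [hb] at c1
      simp only [Bool.not_false] at c1 ⊢
      have e1 : ∑ w ∈ Sb W sd true, Yc W sd n q u v w φ =
          2 / n * ((Sb W sd true).card : ℝ) * φ (u, v) + ∑ c ∈ Sb W sd false,
            q c u v * ((n / 2 - ((Sb W sd true).card : ℝ)) * Gc W sd n c φ) := by
        have e2 : ∀ w ∈ Sb W sd true, Yc W sd n q u v w φ = (2 / n) * φ (u, v) +
            ∑ c ∈ Sb W sd false, q c u v * (Pc W sd n w c φ - Gc W sd n c φ) :=
          fun w _ => Yc_false hb φ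
        rw [sum_congr rfl e2, sum_add_distrib, sum_const, nsmul_eq_mul, sum_comm]
        congr 1
        · ring
        · refine sum_congr rfl (fun c _ => ?_)
          rw [← mul_sum, sum_sub_distrib, sum_const, nsmul_eq_mul, Psum h]
          ring
      rw [e1]
      have h3 := ker_sum h u v (fun c => (n / 2 - ((Sb W sd true).card : ℝ)) * Gc W sd n c φ)
        (b := (e * n) * (10 * M)) (by positivity) (fun c => by
          rw [abs_mul]
          refine mul_le_mul ?_ (Gc_bound h φ hM c) (abs_nonneg _) (by positivity)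
          rw [abs_sub_comm]
          exact h.part true)
      have e4 : T / n * (e * n * (10 * M)) = 10 * (T * e * M) := by
        field_simp
      rw [e4] at h3
      have a1 := abs_le.1 c1
      have a3 := abs_le.1 h3
      have e6 : (34 + 10 * T) * e * M = 34 * (e * M) + 10 * (T * e * M) := by ring
      rw [e6, abs_le]
      have e7 : 2 * e * M = 2 * (e * M) := by ring
      rw [e7] at a1
      constructor <;> linarith [a1.1, a1.2, a3.1, a3.2]
    · rw [hb] at c1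
      simp only [Bool.not_true] at c1 ⊢
      have e1 : ∑ w ∈ Sb W sd false, Yc W sd n q u v w φ =
          2 / n * ((Sb W sd false).card : ℝ) * φ (u, v) +
            4 / n * ∑ w ∈ Sb W sd false, Gc W sd n w φ := by
        have e2 : ∀ w ∈ Sb W sd false, Yc W sd n q u v w φ = (2 / n) * φ (u, v) +
            (4 / n) * Gc W sd n w φ := fun w _ => Yc_true hb φ
        rw [sum_congr rfl e2, sum_add_distrib, sum_const, nsmul_eq_mul, mul_sum]
        congr 1
        ring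
      rw [e1]
      have h3 : |4 / n * ∑ w ∈ Sb W sd false, Gc W sd n w φ| ≤ 32 * (e * M) := by
        rw [abs_mul, abs_of_pos (by positivity : (0:ℝ) < 4 / n)]
        calc _ ≤ 4 / n * (8 * e * n * M) :=
              mul_le_mul_of_nonneg_left (Gsum h φ hφ hM0 hM) (by positivity)
          _ = 32 * (e * M) := by field_simp; ring
      have a1 := abs_le.1 c1
      have a3 := abs_le.1 h3
      have e6 : (34 + 10 * T) * e * M = 34 * (e * M) + 10 * (T * e * M) := by ring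
      rw [e6, abs_le]
      have e7 : 2 * e * M = 2 * (e * M) := by ring
      rw [e7] at a1
      constructor <;> linarith [a1.1, a1.2, a3.1, a3.2]
  have f1 := abs_le.1 h1
  have f2 := abs_le.1 key
  have hfin : (160 + 55 * T) * e * M ≤ M / 2 := by
    have g1 := h.eT
    have g2 : (160 + 55 * T) * e ≤ 1 / 2 := by nlinarith [mul_nonneg hT he]
    calc (160 + 55 * T) * e * M ≤ 1 / 2 * M := mul_le_mul_of_nonneg_right g2 hM0
      _ = M / 2 := by ring
  have e8 : (160 + 55 * T) * e * M = (126 + 45 * T) * e * M + (34 + 10 * T) * e * M := by ring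
  rw [e8] at hfin
  rw [abs_le]
  constructor <;> linarith [f1.1, f1.2, f2.1, f2.2]

theorem Lx_cross (h : XH W sd G Bd q n e T) (φ : V × V → ℝ) (hφ : φ ∈ Zx W sd G) {M : ℝ}
    (hM0 : 0 ≤ M) (hM : ∀ i, |φ i| ≤ M) {u v : V} (hu : u ∈ W) (hv : v ∈ W)
    (hsu : sd u = true) (hsv : sd v = false) (hG : G u v) :
    |Lx W sd G Bd n q φ (u, v) - φ (u, v)| ≤ M / 2 := by
  have hn := h.n0
  have he := h.e0
  have hT := h.T0
  have hs : sd u ≠ sd v := by rw [hsu, hsv]; simp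
  have h1 := near_cross h hu hv hs hG (fun w => Yx W sd n q u v w φ)
    (b := (42 + 15 * T) * M / n) (by positivity) (fun w => Yx_bound h φ hM u v w)
  rw [Lx_apply]
  have e5 : 3 * e * n * ((42 + 15 * T) * M / n) = (126 + 45 * T) * e * M := by
    field_simp
    ring
  rw [e5] at h1
  obtain ⟨z1, z2, z3⟩ := hφ
  have hrow : ∀ x, x ∈ W → ∑ w ∈ W.filter (fun w => sd x = sd w ∧ G x w), φ (x, w) =
      n / 2 * Ri W sd n x φ := by
    intro x hx
    rw [Ri_apply]
    have e1 : n / 2 * (2 / n * ∑ w ∈ Sb W sd (sd x), φ (x, w)) =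
        ∑ w ∈ Sb W sd (sd x), φ (x, w) := by field_simp
    rw [e1]
    refine sum_subset ?_ ?_
    · intro w hw
      obtain ⟨a1, a2, a3⟩ := mem_filter.1 hw
      exact mem_filter.2 ⟨a1, a2.symm⟩
    · intro w hw hw'
      obtain ⟨a1, a2⟩ := mem_filter.1 hw
      refine z2 x w (fun hh => hw' (mem_filter.2 ⟨a1, a2.symm, hh.2.2⟩))
  have s1 : ∑ w ∈ W.filter (fun w => sd u = sd w ∧ G u w), Yx W sd n q u v w φ =
      Ri W sd n u φ + 4 / n * ((W.filter (fun w => sd u = sd w ∧ G u w)).card : ℝ) *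
        Gc W sd n v φ := by
    have e1 : ∀ w ∈ W.filter (fun w => sd u = sd w ∧ G u w), Yx W sd n q u v w φ =
        2 / n * φ (u, w) + 4 / n * Gc W sd n v φ := by
      intro w hw
      obtain ⟨a1, a2, a3⟩ := mem_filter.1 hw
      unfold Yx
      rw [if_neg hs, if_pos a2]
      exact Yc_true hsu φ
    rw [sum_congr rfl e1, sum_add_distrib, ← mul_sum, hrow u hu, sum_const, nsmul_eq_mul]
    field_simp
  have s2 : ∑ w ∈ W.filter (fun w => sd v = sd w ∧ G v w), Yx W sd n q u v w φ =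
      Ri W sd n v φ + (Pc W sd n u v φ - Gc W sd n v φ) := by
    have e1 : ∀ w ∈ W.filter (fun w => sd v = sd w ∧ G v w), Yx W sd n q u v w φ =
        2 / n * φ (v, w) +
          ∑ c ∈ Sb W sd false, q c v w * (Pc W sd n u c φ - Gc W sd n c φ) := by
      intro w hw
      obtain ⟨a1, a2, a3⟩ := mem_filter.1 hw
      have a4 : ¬ sd u = sd w := fun hh => hs (hh.trans a2.symm)
      unfold Yx
      rw [if_neg hs, if_neg a4]
      exact Yc_false hsv φ
    rw [sum_congr rfl e1, sum_add_distrib, ← mul_sum, hrow v hv, sum_comm]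
    have e2 : ∀ c ∈ Sb W sd false, ∑ w ∈ W.filter (fun w => sd v = sd w ∧ G v w),
        q c v w * (Pc W sd n u c φ - Gc W sd n c φ) =
        if v = c then (Pc W sd n u c φ - Gc W sd n c φ) else 0 := by
      intro c hc
      rw [← sum_mul]
      have e3 : ∑ w ∈ W.filter (fun w => sd v = sd w ∧ G v w), q c v w = ∑ w, q c v w := by
        refine sum_subset (subset_univ _) (fun w _ hw => ?_)
        by_contra hne
        obtain ⟨b1, b2, b3, b4⟩ := h.qp c v w hne
        obtain ⟨c1, c2⟩ := mem_filter.1 b3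
        exact hw (mem_filter.2 ⟨c1, hsv.trans c2.symm, b4⟩)
      rw [e3, h.q1 c hc v]
      split_ifs <;> simp
    have hvF : v ∈ Sb W sd false := mem_filter.2 ⟨hv, hsv⟩
    rw [sum_congr rfl e2, sum_ite_eq, if_pos hvF]
    field_simp
  rw [s1, s2, Pc_apply] at h1
  set d : ℝ := ((W.filter (fun w => sd u = sd w ∧ G u w)).card : ℝ) with hd
  have hdeg : |d - n / 4| ≤ e * n := h.int u hu
  have key : |(4 / n * d - 1) * Gc W sd n v φ| ≤ 40 * (e * M) := by
    rw [abs_mul]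
    have k1 : |4 / n * d - 1| ≤ 4 * e := by
      have e1 : 4 / n * d - 1 = 4 / n * (d - n / 4) := by field_simp
      rw [e1, abs_mul, abs_of_pos (by positivity : (0:ℝ) < 4 / n)]
      calc _ ≤ 4 / n * (e * n) := mul_le_mul_of_nonneg_left hdeg (by positivity)
        _ = 4 * e := by field_simp
    calc |4 / n * d - 1| * |Gc W sd n v φ| ≤ (4 * e) * (10 * M) :=
          mul_le_mul k1 (Gc_bound h φ hM v) (abs_nonneg _) (by positivity)
      _ = 40 * (e * M) := by ring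
  have e6 : Ri W sd n u φ + 4 / n * d * Gc W sd n v φ +
      (Ri W sd n v φ + (φ (u, v) - Ri W sd n u φ - Ri W sd n v φ - Gc W sd n v φ)) =
      φ (u, v) + (4 / n * d - 1) * Gc W sd n v φ := by ring
  rw [e6] at h1
  have f1 := abs_le.1 h1
  have f2 := abs_le.1 key
  have hfin : (166 + 45 * T) * e * M ≤ M / 2 := by
    have g1 := h.eT
    have g2 : (166 + 45 * T) * e ≤ 1 / 2 := by nlinarith [mul_nonneg hT he]
    calc (166 + 45 * T) * e * M ≤ 1 / 2 * M := mul_le_mul_of_nonneg_right g2 hM0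
      _ = M / 2 := by ring
  have e8 : (166 + 45 * T) * e * M = (126 + 45 * T) * e * M + 40 * (e * M) := by ring
  rw [e8] at hfin
  rw [abs_le]
  constructor <;> linarith [f1.1, f1.2, f2.1, f2.2]

theorem Lx_near (h : XH W sd G Bd q n e T) (φ : V × V → ℝ) (hφ : φ ∈ Zx W sd G) (M : ℝ)
    (hM : ∀ i, |φ i| ≤ M) (i : V × V) : |Lx W sd G Bd n q φ i - φ i| ≤ M / 2 := by
  obtain ⟨u, v⟩ := i
  have hM0 : 0 ≤ M := (abs_nonneg _).trans (hM (u, v))
  have hL := Lx_mem h φ hφ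
  by_cases hc : u ∈ W ∧ v ∈ W ∧ G u v
  · obtain ⟨hu, hv, hG⟩ := hc
    by_cases hs : sd u = sd v
    · exact Lx_int h φ hφ hM0 hM hu hv hs hG
    · cases hb : sd u
      · have hb' : sd v = true := by
          revert hs
          rw [hb]
          cases sd v <;> simp
        have h1 := Lx_cross h φ hφ hM0 hM hv hu hb' hb (h.gs _ _ hG)
        rw [hL.1 v u, hφ.1 v u] at h1
        exact h1
      · have hb' : sd v = false := by
          revert hs
          rw [hb]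
          cases sd v <;> simp
        exact Lx_cross h φ hφ hM0 hM hu hv hb hb' hG
  · rw [hL.2.1 u v hc, hφ.2.1 u v hc, sub_zero, abs_zero]
    linarith

end Hyps

end F3.FX
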