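import Pool.Agent.F3.FX.Op
import Pool.Agent.F3.FX.Kern

/-!
# F3, worlds G and R: the typical part (nearly complete bipartite, internal degrees `n/4`, closed
5-walks on the side `false`)
-/

set_option autoImplicit false
set_option linter.unusedSectionVars false

namespace F3.FX

open Finset Classical F3.FT

/-- the statement of `two` for given constants -/
def TwoSt (θ ε₀ C : ℝ) : Prop := ∀ (V : Type) [Fintype V] [DecidableEq V] (W : Finset V)
    (sd : V → Bool) (G : V → V → Prop) (Bd : V → V → V → Prop) (D : V → V → ℝ),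
    0 < nn V → (∀ u, ¬ G u u) → (∀ u v, G u v → G v u) → (∀ u v w, Bd u v w → Bd v u w) →
    (∀ u v w, Bd u v w → Bd u w v) →
    (∀ b, |((W.filter (fun v => sd v = b)).card : ℝ) - nn V / 2| ≤ ε₀ * nn V) →
    (∀ u ∈ W, ((W.filter (fun v => sd u ≠ sd v ∧ ¬ G u v)).card : ℝ) ≤ ε₀ * nn V) →
    (∀ u ∈ W, |((W.filter (fun v => sd u = sd v ∧ G u v)).card : ℝ) - nn V / 4| ≤ ε₀ * nn V) →
    (∀ u v, ((univ.filter (fun w => Bd u v w)).card : ℝ) ≤ ε₀ * nn V) →
    (∀ y ∈ W, sd y = false → θ * nn V ^ 4 ≤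
      (((W ×ˢ W ×ˢ W ×ˢ W).filter (fun p => (sd p.1 = false ∧ sd p.2.1 = false ∧
        sd p.2.2.1 = false ∧ sd p.2.2.2 = false) ∧ G y p.1 ∧ G p.1 p.2.1 ∧ G p.2.1 p.2.2.1 ∧
        G p.2.2.1 p.2.2.2 ∧ G p.2.2.2 y)).card : ℝ)) →
    (∀ u v, D u v = D v u) → (∀ u ∈ W, ∀ v ∈ W, G u v → |D u v - 1| ≤ ε₀) →
    2 * ∑ x ∈ (W ×ˢ W).filter (fun x => sd x.1 = sd x.2 ∧ G x.1 x.2), D x.1 x.2 =
      ∑ x ∈ (W ×ˢ W).filter (fun x => sd x.1 ≠ sd x.2 ∧ G x.1 x.2), D x.1 x.2 →
    ∃ f : V → V → V → ℝ, (∀ u v w, 0 ≤ f u v w) ∧ (∀ u v w, f u v w ≤ C / nn V) ∧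
      (∀ u v w, f u v w ≠ 0 → u ∈ W ∧ v ∈ W ∧ w ∈ W ∧ ¬ (sd u = sd v ∧ sd u = sd w) ∧
        G u v ∧ G u w ∧ G v w ∧ ¬ Bd u v w) ∧
      ∀ u ∈ W, ∀ v ∈ W, G u v → ld f u v = D u v

theorem two_of (hK : StKern) : ∀ θ : ℝ, 0 < θ → ∃ ε₀ C : ℝ, 0 < ε₀ ∧ 0 < C ∧ TwoSt θ ε₀ C := by
  intro θ hθ
  set T : ℝ := 20 / θ with hTd
  have hT : 0 ≤ T := by positivity
  set e : ℝ := 1 / (1000 + 400 * T) with hed
  have he : 0 < e := by positivity
  have heT : (1000 + 400 * T) * e = 1 := by
    rw [hed]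
    field_simp
  refine ⟨e, 1, he, one_pos, ?_⟩
  intro V _ _ W sd G Bd D hn g0 gs b1 b2 hpart hmiss hint hbad hwalk hDs hD1 hDt
  set n : ℝ := nn V with hnd
  have hcw : ∀ y ∈ Sb W sd false, θ * nn V ^ 4 ≤ ((cw5 (Sb W sd false) G y).card : ℝ) := by
    intro y hy
    obtain ⟨h1, h2⟩ := mem_filter.1 hy
    refine (hwalk y h1 h2).trans (le_of_eq ?_)
    congr 2
    ext ⟨a, b, c, d⟩
    unfold cw5 Sb
    simp only [mem_filter, mem_product]
    tauto
  obtain ⟨q, hq1, hq2, hq3, hq4⟩ := hK V (Sb W sd false) G θ hθ hn gs hcw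
  have H : XH W sd G Bd q n e T := by
    refine ⟨hn, he.le, hT, heT.le, gs, b1, b2, hpart, hmiss, hint, hbad, hq1, hq2, ?_, ?_⟩
    · intro c hc x
      rw [hq3 c hc x]
      split_ifs <;> rfl
    · intro x y
      rw [hTd, div_div]
      exact hq4 x y
  -- the demand
  set d : V × V → ℝ := fun i => if i.1 ∈ W ∧ i.2 ∈ W ∧ G i.1 i.2 then D i.1 i.2 else 0 with hd
  have hdZ : d ∈ Zx W sd G := by
    refine ⟨fun x y => ?_, fun x y hxy => ?_, ?_⟩
    · rw [hd]
      simp only
      by_cases h : x ∈ W ∧ y ∈ W ∧ G x y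
      · rw [if_pos h, if_pos ⟨h.2.1, h.1, gs _ _ h.2.2⟩, hDs]
      · rw [if_neg h, if_neg (fun h' => h ⟨h'.2.1, h'.1, gs _ _ h'.2.2⟩)]
    · rw [hd]
      exact if_neg hxy
    · have e1 : ∑ x, ∑ y, cf (sd x) (sd y) * d (x, y) =
          ∑ x ∈ W, ∑ y ∈ W, cf (sd x) (sd y) * d (x, y) := by
        symm
        rw [← sum_subset (subset_univ W) (f := fun x => ∑ y, cf (sd x) (sd y) * d (x, y))
          (fun x _ hx => sum_eq_zero (fun y _ => by rw [hd]; simp [hx]))]
        refine sum_congr rfl (fun x hx => ?_)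
        exact sum_subset (subset_univ W) (fun y _ hy => by rw [hd]; simp [hy])
      rw [e1]
      rw [sum_filter, sum_filter, sum_product, sum_product] at hDt
      have e2 : ∑ x ∈ W, ∑ y ∈ W, cf (sd x) (sd y) * d (x, y) =
          2 * (∑ x ∈ W, ∑ y ∈ W, if sd x = sd y ∧ G x y then D x y else 0) -
            ∑ x ∈ W, ∑ y ∈ W, if sd x ≠ sd y ∧ G x y then D x y else 0 := by
        rw [mul_sum, ← sum_sub_distrib]
        refine sum_congr rfl (fun x hx => ?_)
        rw [mul_sum, ← sum_sub_distrib]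
        refine sum_congr rfl (fun y hy => ?_)
        rw [hd]
        unfold cf
        by_cases hs : sd x = sd y <;> by_cases hG : G x y <;> simp [hs, hG, hx, hy]
      rw [e2, hDt, sub_self]
  set g : V → V → V → ℝ := fun u v w => if Ax W sd G Bd u v w then 2 / n else 0 with hg
  have hgZ : (fun i : V × V => ∑ w, g i.1 i.2 w) ∈ Zx W sd G := by
    refine Zx_of (Bd := Bd) g (fun u v w => ?_) (fun u v w => ?_) (fun u v w hne => ?_)
    · simp only [hg, Ax_12 H u v w]
    · simp only [hg, Ax_23 H u v w]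
    · by_contra hA
      exact hne (if_neg hA)
  set φ0 : V × V → ℝ := d - (fun i : V × V => ∑ w, g i.1 i.2 w) with hφ0
  have hφZ : φ0 ∈ Zx W sd G := (Zx W sd G).sub_mem hdZ hgZ
  have hφb : ∀ i, |φ0 i| ≤ 11 * e := by
    rintro ⟨u, v⟩
    by_cases hc : u ∈ W ∧ v ∈ W ∧ G u v
    · obtain ⟨hu, hv, hG⟩ := hc
      have h2 := abs_le.1 (hD1 u hu v hv hG)
      have e1 : φ0 (u, v) = D u v - ∑ w, (if Ax W sd G Bd u v w then 2 / n else 0) := by
        rw [hφ0, Pi.sub_apply, hd]
        simp only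
        rw [if_pos ⟨hu, hv, hG⟩]
      rw [e1]
      have e2 : 3 * e * n * (2 / n) = 6 * e := by
        field_simp
        ring
      have hb : ∀ w : V, |(fun _ : V => 2 / n) w| ≤ 2 / n := fun w => by
        rw [abs_of_pos (by positivity)]
      by_cases hs : sd u = sd v
      · have h1 := near_int H hu hv hs hG (fun _ => 2 / n) (b := 2 / n) (by positivity) hb
        rw [sum_const, nsmul_eq_mul, e2] at h1
        have k3 : |((Sb W sd (!sd u)).card : ℝ) * (2 / n) - 1| ≤ 2 * e := by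
          have : ((Sb W sd (!sd u)).card : ℝ) * (2 / n) - 1 =
              (((Sb W sd (!sd u)).card : ℝ) - n / 2) * (2 / n) := by
            field_simp
          rw [this, abs_mul, abs_of_pos (by positivity : (0:ℝ) < 2 / n)]
          calc _ ≤ (e * n) * (2 / n) :=
                mul_le_mul_of_nonneg_right (H.part _) (by positivity)
            _ = 2 * e := by field_simp
        have h1' := abs_le.1 h1
        have k3' := abs_le.1 k3
        rw [abs_le]
        constructor <;> linarith [h1'.1, h1'.2, h2.1, h2.2, k3'.1, k3'.2]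
      · have h1 := near_cross H hu hv hs hG (fun _ => 2 / n) (b := 2 / n) (by positivity) hb
        rw [sum_const, sum_const, nsmul_eq_mul, nsmul_eq_mul, e2] at h1
        have k : ∀ x ∈ W, |((W.filter (fun w => sd x = sd w ∧ G x w)).card : ℝ) * (2 / n) -
            1 / 2| ≤ 2 * e := by
          intro x hx
          have : ((W.filter (fun w => sd x = sd w ∧ G x w)).card : ℝ) * (2 / n) - 1 / 2 =
              (((W.filter (fun w => sd x = sd w ∧ G x w)).card : ℝ) - n / 4) * (2 / n) := by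
            field_simp
            ring
          rw [this, abs_mul, abs_of_pos (by positivity : (0:ℝ) < 2 / n)]
          calc _ ≤ (e * n) * (2 / n) :=
                mul_le_mul_of_nonneg_right (H.int x hx) (by positivity)
            _ = 2 * e := by field_simp
        have h1' := abs_le.1 h1
        have k3' := abs_le.1 (k u hu)
        have k4' := abs_le.1 (k v hv)
        rw [abs_le]
        constructor <;> linarith [h1'.1, h1'.2, h2.1, h2.2, k3'.1, k3'.2, k4'.1, k4'.2]
    · rw [hφZ.2.1 u v hc, abs_zero]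
      positivity
  obtain ⟨ψ, hψZ, hψ, hψb⟩ := approx_inv (Zx W sd G) (Lx W sd G Bd n q) (Lx_mem H)
    (fun φ hφ M hM i => Lx_near H φ hφ M hM i) φ0 hφZ _ hφb
  have hYb : ∀ u v w, |Yx W sd n q u v w ψ| ≤ 1 / n := by
    intro u v w
    refine (Yx_bound H ψ hψb u v w).trans ?_
    rw [div_le_div_iff_of_pos_right hn]
    nlinarith [mul_nonneg hT he.le]
  set y : V → V → V → ℝ := fun u v w => if Ax W sd G Bd u v w then 2 / n + Yx W sd n q u v w ψ
    else 0 with hy
  have y12 : ∀ u v w, y u v w = y v u w := by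
    intro u v w
    simp only [hy, Ax_12 H u v w, Yx_swap12 (u := u) (v := v) (w := w) (W := W) (n := n)
      H.qs ψ hψZ.1]
  have y23 : ∀ u v w, y u v w = y u w v := by
    intro u v w
    by_cases hA : Ax W sd G Bd u v w
    · have hA' := (Ax_23 H u v w).1 hA
      simp only [hy, if_pos hA, if_pos hA']
      rw [Yx_swap23 H.qs ψ hψZ.1 hA.2.1]
    · have hA' := fun h' => hA ((Ax_23 H u v w).2 h')
      simp only [hy, if_neg hA, if_neg hA']
  have y0 : ∀ u v w, 0 ≤ y u v w ∧ y u v w ≤ 3 / n := by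
    intro u v w
    rw [hy]
    simp only
    have h1 := abs_le.1 (hYb u v w)
    have e1 : 2 / n = 2 * (1 / n) := by ring
    have e2 : 3 / n = 3 * (1 / n) := by ring
    have e3 : 0 < 1 / n := by positivity
    split_ifs
    · rw [e1, e2]
      constructor <;> linarith [h1.1, h1.2]
    · rw [e2]
      constructor <;> linarith
  refine ⟨fun u v w => y u v w / 6, fun u v w => by linarith [(y0 u v w).1], fun u v w => ?_,
    fun u v w hne => ?_, ?_⟩
  · have e2 : 3 / n = 3 * (1 / n) := by ring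
    have e3 : 0 < 1 / n := by positivity
    have := (y0 u v w).2
    rw [e2] at this
    linarith
  · have hA : Ax W sd G Bd u v w := by
      by_contra hA
      apply hne
      rw [hy]
      simp only
      rw [if_neg hA, zero_div]
    obtain ⟨⟨a1, a2, a3⟩, a4, ⟨a5, a6, a7⟩, a8⟩ := hA
    exact ⟨a1, a2, a3, a4, a5, a6, a7, a8⟩
  · intro u hu v hv hG
    unfold ld
    have e1 : ∀ w, y u v w / 6 + y u w v / 6 + y v u w / 6 + y v w u / 6 + y w u v / 6 +
        y w v u / 6 = y u v w := by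
      intro w
      have s1 : y u w v = y u v w := (y23 u v w).symm
      have s2 : y v u w = y u v w := (y12 u v w).symm
      have s3 : y v w u = y u v w := by rw [← y23 v u w, s2]
      have s4 : y w u v = y u v w := by rw [← y12 u w v, s1]
      have s5 : y w v u = y u v w := by rw [← y12 v w u, s3]
      rw [s1, s2, s3, s4, s5]
      ring
    simp_rw [e1]
    have e2 : ∑ w, y u v w = ∑ w, g u v w + Lx W sd G Bd n q ψ (u, v) := by
      rw [Lx_apply, ← sum_add_distrib]
      refine sum_congr rfl (fun w _ => ?_)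
      simp only [hy, hg]
      split_ifs
      · rfl
      · rw [add_zero]
    rw [e2, hψ, hφ0, Pi.sub_apply, hd]
    simp only
    rw [if_pos ⟨hu, hv, hG⟩]
    ring

theorem two : ∀ θ : ℝ, 0 < θ → ∃ ε₀ C : ℝ, 0 < ε₀ ∧ 0 < C ∧ TwoSt θ ε₀ C :=
  two_of kern

end F3.FX
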