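import Pool.Agent.F3.FX.Gx

/-!
# F3, worlds G and R: closed 5-walks after the deletion of a sparse set of edges
-/

set_option autoImplicit false
set_option linter.unusedSectionVars false

namespace F3.FX

open Finset Classical NW F1 F3.FT

section

variable {V : Type} [Fintype V] [DecidableEq V] {R : Finset (Sym2 V)} {κ : ℝ}

theorem walks_R (hRs : Sm κ R) (S : Finset V) (y : V) {F : Finset (Sym2 V)} :
    ((walks5 F S y y).card : ℝ) - 5 * κ * nn V ^ 4 ≤ ((walks5 (F \ R) S y y).card : ℝ) := by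
  let I : V → V → ℝ := fun u v => if s(u, v) ∈ R then 1 else 0
  have I0 : ∀ u v, 0 ≤ I u v := by
    intro u v
    simp only [I]
    split_ifs <;> norm_num
  have I1 : ∀ u, ∑ v, I u v ≤ κ * nn V := by
    intro u
    have h1 : ((nbr R u).card : ℝ) ≤ κ * nn V := hRs u
    have h2 : ∑ v, I u v = ((nbr R u).card : ℝ) := by
      simp only [I]
      rw [Finset.sum_boole]
      rfl
    rw [h2]
    exact h1
  have I2 : ∀ v, ∑ u, I u v ≤ κ * nn V := by
    intro v
    refine le_trans (le_of_eq ?_) (I1 v)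
    refine Finset.sum_congr rfl fun u _ => ?_
    simp only [I]
    rw [Sym2.eq_swap]
  have I3 : ∑ u, ∑ v, I u v ≤ nn V * (κ * nn V) := by
    calc ∑ u, ∑ v, I u v ≤ ∑ _u : V, κ * nn V := Finset.sum_le_sum fun u _ => I1 u
      _ = nn V * (κ * nn V) := by
        rw [Finset.sum_const, Finset.card_univ, nsmul_eq_mul]
        rfl
  have hn0 : 0 ≤ nn V := Nat.cast_nonneg _
  have hN : ∀ x : ℝ, ∑ _u : V, x = nn V * x := by
    intro x
    rw [Finset.sum_const, Finset.card_univ, nsmul_eq_mul]
    rfl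
  have h1 : (walks5 F S y y).card ≤ (walks5 (F \ R) S y y).card +
      (walks5 F S y y \ walks5 (F \ R) S y y).card := by
    rw [add_comm]
    exact Finset.card_le_card_sdiff_add_card
  have h2 : ((walks5 F S y y \ walks5 (F \ R) S y y).card : ℝ) ≤
      ∑ w : V × V × V × V, (I y w.1 + I w.1 w.2.1 + I w.2.1 w.2.2.1 + I w.2.2.1 w.2.2.2 +
        I w.2.2.2 y) := by
    calc ((walks5 F S y y \ walks5 (F \ R) S y y).card : ℝ) =
          ∑ _w ∈ walks5 F S y y \ walks5 (F \ R) S y y, (1 : ℝ) := by simp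
      _ ≤ ∑ w ∈ walks5 F S y y \ walks5 (F \ R) S y y,
          (I y w.1 + I w.1 w.2.1 + I w.2.1 w.2.2.1 + I w.2.2.1 w.2.2.2 + I w.2.2.2 y) := by
          refine Finset.sum_le_sum fun w hw => ?_
          obtain ⟨p1, p2⟩ := mem_sdiff.1 hw
          unfold walks5 at p1 p2
          simp only [mem_filter, mem_sdiff, not_and, not_not] at p1 p2
          obtain ⟨q0, q1, q2, q3, q4, q5⟩ := p1
          have a1 := I0 y w.1
          have a2 := I0 w.1 w.2.1
          have a3 := I0 w.2.1 w.2.2.1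
          have a4 := I0 w.2.2.1 w.2.2.2
          have a5 := I0 w.2.2.2 y
          by_cases r1 : s(y, w.1) ∈ R
          · have : I y w.1 = 1 := by simp only [I]; rw [if_pos r1]
            linarith
          by_cases r2 : s(w.1, w.2.1) ∈ R
          · have : I w.1 w.2.1 = 1 := by simp only [I]; rw [if_pos r2]
            linarith
          by_cases r3 : s(w.2.1, w.2.2.1) ∈ R
          · have : I w.2.1 w.2.2.1 = 1 := by simp only [I]; rw [if_pos r3]
            linarith
          by_cases r4 : s(w.2.2.1, w.2.2.2) ∈ R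
          · have : I w.2.2.1 w.2.2.2 = 1 := by simp only [I]; rw [if_pos r4]
            linarith
          have r5 := p2 q0 ⟨q1, r1⟩ ⟨q2, r2⟩ ⟨q3, r3⟩ ⟨q4, r4⟩ q5
          have : I w.2.2.2 y = 1 := by simp only [I]; rw [if_pos r5]
          linarith
      _ ≤ _ := by
          refine Finset.sum_le_sum_of_subset_of_nonneg (subset_univ _) fun w _ _ => ?_
          have a1 := I0 y w.1
          have a2 := I0 w.1 w.2.1
          have a3 := I0 w.2.1 w.2.2.1
          have a4 := I0 w.2.2.1 w.2.2.2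
          have a5 := I0 w.2.2.2 y
          linarith
  have h3 : ∑ w : V × V × V × V, (I y w.1 + I w.1 w.2.1 + I w.2.1 w.2.2.1 +
      I w.2.2.1 w.2.2.2 + I w.2.2.2 y) ≤ 5 * κ * nn V ^ 4 := by
    simp only [Fintype.sum_prod_type, Finset.sum_add_distrib]
    have b1 : ∑ a : V, ∑ _b : V, ∑ _c : V, ∑ _d : V, I y a ≤ κ * nn V ^ 4 := by
      simp only [hN]
      simp only [← Finset.mul_sum]
      have := mul_le_mul_of_nonneg_left (I1 y) (show 0 ≤ nn V ^ 3 by positivity)
      nlinarith
    have b2 : ∑ a : V, ∑ b : V, ∑ _c : V, ∑ _d : V, I a b ≤ κ * nn V ^ 4 := by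
      simp only [hN]
      simp only [← Finset.mul_sum]
      have := mul_le_mul_of_nonneg_left I3 (show 0 ≤ nn V ^ 2 by positivity)
      nlinarith
    have b3 : ∑ _a : V, ∑ b : V, ∑ c : V, ∑ _d : V, I b c ≤ κ * nn V ^ 4 := by
      simp only [hN]
      simp only [← Finset.mul_sum]
      have := mul_le_mul_of_nonneg_left I3 (show 0 ≤ nn V ^ 2 by positivity)
      nlinarith
    have b4 : ∑ _a : V, ∑ _b : V, ∑ c : V, ∑ d : V, I c d ≤ κ * nn V ^ 4 := by
      simp only [hN]
      have := mul_le_mul_of_nonneg_left I3 (show 0 ≤ nn V ^ 2 by positivity)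
      nlinarith
    have b5 : ∑ _a : V, ∑ _b : V, ∑ _c : V, ∑ d : V, I d y ≤ κ * nn V ^ 4 := by
      simp only [hN]
      have := mul_le_mul_of_nonneg_left (I2 y) (show 0 ≤ nn V ^ 3 by positivity)
      nlinarith
    linarith
  have h4 : ((walks5 F S y y).card : ℝ) ≤ ((walks5 (F \ R) S y y).card : ℝ) +
      ((walks5 F S y y \ walks5 (F \ R) S y y).card : ℝ) := by exact_mod_cast h1
  linarith

end

end F3.FX
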